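import Mathlib

/-!
# Analytic functions of several variables with zeros at points of very different sizes
-/

set_option autoImplicit false

open Filter Topology Metric

noncomputable section

namespace Pool.Agent.NH23.An

variable {E : Type*} [NormedAddCommGroup E] [NormedSpace ℂ E]

/-- the derivative in the direction of the last variable -/
def Dt (f : E × ℂ → ℂ) (x : E × ℂ) : ℂ := fderiv ℂ f x (0, 1)

theorem Dt_an {f : E × ℂ → ℂ} {s : Set (E × ℂ)} (hf : AnalyticOnNhd ℂ f s) : AnalyticOnNhd ℂ (Dt f) s := by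
  intro x hx
  have h1 : AnalyticAt ℂ (fderiv ℂ f) x := (hf.fderiv) x hx
  exact AnalyticAt.comp (g := fun L : (E × ℂ) →L[ℂ] ℂ => L (0, 1)) (f := fderiv ℂ f)
    ((ContinuousLinearMap.apply ℂ ℂ ((0 : E), (1 : ℂ))).analyticAt _) h1

theorem Dt_iter_an {f : E × ℂ → ℂ} {s : Set (E × ℂ)} (hf : AnalyticOnNhd ℂ f s) (n : ℕ) :
    AnalyticOnNhd ℂ (Dt^[n] f) s := by
  induction n with
  | zero => exact hf
  | succ n ih =>
    rw [Function.iterate_succ_apply']
    exact Dt_an ih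

theorem hasDerivAt_line {f : E × ℂ → ℂ} {x : E} {t : ℂ} (hf : DifferentiableAt ℂ f (x, t)) :
    HasDerivAt (fun s => f (x, s)) (Dt f (x, t)) t := by
  have h1 : HasDerivAt (fun s : ℂ => (x, s)) ((0 : E), (1 : ℂ)) t :=
    (hasDerivAt_const t x).prodMk (hasDerivAt_id t)
  exact hf.hasFDerivAt.comp_hasDerivAt t h1

theorem iter_line {f : E × ℂ → ℂ} {r : ℝ} (hf : AnalyticOnNhd ℂ f (ball 0 r)) (n : ℕ) :
    ∀ {x : E} {t : ℂ}, ‖x‖ < r → ‖t‖ < r → iteratedDeriv n (fun s => f (x, s)) t = (Dt^[n] f) (x, t) := by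
  induction n with
  | zero => intro x t _ _; rfl
  | succ n ih =>
    intro x t hx ht
    rw [iteratedDeriv_succ, Function.iterate_succ_apply']
    have h1 : iteratedDeriv n (fun s => f (x, s)) =ᶠ[𝓝 t] fun s => (Dt^[n] f) (x, s) := by
      have h2 : ∀ᶠ s in 𝓝 t, ‖s‖ < r := continuous_norm.continuousAt.eventually_lt continuousAt_const ht
      filter_upwards [h2] with s hs
      exact ih hx hs
    rw [h1.deriv_eq]
    refine (hasDerivAt_line ?_).deriv
    refine (Dt_iter_an hf n (x, t) ?_).differentiableAt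
    rw [mem_ball_zero_iff, Prod.norm_mk]
    exact max_lt hx ht

theorem tail_bound {a : ℕ → ℂ} {t S : ℂ} {M r : ℝ} (hr : 0 < r) (hM : 0 ≤ M) (e : ℕ) (ht : ‖t‖ ≤ r / 2)
    (ha : ∀ n, ‖a n‖ ≤ M / r ^ n) (h0 : ∀ n < e, a n = 0) (hS : HasSum (fun n => a n * t ^ n) S) :
    ‖S - a e * t ^ e‖ ≤ 2 * M * (‖t‖ / r) ^ (e + 1) := by
  have h1 := (hasSum_nat_add_iff' (e + 1)).2 hS
  have h2 : ∑ i ∈ Finset.range (e + 1), a i * t ^ i = a e * t ^ e := by
    rw [Finset.sum_range_succ, Finset.sum_eq_zero, zero_add]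
    intro i hi
    rw [h0 i (Finset.mem_range.1 hi), zero_mul]
  rw [h2] at h1
  have hq : ‖t‖ / r ≤ 1 / 2 := by
    rw [div_le_iff₀ hr]
    linarith
  have hq0 : 0 ≤ ‖t‖ / r := by positivity
  have h3 : HasSum (fun n : ℕ => M * (‖t‖ / r) ^ (e + 1) * (‖t‖ / r) ^ n) (M * (‖t‖ / r) ^ (e + 1) * (1 - ‖t‖ / r)⁻¹) :=
    (hasSum_geometric_of_lt_one hq0 (by linarith)).mul_left _
  have h4 : ‖S - a e * t ^ e‖ ≤ M * (‖t‖ / r) ^ (e + 1) * (1 - ‖t‖ / r)⁻¹ := by
    rw [← h1.tsum_eq]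
    refine tsum_of_norm_bounded h3 fun n => ?_
    rw [norm_mul, norm_pow]
    calc ‖a (n + (e + 1))‖ * ‖t‖ ^ (n + (e + 1)) ≤ M / r ^ (n + (e + 1)) * ‖t‖ ^ (n + (e + 1)) := by
          gcongr
          exact ha _
      _ = M * (‖t‖ / r) ^ (e + 1) * (‖t‖ / r) ^ n := by
          rw [div_pow, div_pow]
          field_simp
          ring
  refine h4.trans ?_
  have h5 : (1 - ‖t‖ / r)⁻¹ ≤ 2 := by
    rw [inv_le_comm₀ (by linarith) (by norm_num)]
    linarith
  calc M * (‖t‖ / r) ^ (e + 1) * (1 - ‖t‖ / r)⁻¹ ≤ M * (‖t‖ / r) ^ (e + 1) * 2 := by gcongr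
    _ = _ := by ring

/-- the property of a sequence of points: no non-zero germ is very small there -/
def Zr (δ : ℕ → E) (ρ : ℕ → ℝ) : Prop :=
  ∀ f : E → ℂ, AnalyticAt ℂ f 0 → (∀ κ : ℕ, ∀ᶠ k in atTop, ‖f (δ k)‖ ≤ ρ k ^ κ) → f =ᶠ[𝓝 0] 0

/-- one more variable -/
theorem Zr.step {δ : ℕ → E} {ρ : ℕ → ℝ} (hZ : Zr δ ρ) (hδ : Tendsto δ atTop (𝓝 0)) (hρ0 : ∀ k, 0 ≤ ρ k)
    (hρ : Tendsto ρ atTop (𝓝 0)) {t : ℕ → ℂ} (ht0 : ∀ k, t k ≠ 0)
    (hts : ∀ κ : ℕ, ∀ᶠ k in atTop, ‖t k‖ ≤ ρ k ^ κ) : Zr (fun k => (δ k, t k)) (fun k => ‖t k‖) := by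
  intro f hf hsmall
  -- a good ball
  obtain ⟨r, hr, hfr, M, hM0, hM⟩ : ∃ r : ℝ, 0 < r ∧ AnalyticOnNhd ℂ f (ball 0 (2 * r)) ∧ ∃ M : ℝ, 0 ≤ M ∧
      ∀ x : E × ℂ, ‖x‖ < 2 * r → ‖f x‖ ≤ M := by
    obtain ⟨r₁, hr₁, h1⟩ := hf.exists_ball_analyticOnNhd
    have h2 : ∀ᶠ x in 𝓝 (0 : E × ℂ), ‖f x‖ < ‖f 0‖ + 1 :=
      hf.continuousAt.norm.eventually_lt continuousAt_const (by simp)
    obtain ⟨r₂, hr₂, h3⟩ := Metric.eventually_nhds_iff_ball.1 h2
    refine ⟨min r₁ r₂ / 2, by positivity, ?_, ‖f 0‖ + 1, by positivity, ?_⟩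
    · rw [mul_div_cancel₀ _ two_ne_zero]
      exact h1.mono (ball_subset_ball (min_le_left _ _))
    · intro x hx
      rw [mul_div_cancel₀ _ two_ne_zero] at hx
      exact (h3 x (by rw [mem_ball_zero_iff]; exact hx.trans_le (min_le_right _ _))).le
  have ht : Tendsto t atTop (𝓝 0) := by
    rw [tendsto_zero_iff_norm_tendsto_zero]
    refine squeeze_zero' (Eventually.of_forall fun k => norm_nonneg _) (hts 1) ?_
    simpa using hρ
  -- the Taylor coefficients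
  have hline : ∀ x : E, ‖x‖ < 2 * r → DifferentiableOn ℂ (fun s => f (x, s)) (ball 0 (2 * r)) := by
    intro x hx s hs
    have h1 : (x, s) ∈ ball (0 : E × ℂ) (2 * r) := by
      rw [mem_ball_zero_iff, Prod.norm_mk]
      exact max_lt hx (by simpa using hs)
    exact (hasDerivAt_line (hfr _ h1).differentiableAt).differentiableAt.differentiableWithinAt
  have hsum : ∀ x : E, ‖x‖ < 2 * r → ∀ s : ℂ, ‖s‖ < 2 * r →
      HasSum (fun n : ℕ => ((n.factorial : ℂ)⁻¹ * (Dt^[n] f) (x, 0)) * s ^ n) (f (x, s)) := by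
    intro x hx s hs
    have h1 := Complex.hasSum_taylorSeries_on_ball (hline x hx) (z := s) (by simpa using hs)
    have h2 : (fun n : ℕ => ((n.factorial : ℂ)⁻¹ * (Dt^[n] f) (x, 0)) * s ^ n) =
        fun n : ℕ => ((n.factorial : ℂ))⁻¹ • (s - 0) ^ n • iteratedDeriv n (fun s => f (x, s)) 0 := by
      funext n
      rw [iter_line hfr n hx (by simpa using hr), smul_eq_mul, smul_eq_mul, sub_zero]
      ring
    rw [h2]
    exact h1
  have hcf : ∀ x : E, ‖x‖ < 2 * r → ∀ n : ℕ, ‖(n.factorial : ℂ)⁻¹ * (Dt^[n] f) (x, 0)‖ ≤ M / r ^ n := by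
    intro x hx n
    have h1 := Complex.norm_iteratedDeriv_le_of_forall_mem_sphere_norm_le n hr (f := fun s => f (x, s)) (c := 0) (C := M)
      (by
        have h2 : DifferentiableOn ℂ (fun s => f (x, s)) (closedBall 0 r) :=
          (hline x hx).mono (closedBall_subset_ball (by linarith))
        exact h2.diffContOnCl_ball (subset_refl _))
      (fun z hz => by
        refine hM (x, z) ?_
        rw [Prod.norm_mk]
        refine max_lt hx ?_
        rw [mem_sphere_zero_iff_norm] at hz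
        rw [hz]
        linarith)
    rw [iter_line hfr n hx (by simpa using hr)] at h1
    have h3 : (0 : ℝ) < n.factorial := by exact_mod_cast n.factorial_pos
    rw [norm_mul, norm_inv, Complex.norm_natCast, inv_mul_le_iff₀ h3]
    refine h1.trans (le_of_eq ?_)
    ring
  -- all of them vanish
  have key : ∀ e : ℕ, ∀ x : E, ‖x‖ < 2 * r → (Dt^[e] f) (x, 0) = 0 := by
    intro e
    induction e using Nat.strong_induction_on with
    | _ e ih =>
    have han : AnalyticOnNhd ℂ (fun x : E => (Dt^[e] f) (x, 0)) (ball 0 (2 * r)) := by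
      intro x hx
      have h1 : AnalyticAt ℂ (Dt^[e] f) (x, 0) := Dt_iter_an hfr e (x, 0) (by
        rw [mem_ball_zero_iff, Prod.norm_mk]
        rw [mem_ball_zero_iff] at hx
        exact max_lt hx (by simpa using hr))
      exact AnalyticAt.comp (g := Dt^[e] f) (f := fun x : E => (x, (0 : ℂ))) h1 (analyticAt_id.prod analyticAt_const)
    have hsm : ∀ κ : ℕ, ∀ᶠ k in atTop, ‖(Dt^[e] f) (δ k, 0)‖ ≤ ρ k ^ κ := by
      intro κ
      set K : ℝ := e.factorial * (1 + 2 * M / r ^ (e + 1)) with hK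
      have hK0 : 0 ≤ K := by positivity
      have e1 : ∀ᶠ k in atTop, K * ρ k ≤ 1 := by
        have : Tendsto (fun k => K * ρ k) atTop (𝓝 (K * 0)) := hρ.const_mul K
        rw [mul_zero] at this
        exact (this.eventually (gt_mem_nhds one_pos)).mono fun k hk => hk.le
      have e2 : ∀ᶠ k in atTop, ‖δ k‖ < 2 * r := by
        have := hδ.norm
        rw [norm_zero] at this
        exact this.eventually (gt_mem_nhds (by linarith))
      have e3 : ∀ᶠ k in atTop, ‖t k‖ < r / 2 := by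
        have := ht.norm
        rw [norm_zero] at this
        exact this.eventually (gt_mem_nhds (by linarith))
      filter_upwards [e1, e2, e3, hsmall (e + 1), hts (κ + 1)] with k h1 h2 h3 h4 h5
      have h6 := tail_bound (a := fun n => (n.factorial : ℂ)⁻¹ * (Dt^[n] f) (δ k, 0)) hr hM0 e h3.le (hcf _ h2)
        (fun n hn => by rw [ih n hn _ h2, mul_zero]) (hsum _ h2 (t k) (by linarith))
      have ht0' : 0 < ‖t k‖ := norm_pos_iff.2 (ht0 k)
      have h7 : ‖(e.factorial : ℂ)⁻¹ * (Dt^[e] f) (δ k, 0) * t k ^ e‖ ≤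
          ‖t k‖ ^ (e + 1) + 2 * M * (‖t k‖ / r) ^ (e + 1) := by
        calc ‖(e.factorial : ℂ)⁻¹ * (Dt^[e] f) (δ k, 0) * t k ^ e‖
            = ‖f (δ k, t k) - (f (δ k, t k) - (e.factorial : ℂ)⁻¹ * (Dt^[e] f) (δ k, 0) * t k ^ e)‖ := by
              congr 1; ring
          _ ≤ ‖f (δ k, t k)‖ + ‖f (δ k, t k) - (e.factorial : ℂ)⁻¹ * (Dt^[e] f) (δ k, 0) * t k ^ e‖ := norm_sub_le _ _
          _ ≤ _ := add_le_add h4 h6
      have h8 : (0 : ℝ) < e.factorial := by exact_mod_cast e.factorial_pos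
      rw [norm_mul, norm_mul, norm_inv, Complex.norm_natCast, norm_pow] at h7
      have h9 : ‖(Dt^[e] f) (δ k, 0)‖ ≤ K * ‖t k‖ := by
        have h10 : ‖(Dt^[e] f) (δ k, 0)‖ * ‖t k‖ ^ e ≤ K * ‖t k‖ * ‖t k‖ ^ e := by
          calc ‖(Dt^[e] f) (δ k, 0)‖ * ‖t k‖ ^ e
              = e.factorial * ((e.factorial : ℝ)⁻¹ * ‖(Dt^[e] f) (δ k, 0)‖ * ‖t k‖ ^ e) := by field_simp
            _ ≤ e.factorial * (‖t k‖ ^ (e + 1) + 2 * M * (‖t k‖ / r) ^ (e + 1)) := by gcongr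
            _ = K * ‖t k‖ * ‖t k‖ ^ e := by rw [hK, div_pow]; ring
        exact le_of_mul_le_mul_right h10 (pow_pos ht0' e)
      calc ‖(Dt^[e] f) (δ k, 0)‖ ≤ K * ‖t k‖ := h9
        _ ≤ K * ρ k ^ (κ + 1) := by gcongr
        _ = (K * ρ k) * ρ k ^ κ := by ring
        _ ≤ 1 * ρ k ^ κ := by
          gcongr
          exact pow_nonneg (hρ0 k) κ
        _ = ρ k ^ κ := one_mul _
    have h0 : (0 : E) ∈ ball (0 : E) (2 * r) := mem_ball_self (by linarith)
    have h1 := hZ _ (han 0 h0) hsm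
    have h2 := han.eqOn_zero_of_preconnected_of_eventuallyEq_zero (convex_ball (0 : E) (2 * r)).isPreconnected h0 h1
    intro x hx
    exact h2 (by rwa [mem_ball_zero_iff])
  filter_upwards [ball_mem_nhds (0 : E × ℂ) (show 0 < 2 * r by linarith)] with x hx
  obtain ⟨x, s⟩ := x
  rw [mem_ball_zero_iff, Prod.norm_mk, max_lt_iff] at hx
  have h1 := hsum x hx.1 s hx.2
  have h2 : (fun n : ℕ => ((n.factorial : ℂ)⁻¹ * (Dt^[n] f) (x, 0)) * s ^ n) = fun _ => 0 := by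
    funext n
    rw [key n x hx.1, mul_zero, zero_mul]
  rw [h2] at h1
  exact (h1.unique hasSum_zero)

/-- the scale of the last variable -/
def scl (ρ : ℕ → ℝ) : (m : ℕ) → (ℕ → Fin m → ℂ) → ℕ → ℝ
  | 0, _, k => ρ k
  | m + 1, δ, k => ‖δ k (Fin.last m)‖

theorem Zr_pi {ρ : ℕ → ℝ} (hρ0 : ∀ k, 0 ≤ ρ k) (hρ : Tendsto ρ atTop (𝓝 0)) (m : ℕ) :
    ∀ {δ : ℕ → Fin m → ℂ}, (∀ k i, δ k i ≠ 0) → (∀ i, ∀ κ : ℕ, ∀ᶠ k in atTop, ‖δ k i‖ ≤ ρ k ^ κ) →
      (∀ i j, i < j → ∀ κ : ℕ, ∀ᶠ k in atTop, ‖δ k j‖ ≤ ‖δ k i‖ ^ κ) → Zr δ (scl ρ m δ) := by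
  induction m with
  | zero =>
    intro δ _ _ _ f hf hs
    have h1 : f 0 = 0 := by
      have h2 : ∀ᶠ k in atTop, ‖f 0‖ ≤ ρ k := by
        filter_upwards [hs 1] with k hk
        rw [pow_one] at hk
        have : δ k = 0 := Subsingleton.elim _ _
        rw [this] at hk
        exact hk
      have h3 : ‖f 0‖ ≤ 0 := ge_of_tendsto hρ h2
      exact norm_le_zero_iff.1 h3
    refine Eventually.of_forall fun x => ?_
    rw [Subsingleton.elim x 0, h1]
    rfl
  | succ m ih =>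
    intro δ h0 h1 h2
    have hδi : ∀ i, Tendsto (fun k => δ k i) atTop (𝓝 0) := by
      intro i
      rw [tendsto_zero_iff_norm_tendsto_zero]
      refine squeeze_zero' (Eventually.of_forall fun k => norm_nonneg _) (h1 i 1) ?_
      simpa using hρ
    have hZ := ih (δ := fun k => Fin.init (δ k)) (fun k i => h0 k _) (fun i => h1 _)
      (fun i j hij => h2 _ _ (by exact hij))
    have hst : ∀ κ : ℕ, ∀ᶠ k in atTop, ‖δ k (Fin.last m)‖ ≤ scl ρ m (fun k => Fin.init (δ k)) k ^ κ := by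
      intro κ
      cases m with
      | zero => exact h1 _ κ
      | succ m => exact h2 _ _ (Fin.castSucc_lt_last _) κ
    have hs0 : ∀ k, 0 ≤ scl ρ m (fun k => Fin.init (δ k)) k := by
      intro k
      cases m with
      | zero => exact hρ0 k
      | succ m => exact norm_nonneg _
    have hst0 : Tendsto (scl ρ m (fun k => Fin.init (δ k))) atTop (𝓝 0) := by
      cases m with
      | zero => exact hρ
      | succ m =>
        have := (hδi (Fin.castSucc (Fin.last m))).norm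
        rw [norm_zero] at this
        exact this
    have hδ0 : Tendsto (fun k => Fin.init (δ k)) atTop (𝓝 (0 : Fin m → ℂ)) := by
      rw [tendsto_pi_nhds]
      intro i
      exact hδi _
    have hZ2 := hZ.step hδ0 hs0 hst0 (t := fun k => δ k (Fin.last m)) (fun k => h0 k _) hst
    intro f hf hs
    -- the linear map
    let Λ : ((Fin m → ℂ) × ℂ) →L[ℂ] (Fin (m + 1) → ℂ) := ContinuousLinearMap.pi fun i =>
      Fin.lastCases (motive := fun _ => ((Fin m → ℂ) × ℂ) →L[ℂ] ℂ) (ContinuousLinearMap.snd ℂ _ _)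
        (fun j => (ContinuousLinearMap.proj j).comp (ContinuousLinearMap.fst ℂ _ _)) i
    have hΛ : ∀ x : Fin (m + 1) → ℂ, Λ (Fin.init x, x (Fin.last m)) = x := by
      intro x
      funext i
      refine Fin.lastCases ?_ (fun j => ?_) i
      · simp [Λ]
      · simp [Λ, Fin.init]
    have hfΛ : AnalyticAt ℂ (fun p => f (Λ p)) 0 := by
      refine AnalyticAt.comp (g := f) (f := fun p => Λ p) ?_ (Λ.analyticAt 0)
      rw [map_zero]
      exact hf
    have h5 := hZ2 _ hfΛ (fun κ => by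
      filter_upwards [hs κ] with k hk
      rw [hΛ]
      exact hk)
    have hc : Tendsto (fun x : Fin (m + 1) → ℂ => (Fin.init x, x (Fin.last m))) (𝓝 0) (𝓝 ((0 : Fin m → ℂ), (0 : ℂ))) := by
      refine Tendsto.prodMk_nhds ?_ ?_
      · rw [tendsto_pi_nhds]
        intro i
        exact (continuous_apply (Fin.castSucc i)).tendsto' 0 0 rfl
      · exact (continuous_apply (Fin.last m)).tendsto' 0 0 rfl
    filter_upwards [hc.eventually h5] with x hx
    rw [hΛ] at hx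
    exact hx

/-- **vanishing of analytic functions** -/
theorem eq_zero_of_small {ρ : ℕ → ℝ} (hρ0 : ∀ k, 0 ≤ ρ k) (hρ : Tendsto ρ atTop (𝓝 0)) {m : ℕ}
    {δ : ℕ → Fin m → ℂ} (h0 : ∀ k i, δ k i ≠ 0) (h1 : ∀ i, ∀ κ : ℕ, ∀ᶠ k in atTop, ‖δ k i‖ ≤ ρ k ^ κ)
    (h2 : ∀ i j, i < j → ∀ κ : ℕ, ∀ᶠ k in atTop, ‖δ k j‖ ≤ ‖δ k i‖ ^ κ) {f : (Fin m → ℂ) → ℂ}
    (hf : AnalyticAt ℂ f 0) (hz : ∀ᶠ k in atTop, f (δ k) = 0) : f =ᶠ[𝓝 0] 0 := by
  refine Zr_pi hρ0 hρ m h0 h1 h2 f hf fun κ => ?_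
  filter_upwards [hz] with k hk
  rw [hk, norm_zero]
  refine pow_nonneg ?_ κ
  cases m with
  | zero => exact hρ0 k
  | succ m => exact norm_nonneg _

end Pool.Agent.NH23.An
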