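import Pool.Agent.Y226.ZW.Cj
import Pool.Agent.R870.NY.Mod

/-!
# The diagonal modular polynomial and field automorphisms
-/

set_option autoImplicit false

open UpperHalfPlane ModularForm H294ZP H294ZP.TA2 H294ZP.TF676

noncomputable section

namespace Pool.Agent.NH23.CM

open Pool.Agent.Y226 Pool.Agent.Y226.ZW

/-- the coefficients of `q j` are integers -/
theorem exists_cz : ∃ c : ℕ → ℤ, c 0 = 1 ∧
    ∀ τ : ℍ, HasSum (fun n => (c n : ℂ) * qq 1 τ ^ n) (qq 1 τ * jj τ) := by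
  choose c hc using cj_int
  refine ⟨c, ?_, fun τ => ?_⟩
  · have h := hc 0
    rw [cj_zero] at h
    exact_mod_cast h.symm
  · have h := cj_hasSum τ
    rw [pow_one] at h
    convert h using 2 with n
    rw [ιZ_apply, hc n]

/-- the coefficients of `q j` -/
def cz (n : ℕ) : ℤ := exists_cz.choose n

theorem cz_zero : cz 0 = 1 := exists_cz.choose_spec.1

theorem cz_sum (τ : ℍ) : HasSum (fun n => (cz n : ℂ) * qq 1 τ ^ n) (qq 1 τ * jj τ) :=
  exists_cz.choose_spec.2 τ

/-- the series of `j` at `ζ T ^ e` -/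
def JS (ζ : ℂ) (e : ℕ) : PowerSeries ℂ := PowerSeries.mk fun m => if e ∣ m then (cz (m / e) : ℂ) * ζ ^ (m / e) else 0

theorem R_JS {ζ : ℂ} {e : ℕ} (he : 0 < e) {h : ℍ → ℍ} (hh : ∀ u, qq 1 (h u) = ζ * qq 1 u ^ e) :
    R (JS ζ e) (fun u => ζ * qq 1 u ^ e * jj (h u)) := by
  intro u
  have hinj : Function.Injective (fun n : ℕ => e * n) := by
    intro a b hab
    exact Nat.eq_of_mul_eq_mul_left he hab
  refine (hinj.hasSum_iff (f := fun n => (JS ζ e).coeff n * qq 1 u ^ n) ?_).1 ?_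
  · intro x hx
    have : ¬ e ∣ x := by
      rintro ⟨y, rfl⟩
      exact hx ⟨y, rfl⟩
    simp [JS, this]
  · have h1 := cz_sum (h u)
    rw [hh u] at h1
    convert h1 using 1
    funext n
    simp only [Function.comp_apply, JS, PowerSeries.coeff_mk, dvd_mul_right, if_true, Nat.mul_div_cancel_left n he,
      pow_mul, mul_pow]
    ring

theorem map_JS (σ : ℂ →+* ℂ) (ζ : ℂ) (e : ℕ) : PowerSeries.map σ (JS ζ e) = JS (σ ζ) e := by
  ext n
  simp only [JS, PowerSeries.coeff_map, PowerSeries.coeff_mk]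
  split_ifs
  · rw [map_mul, map_intCast, map_pow]
  · exact map_zero σ

theorem R_C (a : ℂ) : R (PowerSeries.C a) (fun _ => a) := by
  intro u
  have h := hasSum_ite_eq (0 : ℕ) a
  convert h using 1
  funext n
  rw [PowerSeries.coeff_C]
  by_cases hn : n = 0
  · subst hn; simp
  · simp [hn]

theorem R_Xpow (m : ℕ) : R (PowerSeries.X ^ m : PowerSeries ℂ) (fun u => qq 1 u ^ m) := by
  intro u
  have h := hasSum_ite_eq (m : ℕ) (qq 1 u ^ m)
  convert h using 1
  funext n
  rw [PowerSeries.coeff_X_pow]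
  by_cases hn : n = m
  · subst hn; simp
  · simp [hn]

theorem R_congr {P : PowerSeries ℂ} {F G : ℍ → ℂ} (h : R P F) (e : ∀ u, F u = G u) : R P G := by
  intro u
  rw [← e u]
  exact h u

theorem R_pow {P : PowerSeries ℂ} {F : ℍ → ℂ} (h : R P F) (n : ℕ) : R (P ^ n) (fun u => F u ^ n) := by
  induction n with
  | zero => simpa using R_C 1
  | succ n ih =>
    rw [pow_succ]
    exact R_congr (R_mul ih h) fun u => by rw [pow_succ]

theorem R_sum {ι : Type} (s : Finset ι) {P : ι → PowerSeries ℂ} {F : ι → ℍ → ℂ} (h : ∀ i ∈ s, R (P i) (F i)) :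
    R (∑ i ∈ s, P i) (fun u => ∑ i ∈ s, F i u) := by
  classical
  induction s using Finset.induction_on with
  | empty =>
    have := R_C 0
    rw [map_zero] at this
    simpa using this
  | insert i s hi ih =>
    rw [Finset.sum_insert hi]
    refine R_congr (R_add (h i (Finset.mem_insert_self i s)) (ih fun k hk => h k (Finset.mem_insert_of_mem hk)))
      fun u => ?_
    rw [Finset.sum_insert hi]

theorem R_prod {ι : Type} (s : Finset ι) {P : ι → PowerSeries ℂ} {F : ι → ℍ → ℂ} (h : ∀ i ∈ s, R (P i) (F i)) :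
    R (∏ i ∈ s, P i) (fun u => ∏ i ∈ s, F i u) := by
  classical
  induction s using Finset.induction_on with
  | empty => simpa using R_C 1
  | insert i s hi ih =>
    rw [Finset.prod_insert hi]
    refine R_congr (R_mul (h i (Finset.mem_insert_self i s)) (ih fun k hk => h k (Finset.mem_insert_of_mem hk)))
      fun u => ?_
    rw [Finset.prod_insert hi]

/-- the point `N u` -/
def sc (N : ℕ) (hN : 0 < N) (u : ℍ) : ℍ := hk N 1 0 hN one_pos u

theorem sc_coe (N : ℕ) (hN : 0 < N) (u : ℍ) : (sc N hN u : ℂ) = N * u := by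
  have := hk_mul N 1 0 hN one_pos u
  rw [Nat.cast_one, mul_one, Int.cast_zero, add_zero] at this
  exact this

theorem qq_hk {N a d : ℕ} (hN : 0 < N) (ha : 0 < a) (hd : 0 < d) (h : a * d = N) (b : ℤ) (u : ℍ) :
    qq 1 (hk a d b ha hd (sc N hN u)) = Complex.exp (2 * Real.pi * Complex.I * b / d) * qq 1 u ^ (a ^ 2) := by
  have h1 := hk_mul a d b ha hd (sc N hN u)
  rw [sc_coe] at h1
  have hd' : (d : ℂ) ≠ 0 := by exact_mod_cast hd.ne'
  have h2 : (hk a d b ha hd (sc N hN u) : ℂ) = a ^ 2 * u + b / d := by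
    rw [← mul_left_inj' hd', h1, ← h]
    push_cast
    field_simp
  unfold qq
  rw [h2, ← Complex.exp_nat_mul, ← Complex.exp_add]
  congr 1
  push_cast
  field_simp
  ring

variable {ι : Type} [Fintype ι] {N : ℕ} {a d : ι → ℕ} {b : ι → ℤ}

/-- the root of unity -/
def zt (d : ℕ) (b : ℤ) : ℂ := Complex.exp (2 * Real.pi * Complex.I * b / d)

theorem zt_ne (d : ℕ) (b : ℤ) : zt d b ≠ 0 := Complex.exp_ne_zero _

/-- the series of a factor -/
def FS (N a : ℕ) (ζ : ℂ) : PowerSeries ℂ :=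
  PowerSeries.C ζ * PowerSeries.X ^ (a ^ 2) * JS 1 N - PowerSeries.X ^ N * JS ζ (a ^ 2)

theorem map_FS (σ : ℂ →+* ℂ) (N a : ℕ) (ζ : ℂ) : PowerSeries.map σ (FS N a ζ) = FS N a (σ ζ) := by
  rw [FS, FS, map_sub, map_mul, map_mul, map_mul, map_JS, map_JS, map_pow, map_pow, PowerSeries.map_X, map_one,
    PowerSeries.map_C]

theorem R_FS (hN : 0 < N) {a d : ℕ} (ha : 0 < a) (hd : 0 < d) (h : a * d = N) (b : ℤ) :
    R (FS N a (zt d b)) (fun u => zt d b * qq 1 u ^ (N + a ^ 2) *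
      (jj (sc N hN u) - jj (hk a d b ha hd (sc N hN u)))) := by
  have e1 : ∀ u, qq 1 (sc N hN u) = 1 * qq 1 u ^ N := by
    intro u
    unfold qq
    rw [sc_coe, ← Complex.exp_nat_mul, one_mul]
    congr 1
    push_cast
    ring
  have r1 := R_JS hN e1
  have r2 := R_JS (pow_pos ha 2) (qq_hk hN ha hd h b)
  have r3 := R_sub (R_mul (R_mul (R_C (zt d b)) (R_Xpow (a ^ 2))) r1) (R_mul (R_Xpow N) r2)
  refine R_congr r3 fun u => ?_
  simp only [zt]
  ring

/-- the series of a polynomial in `j` -/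
def PS (N : ℕ) (D : ℕ) (P : Polynomial ℂ) : PowerSeries ℂ :=
  ∑ i ∈ Finset.range (D + 1), PowerSeries.C (P.coeff i) * PowerSeries.X ^ (N * (D - i)) * JS 1 N ^ i

theorem map_PS (σ : ℂ →+* ℂ) (N D : ℕ) (P : Polynomial ℂ) :
    PowerSeries.map σ (PS N D P) = PS N D (P.map σ) := by
  rw [PS, PS, map_sum]
  refine Finset.sum_congr rfl fun i _ => ?_
  rw [map_mul, map_mul, map_pow, map_pow, map_JS, map_one, PowerSeries.map_C, PowerSeries.map_X, Polynomial.coeff_map]

theorem R_PS (hN : 0 < N) {D : ℕ} {P : Polynomial ℂ} (hD : P.natDegree ≤ D) :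
    R (PS N D P) (fun u => qq 1 u ^ (N * D) * P.eval (jj (sc N hN u))) := by
  have e1 : ∀ u, qq 1 (sc N hN u) = 1 * qq 1 u ^ N := by
    intro u
    unfold qq
    rw [sc_coe, ← Complex.exp_nat_mul, one_mul]
    congr 1
    push_cast
    ring
  have r1 := R_JS hN e1
  refine R_congr (R_sum _ fun i _ => R_mul (R_mul (R_C (P.coeff i)) (R_Xpow (N * (D - i)))) (R_pow r1 i)) fun u => ?_
  rw [Polynomial.eval_eq_sum_range' (Nat.lt_succ_of_le hD), Finset.mul_sum]
  refine Finset.sum_congr rfl fun i hi => ?_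
  have hi' : i ≤ D := Nat.lt_succ_iff.1 (Finset.mem_range.1 hi)
  have e2 : N * D = N * (D - i) + N * i := by
    rw [← mul_add, Nat.sub_add_cancel hi']
  rw [e2, pow_add, pow_mul (qq 1 u) N i]
  ring

/-- **conjugation** -/
theorem conj_poly (hN : 0 < N) (ha : ∀ k, 0 < a k) (hd : ∀ k, 0 < d k) (h : ∀ k, a k * d k = N)
    {P : Polynomial ℂ} (hP : ∀ w : ℍ, ∏ k, (jj w - jj (hk (a k) (d k) (b k) (ha k) (hd k) w)) = P.eval (jj w))
    {σ : ℂ →+* ℂ} {s : ℤ} (hσ : ∀ k, σ (zt (d k) (b k)) = zt (d k) (s * b k)) (w : ℍ) :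
    ∏ k, (jj w - jj (hk (a k) (d k) (s * b k) (ha k) (hd k) w)) = (P.map σ).eval (jj w) := by
  classical
  set D := P.natDegree with hD
  have key : ∀ (b' : ι → ℤ) (Q : Polynomial ℂ) (hQ : Q.natDegree ≤ D),
      (PowerSeries.X ^ (N * D) * ∏ k, FS N (a k) (zt (d k) (b' k)) =
        (PowerSeries.C (∏ k, zt (d k) (b' k)) * PowerSeries.X ^ (∑ k, (N + a k ^ 2))) * PS N D Q ↔
      ∀ u : ℍ, ∏ k, (jj (sc N hN u) - jj (hk (a k) (d k) (b' k) (ha k) (hd k) (sc N hN u))) =
        Q.eval (jj (sc N hN u))) := by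
    intro b' Q hQ
    have r1 := R_mul (R_Xpow (N * D)) (R_prod Finset.univ fun k _ => R_FS hN (ha k) (hd k) (h k) (b' k))
    have r2 := R_mul (R_mul (R_C (∏ k, zt (d k) (b' k))) (R_Xpow (∑ k, (N + a k ^ 2)))) (R_PS hN hQ)
    have hval : ∀ u : ℍ, qq 1 u ^ (N * D) * ∏ k, (zt (d k) (b' k) * qq 1 u ^ (N + a k ^ 2) *
        (jj (sc N hN u) - jj (hk (a k) (d k) (b' k) (ha k) (hd k) (sc N hN u)))) =
        ((∏ k, zt (d k) (b' k)) * qq 1 u ^ (∑ k, (N + a k ^ 2))) * (qq 1 u ^ (N * D) *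
          ∏ k, (jj (sc N hN u) - jj (hk (a k) (d k) (b' k) (ha k) (hd k) (sc N hN u)))) := by
      intro u
      rw [Finset.prod_mul_distrib, Finset.prod_mul_distrib, Finset.prod_pow_eq_pow_sum]
      ring
    constructor
    · intro he u
      have h1 := r1 u
      rw [he] at h1
      have h2 := h1.unique (r2 u)
      beta_reduce at h2
      rw [hval u] at h2
      have n1 : (∏ k, zt (d k) (b' k)) * qq 1 u ^ (∑ k, (N + a k ^ 2)) ≠ 0 :=
        mul_ne_zero (Finset.prod_ne_zero_iff.2 fun k _ => zt_ne _ _) (pow_ne_zero _ (qq_ne u))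
      exact mul_left_cancel₀ (pow_ne_zero (N * D) (qq_ne u)) (mul_left_cancel₀ n1 h2)
    · intro he
      refine R_uniq r1 (R_congr r2 fun u => ?_)
      rw [← he u]
      exact (hval u).symm
  have h1 := (key b P le_rfl).2 fun u => hP _
  have h2 := congrArg (PowerSeries.map σ) h1
  rw [map_mul, map_mul, map_mul, map_pow, map_pow, map_prod, PowerSeries.map_X, PowerSeries.map_C, map_PS,
    map_prod] at h2
  simp only [map_FS, hσ] at h2
  have h3 := (key (fun k => s * b k) (P.map σ) (Polynomial.natDegree_map_le.trans le_rfl)).1 h2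
    (hk 1 N 0 one_pos hN w)
  have h4 : sc N hN (hk 1 N 0 one_pos hN w) = w := by
    apply UpperHalfPlane.ext
    rw [sc_coe, mul_comm, hk_mul]
    simp
  rw [h4] at h3
  exact h3

end Pool.Agent.NH23.CM
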