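import Pool.Agent.NH23.CMa

/-!
# Growth of `j`, and the values of `j` near the cusp
-/

set_option autoImplicit false

open UpperHalfPlane ModularForm H294ZP H294ZP.TA2 H294ZP.TF676 Filter Topology

noncomputable section

namespace Pool.Agent.NH23.CM

open Pool.Agent.Y226 Pool.Agent.Y226.ZW

theorem norm_qq (u : ℍ) : ‖qq 1 u‖ = Real.exp (-(2 * Real.pi * u.im)) := by
  unfold qq
  rw [Complex.norm_exp]
  congr 1
  have : (2 * (Real.pi : ℂ) * Complex.I * (u : ℂ) / ((1 : ℕ) : ℂ)) = ((2 * Real.pi : ℝ) : ℂ) * (Complex.I * u) := by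
    push_cast; ring
  rw [this, Complex.re_ofReal_mul, Complex.I_mul_re]
  ring_nf
  rfl

/-- the point `i y` -/
def iy (y : ℝ) (hy : 0 < y) : ℍ := ⟨(y : ℂ) * Complex.I, by simpa using hy⟩

theorem iy_im (y : ℝ) (hy : 0 < y) : (iy y hy).im = y := by
  show ((y : ℂ) * Complex.I).im = y
  simp

theorem summ_cz {r : ℝ} (h0 : 0 ≤ r) (h1 : r < 1) : Summable fun n : ℕ => ‖(cz n : ℂ)‖ * r ^ n := by
  set s : ℝ := (1 + r) / 2 with hs
  have s0 : 0 < s := by rw [hs]; linarith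
  have s1 : s < 1 := by rw [hs]; linarith
  have hrs : r ≤ s := by rw [hs]; linarith
  have hy : 0 < -Real.log s / (2 * Real.pi) := div_pos (neg_pos.2 (Real.log_neg s0 s1)) (by positivity)
  have h2 := (cz_sum (iy _ hy)).summable.norm
  have h3 : ‖qq 1 (iy _ hy)‖ = s := by
    rw [norm_qq, iy_im]
    have hpi : (Real.pi : ℝ) ≠ 0 := Real.pi_ne_zero
    rw [show -(2 * Real.pi * (-Real.log s / (2 * Real.pi))) = Real.log s by field_simp, Real.exp_log s0]
  refine Summable.of_nonneg_of_le (fun n => by positivity) (fun n => ?_) h2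
  rw [norm_mul, norm_pow, h3]
  gcongr

/-- the sum of the series -/
def Jf (q : ℂ) : ℂ := ∑' n, (cz n : ℂ) * q ^ n

theorem Jf_qq (u : ℍ) : Jf (qq 1 u) = qq 1 u * jj u := (cz_sum u).tsum_eq

theorem exists_M : ∃ M : ℝ, 1 ≤ M ∧ ∀ u : ℍ, 1 / 2 ≤ u.im → ‖jj u‖ ≤ M * Real.exp (2 * Real.pi * u.im) := by
  set r : ℝ := Real.exp (-Real.pi) with hr
  have r1 : r < 1 := by rw [hr, Real.exp_lt_one_iff]; linarith [Real.pi_pos]
  have hS := summ_cz (Real.exp_pos _).le r1
  refine ⟨max 1 (∑' n, ‖(cz n : ℂ)‖ * r ^ n), le_max_left _ _, fun u hu => ?_⟩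
  have h1 : ‖qq 1 u‖ ≤ r := by
    rw [norm_qq, hr]
    apply Real.exp_le_exp.2
    nlinarith [Real.pi_pos]
  have h2 : ‖qq 1 u * jj u‖ ≤ ∑' n, ‖(cz n : ℂ)‖ * r ^ n := by
    rw [← Jf_qq]
    refine tsum_of_norm_bounded hS.hasSum fun n => ?_
    rw [norm_mul, norm_pow]
    gcongr
  rw [norm_mul, norm_qq, Real.exp_neg] at h2
  have h3 := Real.exp_pos (2 * Real.pi * u.im)
  rw [inv_mul_le_iff₀ h3] at h2
  calc ‖jj u‖ ≤ _ := h2
    _ ≤ _ := by
      rw [mul_comm]
      gcongr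
      exact le_max_right _ _

/-- **growth of `j`** -/
theorem jj_growth : ∃ M : ℝ, 1 ≤ M ∧ ∀ (u : ℍ) (y : ℝ), u.im ≤ y → 1 / u.im ≤ y →
    ‖jj u‖ ≤ M * Real.exp (2 * Real.pi * y) := by
  obtain ⟨M, hM, h⟩ := exists_M
  refine ⟨M, hM, fun u y h1 h2 => ?_⟩
  obtain ⟨g, hg⟩ := ModularGroup.exists_smul_mem_fd u
  have e1 : jj (g • u) = jj u := by
    refine Pool.Agent.R870.NY.hTA.1 (g 0 0) (g 0 1) (g 1 0) (g 1 1) ?_ u (g • u) ?_
    · have := g.2
      rw [Matrix.det_fin_two] at this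
      exact this
    · have h3 := UpperHalfPlane.specialLinearGroup_apply (R := ℤ) g u
      rw [h3]
      have h4 := UpperHalfPlane.denom_ne_zero (g : GL (Fin 2) ℝ) u
      have h5 : UpperHalfPlane.denom (g : GL (Fin 2) ℝ) u = ((g 1 0 : ℤ) : ℂ) * u + ((g 1 1 : ℤ) : ℂ) := by
        simp [UpperHalfPlane.denom]
      rw [h5] at h4
      simp only [algebraMap_int_eq, eq_intCast]
      exact div_mul_cancel₀ _ h4
  have h6 : 1 / 2 ≤ (g • u).im := by
    have h7 := ModularGroup.three_le_four_mul_im_sq_of_mem_fd hg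
    have h8 := (g • u).im_pos
    by_contra hcon
    push Not at hcon
    nlinarith
  have h9 : (g • u).im ≤ y := by
    have h10 := ModularGroup.im_smul_eq_div_normSq g u
    rw [h10, div_le_iff₀ (by exact UpperHalfPlane.normSq_denom_pos _ u.im_ne_zero)]
    have h5 : UpperHalfPlane.denom (g : GL (Fin 2) ℝ) u = ((g 1 0 : ℤ) : ℂ) * u + ((g 1 1 : ℤ) : ℂ) := by
      simp [UpperHalfPlane.denom]
    rw [h5]
    have hy : 0 < y := lt_of_lt_of_le u.im_pos h1
    by_cases hc : g 1 0 = 0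
    · have hd : (g 1 1) ^ 2 = 1 := by
        have h11 := g.2
        rw [Matrix.det_fin_two] at h11
        have h12 : g 0 0 * g 1 1 = 1 := by
          have h13 : g 0 0 * g 1 1 - g 0 1 * g 1 0 = 1 := h11
          rw [hc, mul_zero, sub_zero] at h13
          exact h13
        rcases Int.mul_eq_one_iff_eq_one_or_neg_one.1 h12 with ⟨_, h⟩ | ⟨_, h⟩ <;> rw [h] <;> norm_num
      have h14 : Complex.normSq (((g 1 0 : ℤ) : ℂ) * u + ((g 1 1 : ℤ) : ℂ)) = 1 := by
        rw [hc, Int.cast_zero, zero_mul, zero_add, ← Complex.ofReal_intCast, Complex.normSq_ofReal]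
        have : ((g 1 1 : ℤ) : ℝ) ^ 2 = 1 := by exact_mod_cast hd
        nlinarith
      rw [h14, mul_one]
      exact h1
    · have h15 : 1 ≤ ((g 1 0 : ℤ) : ℝ) ^ 2 := by
        have : 1 ≤ (g 1 0) ^ 2 := by
          have := pow_pos (abs_pos.2 hc) 2
          rw [sq_abs] at this
          exact this
        exact_mod_cast this
      have h16 : u.im ^ 2 ≤ Complex.normSq (((g 1 0 : ℤ) : ℂ) * u + ((g 1 1 : ℤ) : ℂ)) := by
        rw [Complex.normSq_apply]
        have h17 : ((((g 1 0 : ℤ) : ℂ) * u + ((g 1 1 : ℤ) : ℂ))).im = (g 1 0 : ℤ) * u.im := by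
          simp
        rw [h17]
        nlinarith [mul_self_nonneg ((((g 1 0 : ℤ) : ℂ) * u + ((g 1 1 : ℤ) : ℂ))).re, sq_nonneg u.im]
      have h18 := u.im_pos
      rw [div_le_iff₀ h18] at h2
      calc u.im = u.im * 1 := (mul_one _).symm
        _ ≤ u.im * (y * u.im) := by gcongr
        _ = y * u.im ^ 2 := by ring
        _ ≤ _ := by gcongr
  rw [← e1]
  refine (h _ h6).trans ?_
  gcongr

/-! ### the values near the cusp -/

theorem Jf_analytic : AnalyticAt ℂ Jf 0 := by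
  set p : FormalMultilinearSeries ℂ ℂ ℂ := .ofScalars ℂ (fun n => (cz n : ℂ)) with hp
  have h1 : (((1 / 2 : NNReal) : NNReal) : ENNReal) ≤ p.radius := by
    apply p.le_radius_of_summable_norm
    refine (summ_cz (r := 1 / 2) (by norm_num) (by norm_num)).congr fun n => ?_
    rw [hp, FormalMultilinearSeries.ofScalars_norm]
    simp
  have h2 : 0 < p.radius := lt_of_lt_of_le (by
    rw [ENNReal.coe_pos]
    norm_num) h1
  have h3 := (p.hasFPowerSeriesOnBall h2).analyticAt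
  convert h3 using 1
  funext q
  rw [Jf, FormalMultilinearSeries.sum]
  congr 1
  funext n
  rw [hp, FormalMultilinearSeries.ofScalars_apply_eq]
  simp

theorem Jf_zero : Jf 0 = 1 := by
  rw [Jf, tsum_eq_single 0]
  · simp [cz_zero]
  · intro n hn
    simp [hn]

/-- every number of a fixed large absolute value is a value of `j` at a point of a fixed compact set -/
theorem jj_surj : ∃ R y₁ y₂ : ℝ, 1 ≤ R ∧ 0 < y₁ ∧ ∀ x : ℂ, ‖x‖ = R → ∃ w : ℍ, y₁ ≤ w.im ∧ w.im ≤ y₂ ∧ jj w = x := by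
  have hd : HasStrictDerivAt (fun q : ℂ => q / Jf q) 1 0 := by
    have h1 : HasStrictDerivAt Jf (deriv Jf 0) 0 := by
      have := Jf_analytic.hasStrictDerivAt
      exact this
    have h2 := (hasStrictDerivAt_id (0 : ℂ)).fun_div h1 (by rw [Jf_zero]; exact one_ne_zero)
    have e : (1 * Jf 0 - id 0 * deriv Jf 0) / Jf 0 ^ 2 = 1 := by simp [Jf_zero]
    rw [e] at h2
    exact h2
  have hmap := hd.map_nhds_eq one_ne_zero
  have hV : {q : ℂ | ‖q‖ < 1 / 2 ∧ 1 / 2 < ‖Jf q‖} ∈ 𝓝 (0 : ℂ) := by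
    have c1 : Tendsto (fun q : ℂ => ‖q‖) (𝓝 0) (𝓝 0) := by
      have := (continuous_norm (E := ℂ)).tendsto 0
      rwa [norm_zero] at this
    have c2 : Tendsto (fun q : ℂ => ‖Jf q‖) (𝓝 0) (𝓝 1) := by
      have := Jf_analytic.continuousAt.norm
      have h : Tendsto (fun q : ℂ => ‖Jf q‖) (𝓝 0) (𝓝 ‖Jf 0‖) := this
      rwa [Jf_zero, norm_one] at h
    filter_upwards [c1.eventually (gt_mem_nhds (show (0 : ℝ) < 1 / 2 by norm_num)),
      c2.eventually (lt_mem_nhds (show (1 : ℝ) / 2 < 1 by norm_num))] with q h1 h2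
    exact ⟨h1, h2⟩
  have h3 : (fun q : ℂ => q / Jf q) '' {q : ℂ | ‖q‖ < 1 / 2 ∧ 1 / 2 < ‖Jf q‖} ∈ 𝓝 (0 : ℂ) := by
    have := image_mem_map (m := fun q : ℂ => q / Jf q) hV
    rw [hmap] at this
    simpa using this
  obtain ⟨ε, hε, hball⟩ := Metric.mem_nhds_iff.1 h3
  set R : ℝ := max 1 (2 / ε) with hR
  have hR1 : 1 ≤ R := le_max_left _ _
  have hR0 : 0 < R := by linarith
  refine ⟨R, Real.log 2 / (2 * Real.pi), Real.log (2 * R) / (2 * Real.pi), hR1, by positivity, fun x hx => ?_⟩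
  have hx0 : x ≠ 0 := by
    rintro rfl
    rw [norm_zero] at hx
    linarith
  have h4 : x⁻¹ ∈ Metric.ball (0 : ℂ) ε := by
    rw [mem_ball_zero_iff, norm_inv, hx]
    have h5 : 2 / ε ≤ R := le_max_right _ _
    rw [inv_lt_comm₀ hR0 hε]
    refine lt_of_lt_of_le ?_ h5
    rw [inv_eq_one_div]
    gcongr
    norm_num
  obtain ⟨q, ⟨hq1, hq2⟩, hq3⟩ := hball h4
  have hJ : Jf q ≠ 0 := by
    intro h
    rw [h, norm_zero] at hq2
    norm_num at hq2
  have hq3' : q / Jf q = x⁻¹ := hq3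
  have hq0 : q ≠ 0 := by
    rintro rfl
    rw [zero_div] at hq3'
    exact inv_ne_zero hx0 hq3'.symm
  have hqx : q * x = Jf q := by
    rw [div_eq_iff hJ] at hq3'
    calc q * x = x⁻¹ * Jf q * x := by rw [← hq3']
      _ = Jf q := by field_simp
  have hn0 : 0 < ‖q‖ := norm_pos_iff.2 hq0
  set z : ℂ := Complex.log q / (2 * Real.pi * Complex.I) with hz
  have hzim : z.im = -Real.log ‖q‖ / (2 * Real.pi) := by
    rw [hz, show Complex.log q / (2 * Real.pi * Complex.I) =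
      ((1 / (2 * Real.pi) : ℝ) : ℂ) * (-Complex.I * Complex.log q) by
        push_cast
        rw [div_mul_eq_div_div, Complex.div_I]
        ring, Complex.im_ofReal_mul]
    have : (-Complex.I * Complex.log q).im = -(Complex.log q).re := by simp
    rw [this, Complex.log_re]
    ring
  have hpos : 0 < z.im := by
    rw [hzim]
    refine div_pos (neg_pos.2 (Real.log_neg hn0 (by linarith))) (by positivity)
  have hqq : qq 1 ⟨z, hpos⟩ = q := by
    unfold qq
    have : (2 * (Real.pi : ℂ) * Complex.I * ((⟨z, hpos⟩ : ℍ) : ℂ) / ((1 : ℕ) : ℂ)) = Complex.log q := by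
      show (2 * (Real.pi : ℂ) * Complex.I * z / ((1 : ℕ) : ℂ)) = Complex.log q
      rw [hz]
      have := Complex.two_pi_I_ne_zero
      push_cast
      field_simp
    rw [this, Complex.exp_log hq0]
  refine ⟨⟨z, hpos⟩, ?_, ?_, ?_⟩
  · show _ ≤ z.im
    rw [hzim]
    gcongr
    rw [← Real.log_inv]
    apply Real.log_le_log (by norm_num)
    rw [le_inv_comm₀ (by norm_num) hn0]
    linarith
  · show z.im ≤ _
    rw [hzim]
    gcongr
    rw [← Real.log_inv]
    apply Real.log_le_log (inv_pos.2 hn0)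
    rw [inv_le_comm₀ hn0 (by positivity)]
    have h5 : ‖q‖ * R = ‖Jf q‖ := by rw [← hqx, norm_mul, hx]
    rw [inv_le_iff_one_le_mul₀ (by positivity)]
    nlinarith
  · have h6 := Jf_qq ⟨z, hpos⟩
    rw [hqq, ← hqx] at h6
    exact (mul_left_cancel₀ hq0 h6).symm

/-! ### a bound for the roots of a polynomial -/

theorem lead_le {Q : Polynomial ℂ} {R C : ℝ} (hR : 0 < R) (h : ∀ x : ℂ, ‖x‖ = R → ‖Q.eval x‖ ≤ C) :
    ‖Q.leadingCoeff‖ * R ^ Q.natDegree ≤ C := by
  have h1 := Complex.norm_iteratedDeriv_le_of_forall_mem_sphere_norm_le Q.natDegree hR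
    (f := fun x => Q.eval x) (c := 0) (C := C) (Q.differentiable.diffContOnCl) (fun z hz => h z (by simpa using hz))
  have h2 : iteratedDeriv Q.natDegree (fun x : ℂ => Q.eval x) 0 = (Q.natDegree.factorial : ℂ) * Q.leadingCoeff := by
    have h3 : ∀ (n : ℕ) (P : Polynomial ℂ), iteratedDeriv n (fun x : ℂ => P.eval x) =
        fun x => ((Polynomial.derivative^[n]) P).eval x := by
      intro n
      induction n with
      | zero => intro P; rfl
      | succ n ih =>
        intro P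
        rw [iteratedDeriv_succ']
        have h4 : deriv (fun x : ℂ => P.eval x) = fun x => P.derivative.eval x := by
          funext x
          exact P.deriv
        rw [h4, ih]
        rfl
    rw [h3]
    beta_reduce
    rw [← Polynomial.coeff_zero_eq_eval_zero, Polynomial.coeff_iterate_derivative, zero_add,
      Nat.descFactorial_self, nsmul_eq_mul]
    rfl
  rw [h2, norm_mul, Complex.norm_natCast, le_div_iff₀ (pow_pos hR _)] at h1
  have h5 : (0 : ℝ) < (Q.natDegree.factorial : ℝ) := by exact_mod_cast Nat.factorial_pos _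
  rw [mul_assoc] at h1
  exact le_of_mul_le_mul_left h1 h5

theorem root_le {Q : Polynomial ℂ} {R C : ℝ} (hR : 1 ≤ R) (h : ∀ x : ℂ, ‖x‖ = R → ‖Q.eval x‖ ≤ C)
    (hl : ‖Q.leadingCoeff‖ = 1) {x₀ : ℂ} (hx₀ : Q.eval x₀ = 0) : ‖x₀‖ ≤ R + C := by
  by_contra hcon
  push Not at hcon
  have hC : 0 ≤ C := (norm_nonneg _).trans (h (R : ℂ) (by rw [Complex.norm_real, Real.norm_of_nonneg (by linarith)]))
  obtain ⟨Q₁, hQ₁⟩ := Polynomial.dvd_iff_isRoot.2 (show Q.IsRoot x₀ from hx₀)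
  have h0 : 0 < ‖x₀‖ - R := by linarith
  have h1 : ∀ x : ℂ, ‖x‖ = R → ‖Q₁.eval x‖ ≤ C / (‖x₀‖ - R) := by
    intro x hx
    rw [le_div_iff₀ h0]
    have h2 := h x hx
    rw [hQ₁, Polynomial.eval_mul, norm_mul] at h2
    refine le_trans ?_ h2
    rw [mul_comm]
    gcongr
    have h3 := norm_sub_norm_le x₀ x
    rw [hx] at h3
    rw [Polynomial.eval_sub, Polynomial.eval_X, Polynomial.eval_C, norm_sub_rev]
    exact h3
  have h2 := lead_le (by linarith) h1
  have h3 : Q₁.leadingCoeff = Q.leadingCoeff := by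
    rw [hQ₁, Polynomial.leadingCoeff_mul, Polynomial.leadingCoeff_X_sub_C, one_mul]
  rw [h3, hl, one_mul] at h2
  have h4 : 1 ≤ C / (‖x₀‖ - R) := (one_le_pow₀ hR).trans h2
  rw [le_div_iff₀ h0, one_mul] at h4
  linarith

end Pool.Agent.NH23.CM
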