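import Pool.Agent.NH23.CMb
import Pool.Agent.H610R3.ZPTE
import Pool.Agent.H977R3.CM.Aut

/-!
# Degree and conjugates of singular moduli
-/

set_option autoImplicit false

open UpperHalfPlane ModularForm H294ZP H294ZP.TA2 H294ZP.TF676 Filter Topology Polynomial

noncomputable section

namespace Pool.Agent.NH23.CM

open H294ZP.H610 Pool.Agent.R870.NY

theorem rou_int {n : ℕ} (hn : 0 < n) {u : ℂ} (h : u ^ n = 1) : IsIntegral ℤ u :=
  IsIntegral.of_pow hn (by rw [h]; exact isIntegral_one)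

theorem factor' {N : ℕ} (hN : 0 < N) {n : ℕ} (hn : n ≠ N) {B : ℂ} {f g : ℍ → ℂ}
    (hf : Lau N N 1 f) (hB : B ^ (2 * N) = 1) (hg : Lau N n B g) :
    ∃ (m : ℕ) (u : ℂ), m ≤ max N n ∧ u ^ (2 * N) = 1 ∧ Lau N m u (fun τ => f τ - g τ) := by
  rcases lt_or_gt_of_ne hn with h | h
  · refine ⟨N, 1, le_max_left _ _, one_pow _, ?_⟩
    have h1 := tc.2.1 N n (N - n) B g hN (by omega) hg
    rw [Nat.add_sub_cancel' h.le] at h1
    have := lau_sub tc hN hf h1
    simpa using this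
  · refine ⟨n, -B, le_max_right _ _, ?_, ?_⟩
    · rw [Even.neg_pow (even_two_mul N), hB]
    · have h1 := tc.2.1 N N (n - N) 1 f hN (by omega) hf
      rw [Nat.add_sub_cancel' (le_of_lt h)] at h1
      have := lau_sub tc hN h1 hg
      simpa using this

theorem lau_prod' {N : ℕ} (hN : 0 < N) {ι : Type} [DecidableEq ι] (s : Finset ι)
    (f : ι → ℍ → ℂ) (m : ι → ℕ) (u : ι → ℂ) (hf : ∀ i, Lau N (m i) (u i) (f i)) :
    Lau N (∑ i ∈ s, m i) (∏ i ∈ s, u i) (fun τ => ∏ i ∈ s, f i τ) := by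
  induction s using Finset.induction_on with
  | empty =>
    simp only [Finset.prod_empty, Finset.sum_empty]
    exact tc.1 N 1 hN isIntegral_one
  | insert a s ha ih =>
    simp only [Finset.prod_insert ha, Finset.sum_insert ha]
    exact tc.2.2.2.1 N _ _ _ _ _ _ hN (hf a) ih

/-- the diagonal modular polynomial -/
theorem diag {N : ℕ} (hN : 0 < N) (hns : ∀ s : ℕ, s ^ 2 ≠ N) : ∃ (ι : Type) (_ : Fintype ι) (a d : ι → ℕ) (b : ι → ℤ)
    (ha : ∀ k, 0 < a k) (hd : ∀ k, 0 < d k) (_ : ∀ k, a k * d k = N) (P : ℂ[X]),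
    Fintype.card ι ≤ N ^ 2 ∧ P.natDegree ≤ N ^ 3 ∧ P.leadingCoeff ^ (2 * N) = 1 ∧ (∀ n, IsIntegral ℤ (P.coeff n)) ∧
    (∀ w : ℍ, ∏ k, (jj w - jj (hk (a k) (d k) (b k) (ha k) (hd k) w)) = P.eval (jj w)) ∧
    (∀ p q r s : ℤ, p * s - q * r = N → ∀ τ : ℍ, (τ : ℂ) * (r * τ + s) = p * τ + q → P.eval (jj τ) = 0) := by
  classical
  obtain ⟨ι, _, _, a, d, b, h, hcard, had, hh, hperm, hall⟩ := tfc N hN
  have hhk : ∀ k w, h k w = hk (a k) (d k) (b k) (had k).1 (had k).2.1 w := by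
    intro k w
    apply UpperHalfPlane.ext
    have h1 := hh k w
    have h2 := hk_mul (a k) (d k) (b k) (had k).1 (had k).2.1 w
    have h3 : (d k : ℂ) ≠ 0 := by exact_mod_cast (had k).2.1.ne'
    exact mul_right_cancel₀ h3 (h1.trans h2.symm)
  have hjN : Lau N N 1 jj := by
    have := lau_reindex hN hTA.2.2
    rwa [mul_one] at this
  have hfac : ∀ k : ι, ∃ (m : ℕ) (u : ℂ), m ≤ N ^ 2 ∧ u ^ (2 * N) = 1 ∧ Lau N m u (fun w => jj w - jj (h k w)) := by
    intro k
    obtain ⟨h1, h2, h3⟩ := had k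
    have h4 := (tc.2.2.2.2 hTA.2.1 hTA.2.2 (a k) (d k) (b k) h1 h2 (h k) (hh k)).1
    rw [h3] at h4
    obtain ⟨m, u, hm, hu, hl⟩ := factor' hN (n := a k ^ 2) (hns _) hjN (by
      rw [← h3, ← Complex.exp_nat_mul]
      have hd' : (d k : ℂ) ≠ 0 := by exact_mod_cast h2.ne'
      have : ((2 * (a k * d k) : ℕ) : ℂ) * -(2 * Real.pi * Complex.I * (b k) / (d k)) =
          ((-(2 * a k * b k) : ℤ) : ℂ) * (2 * Real.pi * Complex.I) := by
        push_cast
        field_simp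
      rw [this, Complex.exp_int_mul_two_pi_mul_I]) h4
    refine ⟨m, u, hm.trans (max_le ?_ ?_), hu, hl⟩
    · exact Nat.le_self_pow two_ne_zero N
    · refine Nat.pow_le_pow_left ?_ 2
      rw [← h3]
      exact Nat.le_mul_of_pos_right _ h2
  choose m u hmN hu hm using hfac
  set D : ℍ → ℂ := fun w => ∏ k, (jj w - jj (h k w)) with hD
  have hDinv : Inv D := by
    intro p q r s hdet' w w' hw
    obtain ⟨σ, hσ⟩ := hperm p q r s hdet' w w' hw
    simp only [hD]
    rw [← Equiv.prod_comp σ (fun k => jj w - jj (h k w))]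
    apply Finset.prod_congr rfl
    intro k _
    rw [hσ k, hTA.1 p q r s hdet' w w' hw]
  have hDhol : Hol D := by
    apply hol_prod
    intro k
    obtain ⟨h1, h2, h3⟩ := had k
    exact hol_sub hTA.2.1 (tc.2.2.2.2 hTA.2.1 hTA.2.2 (a k) (d k) (b k) h1 h2 (h k) (hh k)).2
  have hL := lau_prod' hN Finset.univ (fun k w => jj w - jj (h k w)) m u hm
  obtain ⟨P, hPi, hPe, hdvd, hdeg, hlead⟩ := hTB N hN _ _ D hDinv hDhol hL
  have hU1 : (∏ k, u k) ^ (2 * N) = 1 := by
    rw [← Finset.prod_pow]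
    exact Finset.prod_eq_one fun k _ => hu k
  have hU0 : (∏ k, u k) ≠ 0 := by
    intro h0
    rw [h0, zero_pow (by omega)] at hU1
    exact zero_ne_one hU1
  have hlead' := hlead (hdvd hU0)
  have hnat : P.natDegree = (∑ k, m k) / N := by
    apply le_antisymm hdeg
    apply Polynomial.le_natDegree_of_ne_zero
    rw [hlead']; exact hU0
  refine ⟨ι, inferInstance, a, d, b, fun k => (had k).1, fun k => (had k).2.1, fun k => (had k).2.2, P, hcard, ?_, ?_,
    hPi, ?_, ?_⟩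
  · rw [hnat]
    have h1 : ∑ k, m k ≤ N ^ 3 * N := by
      calc ∑ k, m k ≤ ∑ _k : ι, N ^ 2 := Finset.sum_le_sum fun k _ => hmN k
        _ = Fintype.card ι * N ^ 2 := by rw [Finset.sum_const, Finset.card_univ, smul_eq_mul]
        _ ≤ N ^ 2 * N ^ 2 := Nat.mul_le_mul_right _ hcard
        _ = N ^ 3 * N := by ring
    calc (∑ k, m k) / N ≤ N ^ 3 * N / N := Nat.div_le_div_right h1
      _ = N ^ 3 := Nat.mul_div_cancel _ hN
  · rw [Polynomial.leadingCoeff, hnat, hlead', hU1]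
  · intro w
    rw [← hPe w]
    exact Finset.prod_congr rfl fun k _ => by rw [hhk]
  · intro p q r s hdet τ hτ
    rw [← hPe τ]
    obtain ⟨k, hk⟩ := hall p q r s hdet τ τ hτ
    simp only [hD]
    apply Finset.prod_eq_zero (Finset.mem_univ k)
    rw [← hk, sub_self]

/-- the exponent of an automorphism -/
theorem exists_s {N : ℕ} (hN : 0 < N) (σ : ℂ →+* ℂ) : ∃ s : ℕ, s < N ∧ ∀ (a d : ℕ) (b : ℤ), 0 < d → a * d = N →
    σ (zt d b) = zt d (s * b) := by
  have hN' : (N : ℂ) ≠ 0 := by exact_mod_cast hN.ne'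
  have hζ := Complex.isPrimitiveRoot_exp N hN.ne'
  set ζ := Complex.exp (2 * Real.pi * Complex.I / N) with hζd
  have h1 : σ ζ ^ N = 1 := by rw [← map_pow, hζ.pow_eq_one, map_one]
  have _ : NeZero N := ⟨hN.ne'⟩
  obtain ⟨s, hs, hs'⟩ := hζ.eq_pow_of_pow_eq_one h1
  refine ⟨s, hs, fun a d b hd had => ?_⟩
  have hd' : (d : ℂ) ≠ 0 := by exact_mod_cast hd.ne'
  have key : ∀ c : ℤ, zt d c = ζ ^ ((a : ℤ) * c) := by
    intro c
    rw [zt, hζd, ← Complex.exp_int_mul]
    congr 1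
    have : (N : ℂ) = a * d := by rw [← had]; push_cast; rfl
    have ha' : (a : ℂ) ≠ 0 := by
      intro h0
      rw [h0, zero_mul] at this
      exact hN' this
    rw [this]
    push_cast
    field_simp
  rw [key, key, map_zpow₀, ← hs', ← zpow_natCast, ← zpow_mul]
  congr 1
  ring

theorem jj_infinite : (Set.range jj).Infinite := by
  obtain ⟨R, y₁, y₂, hR, hy, h⟩ := jj_surj
  have h1 : (Metric.sphere (0 : ℂ) R).Infinite := by
    refine Set.infinite_of_injective_forall_mem (f := fun n : ℕ => (R : ℂ) * Complex.exp ((n : ℝ) * Complex.I)) ?_ ?_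
    · intro m n hmn
      have hR' : (R : ℂ) ≠ 0 := by exact_mod_cast (by linarith : R ≠ 0)
      have h2 := mul_left_cancel₀ hR' hmn
      rw [Complex.exp_eq_exp_iff_exists_int] at h2
      obtain ⟨k, hk⟩ := h2
      have h3 : ((m : ℝ) : ℂ) = (n : ℝ) + k * (2 * Real.pi) := by
        have := Complex.I_ne_zero
        apply mul_right_cancel₀ this
        rw [hk]
        ring
      have h4 : (m : ℝ) = n + k * (2 * Real.pi) := by exact_mod_cast h3
      by_cases hk0 : k = 0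
      · rw [hk0] at h4
        push_cast at h4
        rw [zero_mul, add_zero] at h4
        exact_mod_cast h4
      · exfalso
        have h5 : Irrational Real.pi := irrational_pi
        apply h5
        refine ⟨((m : ℚ) - n) / (2 * k), ?_⟩
        have hk' : (k : ℝ) ≠ 0 := by exact_mod_cast hk0
        push_cast
        rw [div_eq_iff (by positivity)]
        linarith
    · intro n
      rw [mem_sphere_zero_iff_norm, norm_mul, Complex.norm_exp_ofReal_mul_I, mul_one, Complex.norm_real,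
        Real.norm_of_nonneg (by linarith)]
  refine h1.mono ?_
  intro x hx
  obtain ⟨w, -, -, hw⟩ := h x (by simpa using hx)
  exact ⟨w, hw⟩

theorem poly_unique {P Q : ℂ[X]} (h : ∀ w : ℍ, P.eval (jj w) = Q.eval (jj w)) : P = Q := by
  have h1 : P - Q = 0 := by
    apply Polynomial.eq_zero_of_infinite_isRoot
    refine jj_infinite.mono ?_
    rintro _ ⟨w, rfl⟩
    show (P - Q).eval (jj w) = 0
    rw [Polynomial.eval_sub, h w, sub_self]
  exact sub_eq_zero.1 h1

theorem exists_conj_aut {z w : ℂ} (hz : IsAlgebraic ℚ z) (hw : aeval w (minpoly ℚ z) = 0) :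
    ∃ σ : ℂ ≃+* ℂ, σ z = w := by
  set p : ℚ[X] := minpoly ℚ z with hp
  have hp0 : p ≠ 0 := minpoly.ne_zero hz.isIntegral
  have hspl : (p.map (algebraMap ℚ ℂ)).Splits := IsAlgClosed.splits _
  have hsf : p.IsSplittingField ℚ (IntermediateField.adjoin ℚ (p.rootSet ℂ)) :=
    IntermediateField.adjoin_rootSet_isSplittingField hspl
  let L := IntermediateField.adjoin ℚ (p.rootSet ℂ)
  have _ : Normal ℚ L := Normal.of_isSplittingField p
  have hzL : z ∈ L := by
    apply IntermediateField.subset_adjoin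
    rw [Polynomial.mem_rootSet]
    exact ⟨hp0, minpoly.aeval ℚ z⟩
  have hwL : w ∈ L := by
    apply IntermediateField.subset_adjoin
    rw [Polynomial.mem_rootSet]
    exact ⟨hp0, hw⟩
  have hmp : minpoly ℚ (⟨z, hzL⟩ : L) = minpoly ℚ z :=
    (minpoly.algebraMap_eq (B := L) (B' := ℂ) (FaithfulSMul.algebraMap_injective L ℂ)
      ⟨z, hzL⟩).symm
  obtain ⟨g, hg⟩ := minpoly.exists_algEquiv_of_root (K := ℚ) (L := L) (x := ⟨w, hwL⟩)
    (y := ⟨z, hzL⟩) (Normal.isIntegral inferInstance _).isAlgebraic (by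
      rw [hmp]
      apply Subtype.ext
      change L.val (aeval (⟨w, hwL⟩ : L) (minpoly ℚ z)) = 0
      rw [← Polynomial.aeval_algHom_apply]
      exact hw)
  obtain ⟨σ, hσ⟩ := Pool.Agent.H977R3.CM.exists_aut (L.val : L →+* ℂ) (g.symm : L ≃+* L)
  refine ⟨σ, ?_⟩
  have h1 := hσ ⟨z, hzL⟩
  have h2 : g.symm ⟨z, hzL⟩ = ⟨w, hwL⟩ := by rw [← hg, AlgEquiv.symm_apply_apply]
  change σ z = ((g.symm ⟨z, hzL⟩ : L) : ℂ) at h1
  rw [h1, h2]

/-- **degree and conjugates of numbers `j τ`, `τ` fixed by an integral matrix of non-square determinant `N`** -/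
theorem conj_bound : ∃ c : ℝ, 0 < c ∧ ∀ (N : ℕ), 0 < N → (∀ s : ℕ, s ^ 2 ≠ N) → ∀ (p q r s : ℤ), p * s - q * r = N →
    ∀ τ : ℍ, (τ : ℂ) * (r * τ + s) = p * τ + q → IsIntegral ℤ (jj τ) →
    (minpoly ℚ (jj τ)).natDegree ≤ N ^ 4 ∧
      ∀ x : ℂ, aeval x (minpoly ℚ (jj τ)) = 0 → ‖x‖ ≤ Real.exp (c * N ^ 3) := by
  classical
  obtain ⟨R, y₁, y₂, hR, hy1, hsurj⟩ := jj_surj
  obtain ⟨M, hM, hgr⟩ := jj_growth
  have hy2 : y₁ ≤ y₂ := by
    obtain ⟨w, h1, h2, -⟩ := hsurj (R : ℂ) (by rw [Complex.norm_real, Real.norm_of_nonneg (by linarith)])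
    exact h1.trans h2
  set Y : ℝ := y₂ + 1 / y₁ with hY
  have hY0 : 0 < Y := by
    have := hy1.trans_le hy2
    rw [hY]
    positivity
  refine ⟨R + M + 2 * Real.pi * Y + 1, by positivity, ?_⟩
  intro N hN hns p q r s hdet τ hτ hint
  obtain ⟨ι, _, a, d, b, ha, hd, had, P, hcard, hdeg, hlead, -, hP, hz⟩ := diag hN hns
  have hN1 : (1 : ℝ) ≤ N := by exact_mod_cast hN
  have hP0 : P.leadingCoeff ≠ 0 := by
    intro h0
    rw [h0, zero_pow (by omega)] at hlead
    exact zero_ne_one hlead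
  have hPτ := hz p q r s hdet τ hτ
  have halg : IsAlgebraic ℚ (jj τ) := (hint.tower_top (A := ℚ)).isAlgebraic
  -- every conjugate
  have hconj : ∀ x : ℂ, aeval x (minpoly ℚ (jj τ)) = 0 → ∃ s' : ℕ, s' < N ∧ ∃ Q : ℂ[X], Q ≠ 0 ∧ Q.natDegree ≤ N ^ 3 ∧
      ‖Q.leadingCoeff‖ = 1 ∧ (∀ w : ℍ, ∏ k, (jj w - jj (hk (a k) (d k) (s' * b k) (ha k) (hd k) w)) = Q.eval (jj w)) ∧
      Q.eval x = 0 := by
    intro x hx
    obtain ⟨σ, hσ⟩ := exists_conj_aut halg hx
    obtain ⟨s', hs', hs2⟩ := exists_s hN (σ : ℂ →+* ℂ)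
    refine ⟨s', hs', P.map (σ : ℂ →+* ℂ), ?_, ?_, ?_, ?_, ?_⟩
    · intro h0
      apply hP0
      rw [Polynomial.map_eq_zero] at h0
      rw [h0, Polynomial.leadingCoeff_zero]
    · exact Polynomial.natDegree_map_le.trans hdeg
    · rw [Polynomial.leadingCoeff_map]
      have h1 : ((σ : ℂ →+* ℂ) P.leadingCoeff) ^ (2 * N) = 1 := by rw [← map_pow, hlead, map_one]
      exact Complex.norm_eq_one_of_pow_eq_one h1 (by omega)
    · intro w
      have := conj_poly hN ha hd had hP (σ := (σ : ℂ →+* ℂ)) (s := (s' : ℤ))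
        (fun k => hs2 (a k) (d k) (b k) (hd k) (had k)) w
      exact this
    · rw [← hσ]
      have : (P.map (σ : ℂ →+* ℂ)).eval ((σ : ℂ →+* ℂ) (jj τ)) = (σ : ℂ →+* ℂ) (P.eval (jj τ)) :=
        Polynomial.eval_map_apply _ _
      rw [hPτ, map_zero] at this
      exact this
  refine ⟨?_, ?_⟩
  · set T : ℕ → Finset ℂ := fun s' => if h : ∃ Q : ℂ[X], Q ≠ 0 ∧ Q.natDegree ≤ N ^ 3 ∧
      (∀ w : ℍ, ∏ k, (jj w - jj (hk (a k) (d k) (s' * b k) (ha k) (hd k) w)) = Q.eval (jj w)) then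
        h.choose.roots.toFinset else ∅ with hT
    have hTc : ∀ s', (T s').card ≤ N ^ 3 := by
      intro s'
      simp only [hT]
      split_ifs with h
      · exact (Multiset.toFinset_card_le _).trans ((Polynomial.card_roots' _).trans h.choose_spec.2.1)
      · simp
    have hsub : ((minpoly ℚ (jj τ)).rootSet ℂ) ⊆ ((Finset.range N).biUnion T : Finset ℂ) := by
      intro x hx
      rw [Polynomial.mem_rootSet] at hx
      obtain ⟨s', hs', Q, hQ0, hQd, -, hQe, hQx⟩ := hconj x hx.2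
      rw [Finset.mem_coe, Finset.mem_biUnion]
      refine ⟨s', Finset.mem_range.2 hs', ?_⟩
      have hex : ∃ Q : ℂ[X], Q ≠ 0 ∧ Q.natDegree ≤ N ^ 3 ∧
        (∀ w : ℍ, ∏ k, (jj w - jj (hk (a k) (d k) (s' * b k) (ha k) (hd k) w)) = Q.eval (jj w)) := ⟨Q, hQ0, hQd, hQe⟩
      simp only [hT]
      rw [dif_pos hex]
      have heq : hex.choose = Q := poly_unique fun w => by rw [← hex.choose_spec.2.2 w, hQe w]
      rw [heq, Multiset.mem_toFinset, Polynomial.mem_roots hQ0]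
      exact hQx
    have h1 : Fintype.card ((minpoly ℚ (jj τ)).rootSet ℂ) = (minpoly ℚ (jj τ)).natDegree :=
      Polynomial.card_rootSet_eq_natDegree (minpoly.irreducible halg.isIntegral).separable
        (IsAlgClosed.splits _)
    rw [← h1, ← Nat.card_eq_fintype_card]
    calc Nat.card ((minpoly ℚ (jj τ)).rootSet ℂ) ≤ Nat.card (((Finset.range N).biUnion T : Finset ℂ) : Set ℂ) :=
          Nat.card_mono (Finset.finite_toSet _) hsub
      _ = ((Finset.range N).biUnion T).card := by rw [Nat.card_coe_set_eq, Set.ncard_coe_finset]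
      _ ≤ (Finset.range N).card * N ^ 3 := Finset.card_biUnion_le_card_mul _ _ _ fun s' _ => hTc s'
      _ = N ^ 4 := by rw [Finset.card_range]; ring
  · intro x hx
    obtain ⟨s', hs', Q, hQ0, hQd, hQl, hQe, hQx⟩ := hconj x hx
    have hB : ∀ z : ℂ, ‖z‖ = R → ‖Q.eval z‖ ≤ ((R + M) * Real.exp (2 * Real.pi * (N * Y))) ^ (N ^ 2) := by
      intro z hz'
      obtain ⟨w, hw1, hw2, hw3⟩ := hsurj z hz'
      rw [← hw3, ← hQe w, norm_prod]
      have hbase : 1 ≤ (R + M) * Real.exp (2 * Real.pi * (N * Y)) := by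
        have : 1 ≤ Real.exp (2 * Real.pi * (N * Y)) := Real.one_le_exp (by positivity)
        nlinarith
      have hfac : ∀ k, ‖jj w - jj (hk (a k) (d k) (s' * b k) (ha k) (hd k) w)‖ ≤
          (R + M) * Real.exp (2 * Real.pi * (N * Y)) := by
        intro k
        have ha' : (1 : ℝ) ≤ a k := by exact_mod_cast ha k
        have hd' : (1 : ℝ) ≤ d k := by exact_mod_cast hd k
        have hadr : (a k : ℝ) * d k = N := by exact_mod_cast had k
        have him : (hk (a k) (d k) (s' * b k) (ha k) (hd k) w).im = a k * w.im / d k := by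
          have h1 := hk_mul (a k) (d k) (s' * b k) (ha k) (hd k) w
          have h2 := congrArg Complex.im h1
          rw [mul_comm, ← Complex.ofReal_natCast, Complex.im_ofReal_mul, Complex.add_im, ← Complex.ofReal_natCast,
            Complex.im_ofReal_mul, Complex.intCast_im, add_zero] at h2
          rw [eq_div_iff (by positivity), mul_comm]
          exact h2
        have hwpos := w.im_pos
        have g1 : (hk (a k) (d k) (s' * b k) (ha k) (hd k) w).im ≤ N * Y := by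
          rw [him, div_le_iff₀ (by positivity)]
          have : (a k : ℝ) ≤ N := by rw [← hadr]; nlinarith
          have h5 : w.im ≤ Y := by
            rw [hY]
            have : 0 < 1 / y₁ := by positivity
            linarith
          calc (a k : ℝ) * w.im ≤ N * Y := by gcongr
            _ = N * Y * 1 := (mul_one _).symm
            _ ≤ N * Y * d k := by gcongr
        have g2 : 1 / (hk (a k) (d k) (s' * b k) (ha k) (hd k) w).im ≤ N * Y := by
          rw [him, one_div_div, div_le_iff₀ (by positivity)]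
          have h6 : (d k : ℝ) ≤ N := by rw [← hadr]; nlinarith
          have h7 : 1 ≤ Y * w.im := by
            have h8 : 1 / y₁ ≤ Y := by
              rw [hY]
              linarith
            calc (1 : ℝ) = 1 / y₁ * y₁ := by field_simp
              _ ≤ Y * w.im := by gcongr
          calc (d k : ℝ) ≤ N * 1 * 1 := by linarith
            _ ≤ N * (Y * w.im) * a k := by gcongr
            _ = N * Y * (a k * w.im) := by ring
        have g3 := hgr _ _ g1 g2
        calc ‖jj w - jj (hk (a k) (d k) (s' * b k) (ha k) (hd k) w)‖ ≤ ‖jj w‖ + _ := norm_sub_le _ _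
          _ ≤ R + M * Real.exp (2 * Real.pi * (N * Y)) := by
            rw [hw3, hz']
            gcongr
          _ ≤ (R + M) * Real.exp (2 * Real.pi * (N * Y)) := by
            have : 1 ≤ Real.exp (2 * Real.pi * (N * Y)) := Real.one_le_exp (by positivity)
            nlinarith
      calc ∏ k, ‖jj w - jj (hk (a k) (d k) (s' * b k) (ha k) (hd k) w)‖
          ≤ ∏ _k : ι, ((R + M) * Real.exp (2 * Real.pi * (N * Y))) :=
            Finset.prod_le_prod (fun k _ => norm_nonneg _) fun k _ => hfac k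
        _ = ((R + M) * Real.exp (2 * Real.pi * (N * Y))) ^ Fintype.card ι := by
            rw [Finset.prod_const, Finset.card_univ]
        _ ≤ _ := pow_le_pow_right₀ hbase hcard
    have h1 := root_le hR hB hQl hQx
    have h2 : ((R + M) * Real.exp (2 * Real.pi * (N * Y))) ^ (N ^ 2) ≤
        Real.exp ((R + M + 2 * Real.pi * Y) * N ^ 3) := by
      have h3 : (R + M) * Real.exp (2 * Real.pi * (N * Y)) ≤ Real.exp ((R + M + 2 * Real.pi * Y) * N) := by
        have h4 : R + M ≤ Real.exp ((R + M) * N) := by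
          calc R + M ≤ R + M + 1 := by linarith
            _ ≤ Real.exp (R + M) := Real.add_one_le_exp _
            _ ≤ Real.exp ((R + M) * N) := Real.exp_le_exp.2 (by nlinarith)
        calc (R + M) * Real.exp (2 * Real.pi * (N * Y)) ≤ Real.exp ((R + M) * N) * Real.exp (2 * Real.pi * (N * Y)) := by
              gcongr
          _ = Real.exp ((R + M + 2 * Real.pi * Y) * N) := by rw [← Real.exp_add]; congr 1; ring
      calc ((R + M) * Real.exp (2 * Real.pi * (N * Y))) ^ (N ^ 2) ≤ Real.exp ((R + M + 2 * Real.pi * Y) * N) ^ (N ^ 2) := by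
            gcongr
        _ = Real.exp ((R + M + 2 * Real.pi * Y) * N ^ 3) := by
            rw [← Real.exp_nat_mul]
            congr 1
            push_cast
            ring
    have h5 : R ≤ Real.exp ((R + M + 2 * Real.pi * Y) * N ^ 3) := by
      have hN3 : (1 : ℝ) ≤ (N : ℝ) ^ 3 := one_le_pow₀ hN1
      have : 0 ≤ 2 * Real.pi * Y := by positivity
      calc R ≤ R + M + 2 * Real.pi * Y + 1 := by linarith
        _ ≤ Real.exp (R + M + 2 * Real.pi * Y) := Real.add_one_le_exp _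
        _ ≤ _ := Real.exp_le_exp.2 (by nlinarith)
    calc ‖x‖ ≤ R + ((R + M) * Real.exp (2 * Real.pi * (N * Y))) ^ (N ^ 2) := h1
      _ ≤ 2 * Real.exp ((R + M + 2 * Real.pi * Y) * N ^ 3) := by linarith
      _ ≤ Real.exp 1 * Real.exp ((R + M + 2 * Real.pi * Y) * N ^ 3) := by
        gcongr
        have := Real.add_one_le_exp (1 : ℝ)
        linarith
      _ = Real.exp (1 + (R + M + 2 * Real.pi * Y) * N ^ 3) := by rw [Real.exp_add]
      _ ≤ _ := by
        apply Real.exp_le_exp.2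
        have hN3 : (1 : ℝ) ≤ (N : ℝ) ^ 3 := one_le_pow₀ hN1
        nlinarith

/-- the matrix attached to a quadratic equation, with a bound for the determinant -/
theorem nonsq' (a b c : ℤ) (hK : 0 < 4 * a * c - b ^ 2) {H : ℕ} (hH : 2 ≤ H) (ha : |a| ≤ H) (hb : |b| ≤ H) (hc : |c| ≤ H) :
    ∃ (t : ℤ) (N : ℕ), 0 < N ∧ t * (t + b) - (-c) * a = N ∧ (∀ s : ℕ, s ^ 2 ≠ N) ∧ N ≤ H ^ 9 := by
  set K := 4 * a * c - b ^ 2 with hKdef
  set t : ℤ := K + |b| with ht
  have hb1 : -|b| ≤ b := neg_abs_le b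
  have hb2 : b ≤ |b| := le_abs_self b
  have hb0 : 0 ≤ |b| := abs_nonneg b
  have h2 : 0 < 2 * t + b := by rw [ht]; linarith
  have h3 : K < 2 * (2 * t + b) + 1 := by rw [ht]; linarith
  have h4 : 4 * (t * (t + b) - (-c) * a) = (2 * t + b) ^ 2 + K := by rw [hKdef]; ring
  have hpos : 0 < t * (t + b) - (-c) * a := by
    have : 0 < (2 * t + b) ^ 2 := by positivity
    linarith
  obtain ⟨N, hN⟩ := Int.eq_ofNat_of_zero_le hpos.le
  refine ⟨t, N, ?_, hN, ?_, ?_⟩
  · rw [hN] at hpos; exact_mod_cast hpos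
  · intro s hs
    have h5 : ((s : ℤ)) ^ 2 = t * (t + b) - (-c) * a := by rw [hN, ← hs]; push_cast; ring
    have h6 : (2 * (s : ℤ)) ^ 2 = (2 * t + b) ^ 2 + K := by rw [← h4, ← h5]; ring
    have h7 : 2 * t + b < 2 * (s : ℤ) := by
      by_contra hcon
      push Not at hcon
      have : (2 * (s : ℤ)) ^ 2 ≤ (2 * t + b) ^ 2 := by
        apply pow_le_pow_left₀ (by positivity) hcon
      linarith
    have h8 : 2 * t + b + 1 ≤ 2 * (s : ℤ) := h7
    have h9 : (2 * t + b + 1) ^ 2 ≤ (2 * (s : ℤ)) ^ 2 := by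
      apply pow_le_pow_left₀ (by linarith) h8
    nlinarith
  · have hH' : (2 : ℤ) ≤ H := by exact_mod_cast hH
    have hac : a * c ≤ (H : ℤ) ^ 2 := by
      calc a * c ≤ |a * c| := le_abs_self _
        _ = |a| * |c| := abs_mul _ _
        _ ≤ H * H := by gcongr
        _ = (H : ℤ) ^ 2 := by ring
    have hH2 : (H : ℤ) ≤ H ^ 2 := by nlinarith
    have e1 : K ≤ 4 * (H : ℤ) ^ 2 := by rw [hKdef]; nlinarith [sq_nonneg b]
    have e2 : t ≤ 5 * (H : ℤ) ^ 2 := by rw [ht]; linarith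
    have e3 : t + b ≤ 6 * (H : ℤ) ^ 2 := by linarith
    have e4 : 0 < t := by rw [ht]; linarith
    have e5 : 0 ≤ t + b := by rw [ht]; linarith
    have e6 : t * (t + b) ≤ 5 * (H : ℤ) ^ 2 * (6 * (H : ℤ) ^ 2) := by
      apply mul_le_mul e2 e3 e5 (by positivity)
    have e7 : (N : ℤ) ≤ (H : ℤ) ^ 9 := by
      calc (N : ℤ) = t * (t + b) - (-c) * a := hN.symm
        _ ≤ 5 * (H : ℤ) ^ 2 * (6 * (H : ℤ) ^ 2) + (H : ℤ) ^ 2 := by nlinarith
        _ ≤ 32 * (H : ℤ) ^ 4 := by nlinarith [sq_nonneg ((H : ℤ) ^ 2 - 1)]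
        _ = 2 ^ 5 * (H : ℤ) ^ 4 := by norm_num
        _ ≤ (H : ℤ) ^ 5 * (H : ℤ) ^ 4 := by gcongr
        _ = (H : ℤ) ^ 9 := by ring
    exact_mod_cast e7

/-- **singular moduli: degree and conjugates** -/
theorem cm_main : ∃ C : ℕ, ∀ H : ℕ, 2 ≤ H → ∀ (τ : ℍ) (a b c : ℤ), a ≠ 0 → |a| ≤ H → |b| ≤ H → |c| ≤ H →
    (a : ℂ) * (τ : ℂ) ^ 2 + b * τ + c = 0 → IsIntegral ℤ (jj τ) ∧ (minpoly ℚ (jj τ)).natDegree ≤ H ^ C ∧
      ∀ x : ℂ, aeval x (minpoly ℚ (jj τ)) = 0 → ‖x‖ ≤ Real.exp ((H : ℝ) ^ C) := by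
  obtain ⟨c₀, hc₀, hcb⟩ := conj_bound
  obtain ⟨k, hk⟩ := pow_unbounded_of_one_lt c₀ (one_lt_two)
  refine ⟨36 + k, fun H hH τ a b c ha hHa hHb hHc h => ?_⟩
  have hK := disc_pos τ a b c ha h
  obtain ⟨t, N, hN, hdet, hns, hNH⟩ := nonsq' a b c hK hH hHa hHb hHc
  have hint : IsIntegral ℤ (jj τ) := singular_modulus_integral τ ⟨a, b, c, ha, h⟩
  obtain ⟨h1, h2⟩ := hcb N hN hns t (-c) a (t + b) hdet τ (by
    push_cast
    linear_combination h) hint
  have hH1 : 1 ≤ H := by omega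
  refine ⟨hint, ?_, fun x hx => (h2 x hx).trans ?_⟩
  · calc (minpoly ℚ (jj τ)).natDegree ≤ N ^ 4 := h1
      _ ≤ (H ^ 9) ^ 4 := Nat.pow_le_pow_left hNH 4
      _ = H ^ 36 := by rw [← pow_mul]
      _ ≤ H ^ (36 + k) := Nat.pow_le_pow_right hH1 (by omega)
  · apply Real.exp_le_exp.2
    have hH' : (2 : ℝ) ≤ H := by exact_mod_cast hH
    have hN' : (N : ℝ) ≤ (H : ℝ) ^ 9 := by exact_mod_cast hNH
    calc c₀ * (N : ℝ) ^ 3 ≤ 2 ^ k * ((H : ℝ) ^ 9) ^ 3 := by gcongr
      _ ≤ (H : ℝ) ^ k * ((H : ℝ) ^ 9) ^ 3 := by gcongr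
      _ = (H : ℝ) ^ (27 + k) := by rw [← pow_mul, pow_add]; ring
      _ ≤ (H : ℝ) ^ (36 + k) := pow_le_pow_right₀ (by linarith) (by omega)

end Pool.Agent.NH23.CM
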