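import Pool.Agent.NH23.CMc

/-!
# A lower bound for polynomials in rational numbers and algebraic integers
-/

set_option autoImplicit false

open Filter Topology Polynomial

noncomputable section

namespace Pool.Agent.NH23.CM

theorem liou_val {θ : ℂ} (hint : IsIntegral ℤ θ) (hne : θ ≠ 0) {G : ℝ} (hG1 : 1 ≤ G)
    (hG : ∀ σ : ℂ ≃+* ℂ, ‖σ θ‖ ≤ G) {D : ℕ} (hD : (minpoly ℚ θ).natDegree ≤ D) : 1 ≤ ‖θ‖ * G ^ D := by
  classical
  set p := minpoly ℤ θ with hp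
  have hpq : minpoly ℚ θ = p.map (algebraMap ℤ ℚ) := minpoly.isIntegrallyClosed_eq_field_fractions' ℚ hint
  have hmon : p.Monic := minpoly.monic hint
  have hdeg : (minpoly ℚ θ).natDegree = p.natDegree := by rw [hpq, hmon.natDegree_map]
  set P := p.map (algebraMap ℤ ℂ) with hP
  have hPm : P.Monic := hmon.map _
  have hspl : P.Splits := IsAlgClosed.splits _
  have hP0 : P ≠ 0 := hPm.ne_zero
  have hPQ : P = (minpoly ℚ θ).map (algebraMap ℚ ℂ) := by
    rw [hpq, Polynomial.map_map, hP]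
    congr 1
  have h0 := hspl.coeff_zero_eq_prod_roots_of_monic hPm
  have h1 : 1 ≤ ‖P.coeff 0‖ := by
    rw [hP, Polynomial.coeff_map]
    have h2 : p.coeff 0 ≠ 0 := by
      have h3 : (minpoly ℚ θ).coeff 0 ≠ 0 := minpoly.coeff_zero_ne_zero (hint.tower_top (A := ℚ)) hne
      intro h4
      rw [hpq, Polynomial.coeff_map, h4, map_zero] at h3
      exact h3 rfl
    simp only [algebraMap_int_eq, eq_intCast, Complex.norm_intCast]
    exact_mod_cast Int.one_le_abs h2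
  have hθ : θ ∈ P.roots := by
    rw [Polynomial.mem_roots hP0, Polynomial.IsRoot, hPQ, Polynomial.eval_map_algebraMap]
    exact minpoly.aeval ℚ θ
  have hroot : ∀ x ∈ P.roots, ‖x‖ ≤ G := by
    intro x hx
    rw [Polynomial.mem_roots hP0, Polynomial.IsRoot, hPQ, Polynomial.eval_map_algebraMap] at hx
    obtain ⟨σ, hσ⟩ := exists_conj_aut (hint.tower_top (A := ℚ)).isAlgebraic hx
    rw [← hσ]
    exact hG σ
  obtain ⟨S, hS⟩ := Multiset.exists_cons_of_mem hθ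
  have h3 : ‖P.roots.prod‖ ≤ ‖θ‖ * G ^ D := by
    rw [hS, Multiset.prod_cons, norm_mul]
    gcongr
    have h4 : ∀ T : Multiset ℂ, (∀ x ∈ T, ‖x‖ ≤ G) → ‖T.prod‖ ≤ G ^ (Multiset.card T) := by
      intro T
      induction T using Multiset.induction_on with
      | empty => intro _; simp
      | cons a T ih =>
        intro h
        rw [Multiset.prod_cons, norm_mul, Multiset.card_cons, pow_succ, mul_comm (G ^ _)]
        exact mul_le_mul (h a (Multiset.mem_cons_self a T)) (ih fun x hx => h x (Multiset.mem_cons_of_mem hx))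
          (norm_nonneg _) (by linarith)
    refine (h4 S fun x hx => hroot x (by rw [hS]; exact Multiset.mem_cons_of_mem hx)).trans ?_
    apply pow_le_pow_right₀ hG1
    have h5 : Multiset.card P.roots ≤ P.natDegree := Polynomial.card_roots' P
    rw [hS, Multiset.card_cons, hmon.natDegree_map, ← hdeg] at h5
    omega
  rw [h0, norm_mul, norm_pow, norm_neg, norm_one, one_pow, one_mul] at h1
  exact h1.trans h3

/-- the degree of a rational expression in algebraic numbers -/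
theorem deg_le {n : ℕ} {y : Fin n → ℂ} (hy : ∀ j, IsAlgebraic ℚ (y j)) {D : ℕ} (hD : ∀ j, (minpoly ℚ (y j)).natDegree ≤ D)
    {f : (Fin n → ℂ) → ℂ} (hf : ∀ σ : ℂ ≃+* ℂ, σ (f y) = f (fun j => σ (y j))) (hfa : IsAlgebraic ℚ (f y)) :
    (minpoly ℚ (f y)).natDegree ≤ D ^ n := by
  classical
  have h1 : Fintype.card ((minpoly ℚ (f y)).rootSet ℂ) = (minpoly ℚ (f y)).natDegree :=
    Polynomial.card_rootSet_eq_natDegree (minpoly.irreducible hfa.isIntegral).separable (IsAlgClosed.splits _)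
  set T : Fin n → Finset ℂ := fun j => ((minpoly ℚ (y j)).rootSet ℂ).toFinset with hT
  have hTc : ∀ j, (T j).card ≤ D := by
    intro j
    rw [hT]
    have h2 : Fintype.card ((minpoly ℚ (y j)).rootSet ℂ) = (minpoly ℚ (y j)).natDegree :=
      Polynomial.card_rootSet_eq_natDegree (minpoly.irreducible (hy j).isIntegral).separable (IsAlgClosed.splits _)
    rw [Set.toFinset_card, h2]
    exact hD j
  have hsub : ((minpoly ℚ (f y)).rootSet ℂ) ⊆ ((Fintype.piFinset T).image f : Finset ℂ) := by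
    intro x hx
    rw [Polynomial.mem_rootSet] at hx
    obtain ⟨σ, hσ⟩ := exists_conj_aut hfa hx.2
    rw [Finset.mem_coe, Finset.mem_image]
    refine ⟨fun j => σ (y j), ?_, by rw [← hσ, hf]⟩
    rw [Fintype.mem_piFinset]
    intro j
    rw [hT]
    simp only [Set.mem_toFinset]
    rw [Polynomial.mem_rootSet]
    refine ⟨minpoly.ne_zero (hy j).isIntegral, ?_⟩
    have h3 := Polynomial.aeval_algHom_apply ((σ : ℂ →+* ℂ).toRatAlgHom) (y j) (minpoly ℚ (y j))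
    rw [minpoly.aeval, map_zero] at h3
    exact h3
  rw [← h1, ← Nat.card_eq_fintype_card]
  calc Nat.card ((minpoly ℚ (f y)).rootSet ℂ) ≤ Nat.card (((Fintype.piFinset T).image f : Finset ℂ) : Set ℂ) :=
        Nat.card_mono (Finset.finite_toSet _) hsub
    _ = ((Fintype.piFinset T).image f).card := by rw [Nat.card_coe_set_eq, Set.ncard_coe_finset]
    _ ≤ (Fintype.piFinset T).card := Finset.card_image_le
    _ = ∏ j, (T j).card := Fintype.card_piFinset _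
    _ ≤ ∏ _j : Fin n, D := Finset.prod_le_prod' fun j _ => hTc j
    _ = D ^ n := by rw [Finset.prod_const, Finset.card_univ, Fintype.card_fin]

variable {m n : ℕ}

/-- the value -/
def vl (F : MvPolynomial (Fin m ⊕ Fin n) ℤ) (q : ℕ) (p : Fin m → ℤ) (y : Fin n → ℂ) : ℂ :=
  MvPolynomial.aeval (Sum.elim (fun i => (p i : ℂ) / q) y) F

/-- the number of terms, weighted -/
def LL (F : MvPolynomial (Fin m ⊕ Fin n) ℤ) : ℝ := ∑ e ∈ F.support, |((F.coeff e : ℤ) : ℝ)|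

theorem vl_eq (F : MvPolynomial (Fin m ⊕ Fin n) ℤ) {q : ℕ} (hq : 0 < q) (p : Fin m → ℤ) (y : Fin n → ℂ) :
    (q : ℂ) ^ F.totalDegree * vl F q p y = ∑ e ∈ F.support, ((F.coeff e : ℤ) : ℂ) *
      ((q : ℂ) ^ (F.totalDegree - ∑ i, e (Sum.inl i)) * ∏ i, (p i : ℂ) ^ e (Sum.inl i)) * ∏ j, y j ^ e (Sum.inr j) := by
  have hq' : (q : ℂ) ≠ 0 := by exact_mod_cast hq.ne'
  rw [vl, MvPolynomial.aeval_def, MvPolynomial.eval₂_eq', Finset.mul_sum]
  refine Finset.sum_congr rfl fun e he => ?_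
  have h1 : ∑ i, e (Sum.inl i) ≤ F.totalDegree := by
    have h2 := MvPolynomial.le_totalDegree he
    refine le_trans ?_ h2
    rw [Finsupp.sum_fintype _ _ (fun _ => rfl), Fintype.sum_sum_type]
    exact Nat.le_add_right _ _
  rw [Fintype.prod_sum_type]
  simp only [Sum.elim_inl, Sum.elim_inr, div_pow, Finset.prod_div_distrib, Finset.prod_pow_eq_pow_sum]
  have h3 : (q : ℂ) ^ F.totalDegree = (q : ℂ) ^ (F.totalDegree - ∑ i, e (Sum.inl i)) * (q : ℂ) ^ (∑ i, e (Sum.inl i)) := by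
    rw [← pow_add, Nat.sub_add_cancel h1]
  rw [h3]
  simp only [algebraMap_int_eq, eq_intCast]
  have h4 : (q : ℂ) ^ (∑ i, e (Sum.inl i)) ≠ 0 := pow_ne_zero _ hq'
  field_simp

theorem vl_int (F : MvPolynomial (Fin m ⊕ Fin n) ℤ) {q : ℕ} (hq : 0 < q) (p : Fin m → ℤ) {y : Fin n → ℂ}
    (hy : ∀ j, IsIntegral ℤ (y j)) : IsIntegral ℤ ((q : ℂ) ^ F.totalDegree * vl F q p y) := by
  rw [vl_eq F hq]
  have hz : ∀ z : ℤ, IsIntegral ℤ (z : ℂ) := fun z => by
    have := isIntegral_algebraMap (R := ℤ) (A := ℂ) (x := z)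
    simpa using this
  have hn : ∀ z : ℕ, IsIntegral ℤ (z : ℂ) := fun z => by
    have := hz z
    simpa using this
  refine IsIntegral.sum _ fun e _ => ?_
  refine ((hz _).mul (((hn q).pow _).mul ?_)).mul ?_
  · exact IsIntegral.prod _ fun i _ => (hz _).pow _
  · exact IsIntegral.prod _ fun j _ => (hy j).pow _

theorem vl_map (F : MvPolynomial (Fin m ⊕ Fin n) ℤ) (q : ℕ) (p : Fin m → ℤ) (y : Fin n → ℂ) (σ : ℂ ≃+* ℂ) :
    σ (vl F q p y) = vl F q p (fun j => σ (y j)) := by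
  rw [vl, vl, MvPolynomial.aeval_def, MvPolynomial.aeval_def]
  have h1 := MvPolynomial.map_eval₂Hom (algebraMap ℤ ℂ) (Sum.elim (fun i => (p i : ℂ) / q) y) (σ : ℂ →+* ℂ) F
  simp only [MvPolynomial.coe_eval₂Hom] at h1
  have h2 : (σ : ℂ →+* ℂ).comp (algebraMap ℤ ℂ) = algebraMap ℤ ℂ := RingHom.ext_int _ _
  rw [h2] at h1
  refine h1.trans ?_
  congr 1
  funext k
  rcases k with i | j
  · simp
  · simp

theorem vl_norm (F : MvPolynomial (Fin m ⊕ Fin n) ℤ) {q : ℕ} (p : Fin m → ℤ) (y : Fin n → ℂ)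
    {B : ℝ} (hB : 1 ≤ B) (hp : ∀ i, |(p i : ℝ) / q| ≤ B) (hy : ∀ j, ‖y j‖ ≤ B) :
    ‖vl F q p y‖ ≤ LL F * B ^ F.totalDegree := by
  rw [vl, MvPolynomial.aeval_def, MvPolynomial.eval₂_eq']
  refine (norm_sum_le _ _).trans ?_
  rw [LL, Finset.sum_mul]
  refine Finset.sum_le_sum fun e he => ?_
  have hb : ∀ k : Fin m ⊕ Fin n, ‖Sum.elim (fun i => (p i : ℂ) / q) y k‖ ≤ B := by
    rintro (i | j)
    · have := hp i
      rw [Sum.elim_inl, show (p i : ℂ) / q = (((p i : ℝ) / q : ℝ) : ℂ) by push_cast; rfl, Complex.norm_real]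
      exact this
    · exact hy j
  rw [norm_mul, norm_prod]
  have h1 : ‖(algebraMap ℤ ℂ) (MvPolynomial.coeff e F)‖ = |((F.coeff e : ℤ) : ℝ)| := by
    simp [Complex.norm_intCast]
  rw [h1]
  gcongr
  calc ∏ k, ‖Sum.elim (fun i => (p i : ℂ) / q) y k ^ e k‖ ≤ ∏ k, B ^ e k := by
        refine Finset.prod_le_prod (fun k _ => norm_nonneg _) fun k _ => ?_
        rw [norm_pow]
        exact pow_le_pow_left₀ (norm_nonneg _) (hb k) _
    _ = B ^ (∑ k, e k) := Finset.prod_pow_eq_pow_sum _ _ _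
    _ ≤ B ^ F.totalDegree := by
      apply pow_le_pow_right₀ hB
      have h2 := MvPolynomial.le_totalDegree he
      rwa [Finsupp.sum_fintype _ _ (fun _ => rfl)] at h2

/-- **the lower bound** -/
theorem liou_main (F : MvPolynomial (Fin m ⊕ Fin n) ℤ) (A : ℝ) (c : ℕ) : ∃ C : ℕ, ∀ q : ℕ, 2 ≤ q → ∀ p : Fin m → ℤ,
    (∀ i, |(p i : ℝ) / q| ≤ A) → ∀ y : Fin n → ℂ, (∀ j, IsIntegral ℤ (y j)) →
    (∀ j, (minpoly ℚ (y j)).natDegree ≤ q ^ c) →
    (∀ j, ∀ x : ℂ, aeval x (minpoly ℚ (y j)) = 0 → ‖x‖ ≤ Real.exp ((q : ℝ) ^ c)) → vl F q p y ≠ 0 →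
    Real.exp (-(q : ℝ) ^ C) ≤ ‖vl F q p y‖ := by
  set d := F.totalDegree with hd
  obtain ⟨k₁, hk₁⟩ := pow_unbounded_of_one_lt (LL F + d + d * |A| + 1 + d) (one_lt_two)
  refine ⟨k₁ + c + c * n + 3, fun q hq p hp y hyi hyd hyc hne => ?_⟩
  have hq' : (2 : ℝ) ≤ q := by exact_mod_cast hq
  have hq1 : (1 : ℝ) ≤ q := by linarith
  have hq0 : (0 : ℝ) < q := by linarith
  have hLL : 0 ≤ LL F := Finset.sum_nonneg fun e _ => abs_nonneg _
  have hd0 : (0 : ℝ) ≤ d := Nat.cast_nonneg _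
  -- the bound for the conjugates
  set B : ℝ := Real.exp ((q : ℝ) ^ c + |A|) with hB
  have hB1 : 1 ≤ B := Real.one_le_exp (by positivity)
  set θ := (q : ℂ) ^ d * vl F q p y with hθ
  have hqC : (q : ℂ) ≠ 0 := by exact_mod_cast (by omega : q ≠ 0)
  have hθ0 : θ ≠ 0 := mul_ne_zero (pow_ne_zero _ hqC) hne
  have hθi : IsIntegral ℤ θ := vl_int F (by omega) p hyi
  set f : (Fin n → ℂ) → ℂ := fun v => (q : ℂ) ^ d * vl F q p v with hf
  have hfσ : ∀ σ : ℂ ≃+* ℂ, σ (f y) = f (fun j => σ (y j)) := by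
    intro σ
    simp only [hf]
    rw [map_mul, map_pow, map_natCast, vl_map]
  have hya : ∀ j, IsAlgebraic ℚ (y j) := fun j => ((hyi j).tower_top (A := ℚ)).isAlgebraic
  have hdeg : (minpoly ℚ θ).natDegree ≤ (q ^ c) ^ n :=
    deg_le hya hyd hfσ (hθi.tower_top (A := ℚ)).isAlgebraic
  set G : ℝ := (LL F + 1) * ((q : ℝ) ^ d * B ^ d) with hG
  have hqd : (1 : ℝ) ≤ (q : ℝ) ^ d := one_le_pow₀ hq1
  have hBd : (1 : ℝ) ≤ B ^ d := one_le_pow₀ hB1
  have hG1 : 1 ≤ G := by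
    rw [hG]
    have := one_le_mul_of_one_le_of_one_le hqd hBd
    nlinarith
  have hGσ : ∀ σ : ℂ ≃+* ℂ, ‖σ θ‖ ≤ G := by
    intro σ
    have h1 := hfσ σ
    simp only [hf] at h1
    rw [hθ, h1, norm_mul, norm_pow, Complex.norm_natCast]
    have h2 := vl_norm F p (fun j => σ (y j)) hB1 (fun i => (hp i).trans ((le_abs_self A).trans (by
      rw [hB]
      have := Real.add_one_le_exp ((q : ℝ) ^ c + |A|)
      have : (0 : ℝ) ≤ (q : ℝ) ^ c := by positivity
      linarith))) (fun j => (hyc j _ (by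
        have h3 := Polynomial.aeval_algHom_apply ((σ : ℂ →+* ℂ).toRatAlgHom) (y j) (minpoly ℚ (y j))
        rw [minpoly.aeval, map_zero] at h3
        exact h3)).trans (by
          rw [hB]
          apply Real.exp_le_exp.2
          have := abs_nonneg A
          linarith))
    calc (q : ℝ) ^ d * ‖vl F q p fun j => σ (y j)‖ ≤ (q : ℝ) ^ d * (LL F * B ^ d) := by gcongr
      _ ≤ (q : ℝ) ^ d * ((LL F + 1) * B ^ d) := by gcongr; linarith
      _ = G := by rw [hG]; ring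
  have h1 := liou_val hθi hθ0 hG1 hGσ hdeg
  -- `G ≤ exp (...)`
  set E : ℝ := LL F + d * q + d * ((q : ℝ) ^ c + |A|) with hE
  have hE0 : 0 ≤ E := by positivity
  have hGE : G ≤ Real.exp E := by
    rw [hG, hE, Real.exp_add, Real.exp_add]
    have g1 : LL F + 1 ≤ Real.exp (LL F) := Real.add_one_le_exp _
    have g2 : (q : ℝ) ^ d ≤ Real.exp (d * q) := by
      rw [Real.exp_nat_mul]
      gcongr
      have := Real.add_one_le_exp (q : ℝ)
      linarith
    have g3 : B ^ d = Real.exp (d * ((q : ℝ) ^ c + |A|)) := by rw [hB, ← Real.exp_nat_mul]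
    rw [g3, mul_assoc]
    gcongr
  have hnorm : ‖θ‖ = (q : ℝ) ^ d * ‖vl F q p y‖ := by
    rw [hθ, norm_mul, norm_pow, Complex.norm_natCast]
  have hqE : (q : ℝ) ^ d ≤ Real.exp E := by
    refine le_trans ?_ hGE
    rw [hG]
    have : (q : ℝ) ^ d * 1 ≤ (q : ℝ) ^ d * B ^ d := by gcongr
    nlinarith
  have h2 : 1 ≤ ‖vl F q p y‖ * Real.exp (E * ((q ^ c) ^ n + 1)) := by
    calc (1 : ℝ) ≤ ‖θ‖ * G ^ ((q ^ c) ^ n) := h1
      _ = ‖vl F q p y‖ * ((q : ℝ) ^ d * G ^ ((q ^ c) ^ n)) := by rw [hnorm]; ring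
      _ ≤ ‖vl F q p y‖ * (Real.exp E * Real.exp E ^ ((q ^ c) ^ n)) := by gcongr
      _ = ‖vl F q p y‖ * Real.exp (E * ((q ^ c) ^ n + 1)) := by
        congr 1
        rw [← pow_succ', ← Real.exp_nat_mul]
        congr 1
        push_cast
        ring
  have h3 : Real.exp (-(E * ((q ^ c) ^ n + 1))) ≤ ‖vl F q p y‖ := by
    rw [Real.exp_neg, inv_le_iff_one_le_mul₀ (Real.exp_pos _)]
    exact h2
  refine le_trans ?_ h3
  apply Real.exp_le_exp.2
  apply neg_le_neg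
  -- `E ((q^c)^n + 1) ≤ q ^ C`
  have hqc : (1 : ℝ) ≤ (q : ℝ) ^ c := one_le_pow₀ hq1
  have e1 : E ≤ 2 ^ k₁ * (q : ℝ) ^ (c + 1) := by
    have e2 : E ≤ (LL F + d + d * |A| + 1 + d) * (q : ℝ) ^ (c + 1) := by
      have t1 : LL F ≤ LL F * (q : ℝ) ^ (c + 1) := by
        have : (1 : ℝ) ≤ (q : ℝ) ^ (c + 1) := one_le_pow₀ hq1
        nlinarith
      have t2 : (d : ℝ) * q ≤ d * (q : ℝ) ^ (c + 1) := by
        gcongr
        exact le_self_pow₀ hq1 (by omega)
      have t3 : (d : ℝ) * (q : ℝ) ^ c ≤ d * (q : ℝ) ^ (c + 1) :=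
        mul_le_mul_of_nonneg_left (pow_le_pow_right₀ hq1 (by omega)) hd0
      have t4 : (d : ℝ) * |A| ≤ d * |A| * (q : ℝ) ^ (c + 1) := by
        have : (1 : ℝ) ≤ (q : ℝ) ^ (c + 1) := one_le_pow₀ hq1
        have h0 : 0 ≤ (d : ℝ) * |A| := by positivity
        nlinarith
      have t5 : (0 : ℝ) ≤ (q : ℝ) ^ (c + 1) := by positivity
      rw [hE]
      nlinarith
    exact e2.trans (mul_le_mul_of_nonneg_right hk₁.le (by positivity))
  have e3 : (((q : ℝ) ^ c) ^ n + 1) ≤ q * (q : ℝ) ^ (c * n) := by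
    rw [← pow_mul]
    have : (1 : ℝ) ≤ (q : ℝ) ^ (c * n) := one_le_pow₀ hq1
    nlinarith
  calc E * (((q : ℝ) ^ c) ^ n + 1) ≤ (2 ^ k₁ * (q : ℝ) ^ (c + 1)) * (q * (q : ℝ) ^ (c * n)) := by gcongr
    _ ≤ ((q : ℝ) ^ k₁ * (q : ℝ) ^ (c + 1)) * (q * (q : ℝ) ^ (c * n)) := by gcongr
    _ = (q : ℝ) ^ (k₁ + c + c * n + 2) := by ring
    _ ≤ (q : ℝ) ^ (k₁ + c + c * n + 3) := pow_le_pow_right₀ hq1 (by omega)

end Pool.Agent.NH23.CM
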