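import Pool.Agent.NH23.CMc
import Pool.Agent.Y776.AxJ.JFun
import Pool.Agent.Y577.LU.L1

/-!
# The modular invariant of lattices: comparison, injectivity, behaviour near rational numbers
-/

set_option autoImplicit false

open UpperHalfPlane ModularForm EisensteinSeries Filter Topology H294ZP

noncomputable section

namespace Pool.Agent.NH23.Inj

open Pool.Agent.Y685 (LL LC LC_ω₂)
open Pool.Agent.Y776 (jf)
open Pool.Agent.Y776.AxJ (dlf dlf_ne isOpen_H preconn_H an_j)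
open Pool.Agent.NH23.CM

/-- the lattice `Ω (ℤ + ℤ ω)` -/
def mkL (ω Ω : ℂ) (hω : 0 < ω.im) (hΩ : Ω ≠ 0) : PeriodPair where
  ω₁ := Ω
  ω₂ := Ω * ω
  indep := by
    rw [LinearIndependent.pair_iff]
    intro s t h
    have h1 : Ω * ((s : ℂ) + t * ω) = 0 := by
      simp only [Complex.real_smul] at h
      linear_combination h
    have h2 := (mul_eq_zero.1 h1).resolve_left hΩ
    have h3 := congrArg Complex.im h2
    simp at h3
    have ht : t = 0 := h3.resolve_right hω.ne'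
    refine ⟨?_, ht⟩
    rw [ht] at h2
    simpa using h2

/-- the elements of the lattice -/
def latV (ω Ω : ℂ) (hω : 0 < ω.im) (hΩ : Ω ≠ 0) :
    (Fin 2 → ℤ) ≃ (mkL ω Ω hω hΩ).lattice :=
  Equiv.ofBijective (fun v => ⟨Ω * (v 0 * ω + v 1), PeriodPair.mem_lattice.2 ⟨v 1, v 0, by
    show (v 1 : ℂ) * Ω + v 0 * (Ω * ω) = _
    ring⟩⟩) ⟨by
    intro v w h
    have h1 : Ω * ((v 0 : ℂ) * ω + v 1) = Ω * (w 0 * ω + w 1) := congrArg Subtype.val h
    have h2 := mul_left_cancel₀ hΩ h1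
    have h3 := congrArg Complex.im h2
    simp at h3
    have h4 : v 0 = w 0 := by
      rcases h3 with h3 | h3
      · exact_mod_cast h3
      · exact absurd h3 hω.ne'
    have h5 : v 1 = w 1 := by
      rw [h4] at h2
      have := add_left_cancel h2
      exact_mod_cast this
    funext i
    fin_cases i
    · exact h4
    · exact h5, by
    intro l
    obtain ⟨m, n, h⟩ := PeriodPair.mem_lattice.1 l.2
    refine ⟨![n, m], Subtype.ext ?_⟩
    rw [← h]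
    show Ω * ((n : ℂ) * ω + m) = (m : ℂ) * Ω + n * (Ω * ω)
    ring⟩

theorem G_eq {ω Ω : ℂ} (hω : 0 < ω.im) (hΩ : Ω ≠ 0) {k : ℕ} (hk : 3 ≤ k) :
    (mkL ω Ω hω hΩ).G k = (Ω ^ k)⁻¹ * (2 * riemannZeta k * E hk ⟨ω, hω⟩) := by
  have h1 := tsum_eisSummand_eq_riemannZeta_mul_eisensteinSeries hk (⟨ω, hω⟩ : ℍ)
  have h2 : E hk (⟨ω, hω⟩ : ℍ) = (1 / 2 : ℂ) * eisensteinSeries (N := 1) 0 k ⟨ω, hω⟩ := rfl
  have h3 : 2 * riemannZeta k * E hk (⟨ω, hω⟩ : ℍ) =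
      ∑' v : Fin 2 → ℤ, eisSummand k v (⟨ω, hω⟩ : ℍ) := by
    rw [h1, h2]
    ring
  rw [h3, ← tsum_mul_left]
  unfold PeriodPair.G
  rw [← (latV ω Ω hω hΩ).tsum_eq]
  refine tsum_congr fun v => ?_
  have h4 : (((latV ω Ω hω hΩ) v : (mkL ω Ω hω hΩ).lattice) : ℂ) = Ω * (v 0 * ω + v 1) := rfl
  rw [h4, mul_pow, mul_inv]
  congr 1
  unfold eisSummand
  rw [zpow_neg, zpow_natCast]

theorem zeta_six : riemannZeta 6 = (Real.pi : ℂ) ^ 6 / 945 := by
  have h := riemannZeta_two_mul_nat (k := 3) (by norm_num)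
  have h1 : (2 * ((3 : ℕ) : ℂ)) = 6 := by norm_num
  rw [h1, show 2 * 3 = 6 by norm_num, show bernoulli 6 = 1 / 42 by decide +kernel] at h
  rw [h]
  norm_num [Nat.factorial]
  ring

theorem g2_mkL {ω Ω : ℂ} (hω : 0 < ω.im) (hΩ : Ω ≠ 0) :
    (mkL ω Ω hω hΩ).g₂ = (Ω ^ 4)⁻¹ * (4 * (Real.pi : ℂ) ^ 4 / 3 * E₄ ⟨ω, hω⟩) := by
  rw [PeriodPair.g₂, G_eq hω hΩ (k := 4) (by norm_num)]
  have h4 : riemannZeta ((4 : ℕ) : ℂ) = (Real.pi : ℂ) ^ 4 / 90 := by
    push_cast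
    exact riemannZeta_four
  rw [h4, show (E₄ (⟨ω, hω⟩ : ℍ) : ℂ) = E (k := 4) (by norm_num) ⟨ω, hω⟩ from rfl]
  ring

theorem g3_mkL {ω Ω : ℂ} (hω : 0 < ω.im) (hΩ : Ω ≠ 0) :
    (mkL ω Ω hω hΩ).g₃ = (Ω ^ 6)⁻¹ * (8 * (Real.pi : ℂ) ^ 6 / 27 * E₆ ⟨ω, hω⟩) := by
  rw [PeriodPair.g₃, G_eq hω hΩ (k := 6) (by norm_num)]
  have h4 : riemannZeta ((6 : ℕ) : ℂ) = (Real.pi : ℂ) ^ 6 / 945 := by
    push_cast
    exact zeta_six
  rw [h4, show (E₆ (⟨ω, hω⟩ : ℍ) : ℂ) = E (k := 6) (by norm_num) ⟨ω, hω⟩ from rfl]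
  ring

theorem LC_mkL {τ : ℂ} (hτ : 0 < τ.im) : (LC τ).g₂ = (mkL τ 1 hτ one_ne_zero).g₂ ∧
    (LC τ).g₃ = (mkL τ 1 hτ one_ne_zero).g₃ := by
  have h1 : LC τ = mkL τ 1 hτ one_ne_zero := by
    have h2 : (LC τ).ω₁ = (mkL τ 1 hτ one_ne_zero).ω₁ := rfl
    have h3 : (LC τ).ω₂ = (mkL τ 1 hτ one_ne_zero).ω₂ := by
      rw [LC_ω₂ hτ]
      show τ = 1 * τ
      rw [one_mul]
    cases hL : LC τ with
    | mk a b c =>
      cases hM : mkL τ 1 hτ one_ne_zero with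
      | mk a' b' c' =>
        rw [hL, hM] at h2 h3
        simp only at h2 h3
        subst h2 h3
        rfl
  rw [h1]
  exact ⟨rfl, rfl⟩

/-- the two definitions of `j` agree -/
theorem jf_eq {τ : ℂ} (hτ : 0 < τ.im) : jf τ = jj ⟨τ, hτ⟩ := by
  have hd := dlf_ne hτ
  have h0 : jf τ = 1728 * (LC τ).g₂ ^ 3 / dlf τ := rfl
  obtain ⟨h1, h2⟩ := LC_mkL hτ
  rw [g2_mkL, one_pow, inv_one, one_mul] at h1
  rw [g3_mkL, one_pow, inv_one, one_mul] at h2
  have hΔE := discriminant_eq_E₄_cube_sub_E₆_sq ⟨τ, hτ⟩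
  have hΔ : discriminant (⟨τ, hτ⟩ : ℍ) ≠ 0 := discriminant_ne_zero _
  have hpi : (Real.pi : ℂ) ≠ 0 := by exact_mod_cast Real.pi_ne_zero
  have h3 : dlf τ = 64 * (Real.pi : ℂ) ^ 12 / 27 * (1728 * discriminant (⟨τ, hτ⟩ : ℍ)) := by
    rw [dlf, h1, h2, hΔE]
    ring
  rw [h0, h3, h1]
  unfold jj
  field_simp
  ring

/-- a generic point of the upper half-plane -/
def Gn (τ : ℂ) : Prop := ∀ h : 0 < τ.im, E₄ (⟨τ, h⟩ : ℍ) ≠ 0 ∧ E₆ (⟨τ, h⟩ : ℍ) ≠ 0

/-- **injectivity of `j`** at generic points -/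
theorem jf_inj {τ w : ℂ} (hτ : 0 < τ.im) (hw : 0 < w.im) (gτ : Gn τ) (gw : Gn w) (h : jf τ = jf w) :
    ∃ a b c d : ℤ, a * d - b * c ≠ 0 ∧ w * (c * τ + d) = a * τ + b := by
  obtain ⟨n1, n2⟩ := gτ hτ
  obtain ⟨n3, n4⟩ := gw hw
  rw [jf_eq hτ, jf_eq hw] at h
  unfold jj at h
  have hΔτ : discriminant (⟨τ, hτ⟩ : ℍ) ≠ 0 := discriminant_ne_zero _
  have hΔw : discriminant (⟨w, hw⟩ : ℍ) ≠ 0 := discriminant_ne_zero _
  have e1 := discriminant_eq_E₄_cube_sub_E₆_sq ⟨τ, hτ⟩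
  have e2 := discriminant_eq_E₄_cube_sub_E₆_sq ⟨w, hw⟩
  set A := E₄ (⟨τ, hτ⟩ : ℍ) with hA
  set B := E₆ (⟨τ, hτ⟩ : ℍ) with hB
  set A' := E₄ (⟨w, hw⟩ : ℍ) with hA'
  set B' := E₆ (⟨w, hw⟩ : ℍ) with hB'
  rw [div_eq_div_iff hΔτ hΔw, e1, e2] at h
  have hcross : A ^ 3 * B' ^ 2 = A' ^ 3 * B ^ 2 := by linear_combination (-1728 : ℂ) * h
  -- the scaling factor
  obtain ⟨l, hl⟩ := IsAlgClosed.exists_pow_nat_eq (B * A' / (B' * A)) (n := 2) (by norm_num)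
  have hl0 : l ≠ 0 := by
    rintro rfl
    rw [zero_pow two_ne_zero] at hl
    exact div_ne_zero (mul_ne_zero n2 n3) (mul_ne_zero n4 n1) hl.symm
  have g2e : (mkL τ l hτ hl0).g₂ = (mkL w 1 hw one_ne_zero).g₂ := by
    rw [g2_mkL, g2_mkL, one_pow, inv_one, one_mul, ← hA, ← hA']
    have h4 : l ^ 4 = (B * A' / (B' * A)) ^ 2 := by rw [← hl]; ring
    rw [h4]
    field_simp
    linear_combination hcross
  have g3e : (mkL τ l hτ hl0).g₃ = (mkL w 1 hw one_ne_zero).g₃ := by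
    rw [g3_mkL, g3_mkL, one_pow, inv_one, one_mul, ← hB, ← hB']
    have h4 : l ^ 6 = (B * A' / (B' * A)) ^ 3 := by rw [← hl]; ring
    rw [h4]
    field_simp
    linear_combination hcross
  have hlat := Pool.Agent.Y577.LU.lat_unique _ _ g2e g3e
  have m1 : (1 : ℂ) ∈ (mkL τ l hτ hl0).lattice := by
    rw [hlat]
    exact PeriodPair.mem_lattice.2 ⟨1, 0, by
      show ((1 : ℤ) : ℂ) * 1 + ((0 : ℤ) : ℂ) * (1 * w) = 1
      push_cast; ring⟩
  have m2 : w ∈ (mkL τ l hτ hl0).lattice := by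
    rw [hlat]
    exact PeriodPair.mem_lattice.2 ⟨0, 1, by
      show ((0 : ℤ) : ℂ) * 1 + ((1 : ℤ) : ℂ) * (1 * w) = w
      push_cast; ring⟩
  obtain ⟨d, c, h5⟩ := PeriodPair.mem_lattice.1 m1
  obtain ⟨b, a, h6⟩ := PeriodPair.mem_lattice.1 m2
  have h5' : (d : ℂ) * l + c * (l * τ) = 1 := h5
  have h6' : (b : ℂ) * l + a * (l * τ) = w := h6
  refine ⟨a, b, c, d, ?_, ?_⟩
  · intro hdet
    have h7 : ((a : ℂ) * d - b * c) = 0 := by exact_mod_cast hdet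
    -- `w` would be real
    have h8 : (a : ℂ) = c * w := by
      have : (a : ℂ) * (d * l + c * (l * τ)) = c * (b * l + a * (l * τ)) := by linear_combination l * h7
      rw [h5', h6', mul_one] at this
      exact this
    have h9 := congrArg Complex.im h8
    rw [Complex.intCast_im, ← Complex.ofReal_intCast, Complex.im_ofReal_mul] at h9
    have hc : (c : ℝ) = 0 := by
      rcases mul_eq_zero.1 h9.symm with h | h
      · exact h
      · exact absurd h hw.ne'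
    have hc' : c = 0 := by exact_mod_cast hc
    rw [hc', Int.cast_zero, zero_mul] at h8
    have ha' : a = 0 := by exact_mod_cast h8
    rw [hc', Int.cast_zero, zero_mul, add_zero] at h5'
    rw [ha', Int.cast_zero, zero_mul, add_zero] at h6'
    have h10 : (b : ℂ) = d * w := by
      have : (b : ℂ) * (d * l) = d * (b * l) := by ring
      rw [h5', h6', mul_one] at this
      exact this
    have h11 := congrArg Complex.im h10
    rw [Complex.intCast_im, ← Complex.ofReal_intCast, Complex.im_ofReal_mul] at h11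
    have hd : (d : ℝ) = 0 := by
      rcases mul_eq_zero.1 h11.symm with h | h
      · exact h
      · exact absurd h hw.ne'
    have hd' : d = 0 := by exact_mod_cast hd
    rw [hd', Int.cast_zero, zero_mul] at h5'
    exact zero_ne_one h5'
  · have : w * (l * (c * τ + d)) = l * (a * τ + b) := by
      have e3 : l * (c * τ + d) = 1 := by linear_combination h5'
      have e4 : l * (a * τ + b) = w := by linear_combination h6'
      rw [e3, e4, mul_one]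
    apply mul_left_cancel₀ hl0
    linear_combination this

/-- all but countably many points are generic -/
theorem gn_of {τ : ℂ} (hT : τ ∉ Pool.Agent.Y776.T0) : Gn τ := by
  intro hτ
  have h1 := Pool.Agent.Y776.AxJ.QL_ok (Pool.Agent.Y776.T0_spec.2 τ hτ hT)
  obtain ⟨h2, h3⟩ := LC_mkL hτ
  rw [g2_mkL, one_pow, inv_one, one_mul] at h2
  rw [g3_mkL, one_pow, inv_one, one_mul] at h3
  have h4 : (LC τ).g₂ ≠ 0 := h1.p0
  have h5 : (LC τ).g₃ ≠ 0 := h1.q0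
  refine ⟨fun h0 => h4 ?_, fun h0 => h5 ?_⟩
  · rw [h2, h0, mul_zero]
  · rw [h3, h0, mul_zero]

/-- invariance -/
theorem jf_inv {a b c d : ℤ} (h : a * d - b * c = 1) {τ w : ℂ} (hτ : 0 < τ.im) (hw : 0 < w.im)
    (e : w * (c * τ + d) = a * τ + b) : jf w = jf τ := by
  rw [jf_eq hτ, jf_eq hw]
  exact Pool.Agent.R870.NY.hTA.1 a b c d h ⟨τ, hτ⟩ ⟨w, hw⟩ e

theorem jj_large : ∃ y : ℝ, ∀ w : ℍ, y ≤ w.im → Real.exp (2 * Real.pi * w.im) / 2 ≤ ‖jj w‖ := by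
  have c2 : Tendsto (fun q : ℂ => ‖Jf q‖) (𝓝 0) (𝓝 1) := by
    have := Jf_analytic.continuousAt.norm
    have h : Tendsto (fun q : ℂ => ‖Jf q‖) (𝓝 0) (𝓝 ‖Jf 0‖) := this
    rwa [Jf_zero, norm_one] at h
  obtain ⟨ε, hε, h1⟩ := Metric.eventually_nhds_iff.1 (c2.eventually (lt_mem_nhds (show (1 : ℝ) / 2 < 1 by norm_num)))
  refine ⟨-Real.log (ε / 2) / (2 * Real.pi), fun w hw => ?_⟩
  have h2 : ‖qq 1 w‖ < ε := by
    rw [norm_qq]
    have h3 : -(2 * Real.pi * w.im) ≤ Real.log (ε / 2) := by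
      rw [div_le_iff₀ (by positivity)] at hw
      linarith
    calc Real.exp (-(2 * Real.pi * w.im)) ≤ Real.exp (Real.log (ε / 2)) := Real.exp_le_exp.2 h3
      _ = ε / 2 := Real.exp_log (by linarith)
      _ < ε := by linarith
  have h4 := h1 (y := qq 1 w) (by rwa [dist_zero_right])
  rw [Jf_qq, norm_mul, norm_qq, Real.exp_neg] at h4
  have h5 := Real.exp_pos (2 * Real.pi * w.im)
  have h6 : 1 / 2 * Real.exp (2 * Real.pi * w.im) ≤ ‖jj w‖ := by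
    rw [lt_inv_mul_iff₀ h5] at h4
    linarith
  linarith

/-- `j` is unbounded near every rational number -/
theorem jf_rat (r : ℚ) : Tendsto (fun ε : ℝ => ‖jf ((r : ℂ) + ε * Complex.I)‖) (𝓝[>] 0) atTop := by
  obtain ⟨y, hy⟩ := jj_large
  set p : ℤ := r.num with hp
  set q : ℤ := (r.den : ℤ) with hq
  have hq0 : (0 : ℝ) < q := by
    rw [hq]
    exact_mod_cast r.den_pos
  have hqc : (q : ℂ) ≠ 0 := by
    have : (q : ℝ) ≠ 0 := hq0.ne'
    exact_mod_cast this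
  have hr : (r : ℂ) = p / q := by
    rw [hp, hq]
    push_cast
    exact Rat.cast_def r
  obtain ⟨s, t, hst⟩ : ∃ s t : ℤ, p * s - q * t = 1 := by
    have h1 : IsCoprime p q := by
      rw [hp, hq]
      exact Rat.isCoprime_num_den r
    obtain ⟨a, b, hab⟩ := h1
    exact ⟨a, -b, by linarith⟩
  have key : ∀ ε : ℝ, 0 < ε → y ≤ 1 / (q ^ 2 * ε) →
      Real.exp (2 * Real.pi * (1 / (q ^ 2 * ε))) / 2 ≤ ‖jf ((r : ℂ) + ε * Complex.I)‖ := by
    intro ε hε hyε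
    have hεc : (ε : ℂ) ≠ 0 := by exact_mod_cast hε.ne'
    set w : ℂ := ((-(s : ℝ) / q : ℝ) : ℂ) + ((1 / (q ^ 2 * ε) : ℝ) : ℂ) * Complex.I with hw
    have hwim : w.im = 1 / (q ^ 2 * ε) := by
      rw [hw, Complex.add_im, Complex.ofReal_im, Complex.im_ofReal_mul, Complex.I_im, mul_one, zero_add]
    have hw0 : 0 < w.im := by rw [hwim]; positivity
    have hu0 : 0 < ((r : ℂ) + ε * Complex.I).im := by
      rw [Complex.add_im, Complex.im_ofReal_mul, Complex.I_im, mul_one, Complex.ratCast_im, zero_add]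
      exact hε
    have hI := Complex.I_sq
    have hstc : (p : ℂ) * s - q * t = 1 := by exact_mod_cast hst
    have h1 : jf w = jf ((r : ℂ) + ε * Complex.I) := by
      refine jf_inv (a := s) (b := -t) (c := -q) (d := p) (by linarith) hu0 hw0 ?_
      rw [hw, hr]
      push_cast
      field_simp
      linear_combination (-(q : ℂ) * ε) * hI - (q : ℂ) * ε * hstc
    rw [← h1, jf_eq hw0]
    have h2 := hy ⟨w, hw0⟩ (by
      show y ≤ w.im
      rw [hwim]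
      exact hyε)
    have h3 : (⟨w, hw0⟩ : ℍ).im = 1 / (q ^ 2 * ε) := hwim
    rw [h3] at h2
    exact h2
  have hlim : Tendsto (fun ε : ℝ => 1 / ((q : ℝ) ^ 2 * ε)) (𝓝[>] 0) atTop := by
    have h1 : Tendsto (fun ε : ℝ => ε⁻¹) (𝓝[>] 0) atTop := tendsto_inv_nhdsGT_zero
    have h2 := h1.const_mul_atTop (show (0 : ℝ) < ((q : ℝ) ^ 2)⁻¹ by positivity)
    refine h2.congr fun ε => ?_
    rw [one_div, mul_inv]
  have hlim2 : Tendsto (fun ε : ℝ => Real.exp (2 * Real.pi * (1 / ((q : ℝ) ^ 2 * ε))) / 2) (𝓝[>] 0) atTop := by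
    have h1 := Real.tendsto_exp_atTop.comp (hlim.const_mul_atTop (show (0 : ℝ) < 2 * Real.pi by positivity))
    exact h1.atTop_div_const (by norm_num)
  refine tendsto_atTop_mono' _ ?_ hlim2
  filter_upwards [self_mem_nhdsWithin, hlim.eventually_ge_atTop y] with ε h1 h2
  exact key ε h1 h2

theorem jf_infinite : (jf '' {τ : ℂ | 0 < τ.im}).Infinite := by
  refine jj_infinite.mono ?_
  rintro _ ⟨w, rfl⟩
  exact ⟨(w : ℂ), w.im_pos, jf_eq w.im_pos⟩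

end Pool.Agent.NH23.Inj
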