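import Mathlib

/-!
# Quadratic functions
-/

set_option autoImplicit false

open Filter Topology MvPolynomial

noncomputable section

namespace Pool.Agent.NH23.Qua

/-- a square root -/
def sq (D : ℂ) : ℂ := D ^ (1 / 2 : ℂ)

theorem sq_sq (D : ℂ) : sq D ^ 2 = D := by
  rw [sq, ← Complex.cpow_nat_mul]
  norm_num

theorem sq_real {D : ℝ} (hD : 0 < D) : sq (D : ℂ) = (Real.sqrt D : ℂ) := by
  rw [sq, Real.sqrt_eq_rpow, Complex.ofReal_cpow hD.le]
  norm_num

theorem an_sq {D : ℂ} (hD : D ∈ Complex.slitPlane) : AnalyticAt ℂ sq D :=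
  analyticAt_id.cpow analyticAt_const hD

/-- the root of `a X ^ 2 + b X + c` -/
def rt (a b c : ℂ) : ℂ := (-b + Complex.I * sq (4 * a * c - b ^ 2)) / (2 * a)

theorem rt_root {a b c : ℂ} (ha : a ≠ 0) : a * rt a b c ^ 2 + b * rt a b c + c = 0 := by
  have h := sq_sq (4 * a * c - b ^ 2)
  rw [rt]
  generalize sq (4 * a * c - b ^ 2) = s at h ⊢
  field_simp
  linear_combination (-1 : ℂ) * h + s ^ 2 * Complex.I_sq

theorem rt_im {a b c : ℝ} (ha : 0 < a) (hD : 0 < 4 * a * c - b ^ 2) : 0 < (rt a b c).im := by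
  have h1 : (4 * (a : ℂ) * c - (b : ℂ) ^ 2) = ((4 * a * c - b ^ 2 : ℝ) : ℂ) := by push_cast; ring
  have h2 : rt a b c = ((-b / (2 * a) : ℝ) : ℂ) + ((Real.sqrt (4 * a * c - b ^ 2) / (2 * a) : ℝ) : ℂ) * Complex.I := by
    rw [rt, h1, sq_real hD]
    push_cast
    ring
  rw [h2]
  simp only [Complex.add_im, Complex.ofReal_im, Complex.mul_im, Complex.ofReal_re, Complex.I_im, Complex.I_re,
    mul_one, mul_zero, add_zero, zero_add]
  have := Real.sqrt_pos.2 hD
  positivity

theorem disc_pos {a b c : ℝ} {z : ℂ} (hz : 0 < z.im) (h : (a : ℂ) * z ^ 2 + b * z + c = 0) (ha : 0 < a) :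
    0 < 4 * a * c - b ^ 2 := by
  have h1 := congrArg Complex.im h
  have h2 := congrArg Complex.re h
  simp only [pow_two, Complex.add_im, Complex.mul_im, Complex.ofReal_re, Complex.ofReal_im, Complex.zero_im,
    Complex.mul_re, Complex.add_re, Complex.zero_re, zero_mul, add_zero, sub_zero] at h1 h2
  have h3 : 2 * a * z.re + b = 0 := by
    have h4 : z.im * (2 * a * z.re + b) = 0 := by linarith
    exact (mul_eq_zero.1 h4).resolve_left hz.ne'
  have h5 : b = -(2 * a * z.re) := by linarith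
  rw [h5] at h2 ⊢
  have h6 : c = a * (z.re * z.re + z.im * z.im) := by linarith
  rw [h6]
  have : 4 * a * (a * (z.re * z.re + z.im * z.im)) - (-(2 * a * z.re)) ^ 2 = 4 * a ^ 2 * z.im ^ 2 := by ring
  rw [this]
  positivity

theorem rt_unique {a b c : ℝ} {z : ℂ} (hz : 0 < z.im) (h : (a : ℂ) * z ^ 2 + b * z + c = 0) (ha : 0 < a) :
    z = rt a b c := by
  have hD := disc_pos hz h ha
  have h1 := rt_root (a := (a : ℂ)) (b := b) (c := c) (by exact_mod_cast ha.ne')
  have h2 := rt_im ha hD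
  set w := rt a b c with hw
  by_contra hne
  have h3 : (a : ℂ) * (z + w) + b = 0 := by
    have h4 : (z - w) * ((a : ℂ) * (z + w) + b) = 0 := by linear_combination h - h1
    exact (mul_eq_zero.1 h4).resolve_left (sub_ne_zero.2 hne)
  have h5 := congrArg Complex.im h3
  simp only [Complex.add_im, Complex.mul_im, Complex.ofReal_re, Complex.ofReal_im, Complex.zero_im, zero_mul,
    add_zero, Complex.add_re] at h5
  have h6 : a * (z.im + w.im) = 0 := by linarith
  rcases mul_eq_zero.1 h6 with h7 | h7 <;> linarith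

/-- the real value of a polynomial -/
theorem aeval_real {m : ℕ} (A : MvPolynomial (Fin m) ℤ) (x : Fin m → ℝ) :
    aeval (fun k => (x k : ℂ)) A = ((aeval x A : ℝ) : ℂ) := by
  have := MvPolynomial.aeval_algebraMap_apply (A := ℝ) ℂ x A
  exact this

/-- a common denominator -/
theorem exists_int {m : ℕ} (A : MvPolynomial (Fin m) ℤ) {d : ℕ} (hd : A.totalDegree ≤ d) {q : ℕ} (hq : q ≠ 0)
    (p : Fin m → ℤ) : ∃ N : ℤ, (N : ℝ) = (q : ℝ) ^ d * aeval (fun i => (p i : ℝ) / q) A := by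
  classical
  refine ⟨∑ e ∈ A.support, A.coeff e * ((q : ℤ) ^ (d - e.sum fun _ k => k) * ∏ i, p i ^ e i), ?_⟩
  have hq' : (q : ℝ) ≠ 0 := by exact_mod_cast hq
  rw [MvPolynomial.aeval_def, MvPolynomial.eval₂_eq', Finset.mul_sum]
  push_cast
  refine Finset.sum_congr rfl fun e he => ?_
  have h1 : (e.sum fun _ k => k) ≤ d := (MvPolynomial.le_totalDegree he).trans hd
  have h2 : (e.sum fun _ k => k) = ∑ i, e i := Finsupp.sum_fintype _ _ (fun _ => rfl)
  have h3 : ∏ i, ((p i : ℝ) / q) ^ e i = (∏ i, (p i : ℝ) ^ e i) / (q : ℝ) ^ (e.sum fun _ k => k) := by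
    rw [h2, ← Finset.prod_pow_eq_pow_sum, ← Finset.prod_div_distrib]
    exact Finset.prod_congr rfl fun i _ => div_pow _ _ _
  have h4 : (q : ℝ) ^ d = (q : ℝ) ^ (d - e.sum fun _ k => k) * (q : ℝ) ^ (e.sum fun _ k => k) := by
    rw [← pow_add, Nat.sub_add_cancel h1]
  rw [h3, h4]
  simp only [algebraMap_int_eq, eq_intCast]
  field_simp

end Pool.Agent.NH23.Qua
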