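import Pool.Agent.NH23.Tup
import Pool.Agent.NH23.CMd
import Pool.Agent.NH23.An
import Pool.Agent.NH23.Inj
import Pool.Agent.NH23.Qua

/-!
# Relations near a point with good approximations
-/

set_option autoImplicit false

open Filter Topology MvPolynomial UpperHalfPlane

noncomputable section

namespace Pool.Agent.NH23.Core

open Pool.Agent.NH23.Qua
open Pool.Agent.NH23.CM (vl cm_main liou_main)
open H294ZP (jj)
open Pool.Agent.Y776 (jf)

variable {m n : ℕ}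

/-- hierarchical approximations -/
def Hc (ξ : Fin m → ℝ) : Prop := ∀ κ : ℕ, ∃ (q : ℕ) (p : Fin m → ℤ), 2 ≤ q ∧
  (∀ i, ξ i ≠ (p i : ℝ) / q ∧ |ξ i - p i / q| ≤ Real.exp (-(q : ℝ) ^ κ)) ∧
  ∀ i j, i < j → |ξ j - p j / q| ≤ |ξ i - p i / q| ^ κ

/-- the point as a complex vector -/
def cx (ξ : Fin m → ℝ) : Fin m → ℂ := fun k => (ξ k : ℂ)

theorem aeval_cx (A : MvPolynomial (Fin m) ℤ) (x : Fin m → ℝ) : aeval (cx x) A = ((aeval x A : ℝ) : ℂ) :=
  aeval_real A x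

/-- the data of quadratic functions -/
structure Qd (ξ : Fin m → ℝ) (A B C : Fin n → MvPolynomial (Fin m) ℤ) (z : Fin n → ℂ) : Prop where
  im : ∀ i, 0 < (z i).im
  pos : ∀ i, 0 < aeval ξ (A i)
  eq : ∀ i, aeval (cx ξ) (A i) * z i ^ 2 + aeval (cx ξ) (B i) * z i + aeval (cx ξ) (C i) = 0

/-- the quadratic function -/
def Tf (A B C : MvPolynomial (Fin m) ℤ) (x : Fin m → ℂ) : ℂ := rt (aeval x A) (aeval x B) (aeval x C)

theorem an_poly (A : MvPolynomial (Fin m) ℤ) (x : Fin m → ℂ) : AnalyticAt ℂ (fun x : Fin m → ℂ => aeval x A) x :=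
  AnalyticAt.aeval_mvPolynomial (f := fun x : Fin m → ℂ => x)
    (fun i => (ContinuousLinearMap.proj (R := ℂ) (φ := fun _ : Fin m => ℂ) i).analyticAt x) A

theorem Tf_eq (A B C : MvPolynomial (Fin m) ℤ) (x : Fin m → ℝ) :
    Tf A B C (cx x) = rt ((aeval x A : ℝ) : ℂ) ((aeval x B : ℝ) : ℂ) ((aeval x C : ℝ) : ℂ) := by
  rw [Tf, aeval_cx, aeval_cx, aeval_cx]

variable {ξ : Fin m → ℝ} {A B C : Fin n → MvPolynomial (Fin m) ℤ} {z : Fin n → ℂ}

theorem Qd.eq' (h : Qd ξ A B C z) (i : Fin n) :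
    ((aeval ξ (A i) : ℝ) : ℂ) * z i ^ 2 + ((aeval ξ (B i) : ℝ) : ℂ) * z i + ((aeval ξ (C i) : ℝ) : ℂ) = 0 := by
  rw [← aeval_cx, ← aeval_cx, ← aeval_cx]
  exact h.eq i

theorem Qd.dpos (h : Qd ξ A B C z) (i : Fin n) : 0 < 4 * aeval ξ (A i) * aeval ξ (C i) - aeval ξ (B i) ^ 2 :=
  disc_pos (h.im i) (h.eq' i) (h.pos i)

theorem Qd.val (h : Qd ξ A B C z) (i : Fin n) : Tf (A i) (B i) (C i) (cx ξ) = z i := by
  rw [Tf_eq]
  exact (rt_unique (h.im i) (h.eq' i) (h.pos i)).symm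

/-- the discriminant -/
def Df (A B C : MvPolynomial (Fin m) ℤ) (x : Fin m → ℂ) : ℂ := 4 * aeval x A * aeval x C - aeval x B ^ 2

theorem Df_cx (A B C : MvPolynomial (Fin m) ℤ) (x : Fin m → ℝ) :
    Df A B C (cx x) = ((4 * aeval x A * aeval x C - aeval x B ^ 2 : ℝ) : ℂ) := by
  rw [Df, aeval_cx, aeval_cx, aeval_cx]
  push_cast
  ring

theorem an_Df (A B C : MvPolynomial (Fin m) ℤ) (x : Fin m → ℂ) : AnalyticAt ℂ (Df A B C) x :=
  ((analyticAt_const.mul (an_poly A x)).mul (an_poly C x)).sub ((an_poly B x).pow 2)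

theorem an_Tf (A B C : MvPolynomial (Fin m) ℤ) {x : Fin m → ℂ} (hA : aeval x A ≠ 0) (hD : Df A B C x ∈ Complex.slitPlane) :
    AnalyticAt ℂ (Tf A B C) x := by
  have h1 : AnalyticAt ℂ (fun x => sq (Df A B C x)) x :=
    AnalyticAt.fun_comp (g := sq) (f := Df A B C) (an_sq hD) (an_Df A B C x)
  exact ((an_poly B x).neg.add (analyticAt_const.mul h1)).div (analyticAt_const.mul (an_poly A x))
    (mul_ne_zero two_ne_zero hA)

theorem Qd.ev (h : Qd ξ A B C z) : ∀ᶠ x in 𝓝 (cx ξ), ∀ i, 0 < (aeval x (A i) : ℂ).re ∧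
    0 < (Df (A i) (B i) (C i) x).re ∧ 0 < (Tf (A i) (B i) (C i) x).im := by
  rw [eventually_all]
  intro i
  have c1 : ContinuousAt (fun x : Fin m → ℂ => (aeval x (A i) : ℂ).re) (cx ξ) :=
    Complex.continuous_re.continuousAt.comp (an_poly (A i) _).continuousAt
  have c2 : ContinuousAt (fun x : Fin m → ℂ => (Df (A i) (B i) (C i) x).re) (cx ξ) :=
    Complex.continuous_re.continuousAt.comp (an_Df _ _ _ _).continuousAt
  have p1 : 0 < (aeval (cx ξ) (A i) : ℂ).re := by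
    rw [aeval_cx, Complex.ofReal_re]
    exact h.pos i
  have p2 : 0 < (Df (A i) (B i) (C i) (cx ξ)).re := by
    rw [Df_cx, Complex.ofReal_re]
    exact h.dpos i
  have c3 : ContinuousAt (fun x : Fin m → ℂ => (Tf (A i) (B i) (C i) x).im) (cx ξ) :=
    Complex.continuous_im.continuousAt.comp (an_Tf _ _ _ (by
      intro h0
      rw [h0] at p1
      exact lt_irrefl _ p1) (Or.inl p2)).continuousAt
  have p3 : 0 < (Tf (A i) (B i) (C i) (cx ξ)).im := by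
    rw [h.val i]
    exact h.im i
  filter_upwards [c1.tendsto.eventually (lt_mem_nhds p1), c2.tendsto.eventually (lt_mem_nhds p2),
    c3.tendsto.eventually (lt_mem_nhds p3)] with x h1 h2 h3
  exact ⟨h1, h2, h3⟩

/-- the function of a relation -/
def Ff (A B C : Fin n → MvPolynomial (Fin m) ℤ) (F : MvPolynomial (Fin m ⊕ Fin n) ℤ) (x : Fin m → ℂ) : ℂ :=
  aeval (Sum.elim x fun i => jf (Tf (A i) (B i) (C i) x)) F

theorem an_Ff {x : Fin m → ℂ} (hA : ∀ i, 0 < (aeval x (A i) : ℂ).re) (hD : ∀ i, 0 < (Df (A i) (B i) (C i) x).re)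
    (hT : ∀ i, 0 < (Tf (A i) (B i) (C i) x).im) (F : MvPolynomial (Fin m ⊕ Fin n) ℤ) : AnalyticAt ℂ (Ff A B C F) x := by
  refine AnalyticAt.aeval_mvPolynomial (f := fun x : Fin m → ℂ => Sum.elim x fun i => jf (Tf (A i) (B i) (C i) x)) ?_ F
  rintro (i | i)
  · exact (ContinuousLinearMap.proj (R := ℂ) (φ := fun _ : Fin m => ℂ) i).analyticAt x
  · have h0 : aeval x (A i) ≠ (0 : ℂ) := by
      intro h0
      have := hA i
      rw [h0] at this
      exact lt_irrefl _ this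
    exact AnalyticAt.fun_comp (g := jf) (f := Tf (A i) (B i) (C i)) (Pool.Agent.Y776.AxJ.an_j _ (hT i))
      (an_Tf _ _ _ h0 (Or.inl (hD i)))

/-- the degrees -/
def dg (A B C : Fin n → MvPolynomial (Fin m) ℤ) : ℕ :=
  ∑ i, ((A i).totalDegree + (B i).totalDegree + (C i).totalDegree)

theorem dg_le (A B C : Fin n → MvPolynomial (Fin m) ℤ) (i : Fin n) :
    (A i).totalDegree ≤ dg A B C ∧ (B i).totalDegree ≤ dg A B C ∧ (C i).totalDegree ≤ dg A B C := by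
  have h1 : (A i).totalDegree + (B i).totalDegree + (C i).totalDegree ≤ dg A B C :=
    Finset.single_le_sum (f := fun i => (A i).totalDegree + (B i).totalDegree + (C i).totalDegree)
      (fun _ _ => Nat.zero_le _) (Finset.mem_univ i)
  omega

/-- the values at a rational point are CM -/
theorem val_pt {M : ℝ} {k₁ : ℕ} (hk : M ≤ 2 ^ k₁) {q : ℕ} (hq : 2 ≤ q) {p : Fin m → ℤ} {a : Fin m → ℝ}
    (ha : a = fun i => (p i : ℝ) / q) (i : Fin n) (hA : 0 < aeval a (A i))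
    (hA' : |aeval a (A i)| ≤ M) (hB' : |aeval a (B i)| ≤ M) (hC' : |aeval a (C i)| ≤ M)
    (hT : 0 < (Tf (A i) (B i) (C i) (cx a)).im) : ∃ u v w : ℤ, u ≠ 0 ∧
      |u| ≤ ((q ^ (dg A B C + k₁ + 1) : ℕ) : ℤ) ∧ |v| ≤ ((q ^ (dg A B C + k₁ + 1) : ℕ) : ℤ) ∧
      |w| ≤ ((q ^ (dg A B C + k₁ + 1) : ℕ) : ℤ) ∧
      (u : ℂ) * Tf (A i) (B i) (C i) (cx a) ^ 2 + v * Tf (A i) (B i) (C i) (cx a) + w = 0 := by
  subst ha
  have hq0 : q ≠ 0 := by omega
  obtain ⟨u, hu⟩ := exists_int (A i) (dg_le A B C i).1 hq0 p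
  obtain ⟨v, hv⟩ := exists_int (B i) (dg_le A B C i).2.1 hq0 p
  obtain ⟨w, hw⟩ := exists_int (C i) (dg_le A B C i).2.2 hq0 p
  set a : Fin m → ℝ := fun i => (p i : ℝ) / q with ha
  have hqr : (2 : ℝ) ≤ q := by exact_mod_cast hq
  have hq1 : (1 : ℝ) ≤ q := by linarith
  have hqp : (0 : ℝ) < (q : ℝ) ^ (dg A B C) := by positivity
  have bd : ∀ (x : ℤ) (y : ℝ), (x : ℝ) = (q : ℝ) ^ dg A B C * y → |y| ≤ M → |x| ≤ ((q ^ (dg A B C + k₁ + 1) : ℕ) : ℤ) := by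
    intro x y hxy hy
    have h1 : |(x : ℝ)| ≤ (q : ℝ) ^ (dg A B C + k₁ + 1) := by
      rw [hxy, abs_mul, abs_of_pos hqp, add_assoc, pow_add]
      refine mul_le_mul_of_nonneg_left ?_ hqp.le
      calc |y| ≤ M := hy
        _ ≤ 2 ^ k₁ := hk
        _ ≤ (q : ℝ) ^ k₁ := pow_le_pow_left₀ (by norm_num) hqr _
        _ ≤ (q : ℝ) ^ (k₁ + 1) := pow_le_pow_right₀ hq1 (by omega)
    have h2 : ((|x| : ℤ) : ℝ) ≤ (((q ^ (dg A B C + k₁ + 1) : ℕ) : ℤ) : ℝ) := by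
      push_cast
      exact h1
    exact_mod_cast h2
  refine ⟨u, v, w, ?_, bd u _ hu hA', bd v _ hv hB', bd w _ hw hC', ?_⟩
  · rintro rfl
    have : (0 : ℝ) < (q : ℝ) ^ dg A B C * aeval a (A i) := mul_pos hqp hA
    rw [← hu] at this
    exact lt_irrefl _ (by exact_mod_cast this)
  · have h1 := rt_root (a := ((aeval a (A i) : ℝ) : ℂ)) (b := ((aeval a (B i) : ℝ) : ℂ)) (c := ((aeval a (C i) : ℝ) : ℂ))
      (by exact_mod_cast hA.ne')
    rw [← Tf_eq] at h1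
    have hu' : (u : ℂ) = (q : ℂ) ^ dg A B C * ((aeval a (A i) : ℝ) : ℂ) := by
      rw [← Complex.ofReal_intCast, hu]
      push_cast
      rfl
    have hv' : (v : ℂ) = (q : ℂ) ^ dg A B C * ((aeval a (B i) : ℝ) : ℂ) := by
      rw [← Complex.ofReal_intCast, hv]
      push_cast
      rfl
    have hw' : (w : ℂ) = (q : ℂ) ^ dg A B C * ((aeval a (C i) : ℝ) : ℂ) := by
      rw [← Complex.ofReal_intCast, hw]
      push_cast
      rfl
    rw [hu', hv', hw']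
    linear_combination (q : ℂ) ^ dg A B C * h1

end Pool.Agent.NH23.Core
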