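import Pool.Agent.NH23.CoreB

/-!
# No relations at a point with good approximations
-/

set_option autoImplicit false

open Filter Topology MvPolynomial UpperHalfPlane

noncomputable section

namespace Pool.Agent.NH23.Core

open Pool.Agent.NH23.Qua
open Pool.Agent.NH23.Pair (Alg)
open Pool.Agent.NH23.Tup (Tpl)
open H294ZP (jj)
open Pool.Agent.Y776 (jf)

variable {m n : ℕ} {ξ : Fin m → ℝ} {A B C : Fin n → MvPolynomial (Fin m) ℤ} {z : Fin n → ℂ}

theorem hom_aeval {σ : Type} {S : Type} [CommRing S] [Algebra ℤ S] (φ : S →+* ℂ) (g : σ → S) (P : MvPolynomial σ ℤ) :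
    φ (aeval g P) = aeval (fun k => φ (g k)) P := by
  rw [MvPolynomial.map_aeval, MvPolynomial.aeval_def, MvPolynomial.coe_eval₂Hom]
  congr 1
  exact Subsingleton.elim _ _

/-- the polynomial `A z ^ 2 + B z + C` -/
def Qf (A B C' : MvPolynomial (Fin m) ℤ) (z : ℂ) : MvPolynomial (Fin m) ℂ :=
  MvPolynomial.C (z ^ 2) * map (algebraMap ℤ ℂ) A + MvPolynomial.C z * map (algebraMap ℤ ℂ) B +
    map (algebraMap ℤ ℂ) C'

theorem Qf_eval (A B C' : MvPolynomial (Fin m) ℤ) (z : ℂ) (x : Fin m → ℂ) :
    eval x (Qf A B C' z) = aeval x A * z ^ 2 + aeval x B * z + aeval x C' := by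
  rw [Qf, map_add, map_add, map_mul, map_mul, eval_C, eval_C, eval_map, eval_map, eval_map, aeval_def, aeval_def,
    aeval_def]
  ring

theorem Qf_ne {A B C' : MvPolynomial (Fin m) ℤ} {z : ℂ} (hA : A ≠ 0)
    (hz : ∀ a b c : ℤ, (a : ℂ) * z ^ 2 + b * z + c = 0 → a = 0) : Qf A B C' z ≠ 0 := by
  intro h0
  apply hA
  ext e
  have h1 := congrArg (MvPolynomial.coeff e) h0
  rw [Qf, coeff_add, coeff_add, coeff_C_mul, coeff_C_mul, coeff_map, coeff_map, coeff_map, coeff_zero] at h1
  simp only [algebraMap_int_eq, eq_intCast] at h1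
  rw [coeff_zero]
  exact hz _ (B.coeff e) (C'.coeff e) (by linear_combination h1)

theorem core2 (hξ : Hc ξ) (h : Qd ξ A B C z)
    (hcm : ∀ i, ∀ a b c : ℤ, (a : ℂ) * z i ^ 2 + b * z i + c = 0 → a = 0)
    (hine : ∀ i k, i ≠ k → ∀ a b c d : ℚ, 0 < a * d - b * c → z k * (c * z i + d) ≠ a * z i + b)
    (F : MvPolynomial (Fin m ⊕ Fin n) ℤ) (h0 : aeval (Sum.elim (cx ξ) fun i => jf (z i)) F = (0 : ℂ)) :
    ∀ y : Fin n → ℂ, aeval (Sum.elim (cx ξ) y) F = (0 : ℂ) := by
  classical
  have hF0 : Ff A B C F (cx ξ) = 0 := by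
    rw [Ff, ← h0]
    congr 2
    congr 1
    funext i
    rw [h.val i]
  have hev := (core1 hξ h F hF0).and h.ev
  -- the direction
  have hA0 : ∀ i, A i ≠ 0 := by
    intro i hi
    have := h.pos i
    rw [hi, map_zero] at this
    exact lt_irrefl _ this
  obtain ⟨x₀, hx₀⟩ : ∃ x₀ : Fin m → ℂ, eval x₀ (∏ i, Qf (A i) (B i) (C i) (z i)) ≠ 0 := by
    by_contra hcon
    push Not at hcon
    have h1 : (∏ i, Qf (A i) (B i) (C i) (z i)) = 0 := MvPolynomial.funext fun x => by rw [hcon x, map_zero]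
    obtain ⟨i, _, hi⟩ := Finset.prod_eq_zero_iff.1 h1
    exact Qf_ne (hA0 i) (hcm i) hi
  rw [map_prod] at hx₀
  have hx : ∀ i, eval x₀ (Qf (A i) (B i) (C i) (z i)) ≠ 0 := fun i hi =>
    hx₀ (Finset.prod_eq_zero (Finset.mem_univ i) hi)
  set l : ℂ → Fin m → ℂ := fun t k => cx ξ k + t * (x₀ k - cx ξ k) with hl
  have hlan : ∀ t, AnalyticAt ℂ l t := by
    intro t
    rw [analyticAt_pi_iff]
    intro k
    exact analyticAt_const.add (analyticAt_id.mul analyticAt_const)
  have hl0 : l 0 = cx ξ := by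
    funext k
    simp [hl]
  have hl1 : l 1 = x₀ := by
    funext k
    simp [hl]
  have hlt : Tendsto l (𝓝 0) (𝓝 (cx ξ)) := by
    have := (hlan 0).continuousAt.tendsto
    rwa [hl0] at this
  obtain ⟨r, hr, hball⟩ := Metric.eventually_nhds_iff_ball.1 (hlt.eventually hev)
  set U := Metric.ball (0 : ℂ) r with hU
  have h0U : (0 : ℂ) ∈ U := Metric.mem_ball_self hr
  set τ : Fin n → ℂ → ℂ := fun i t => Tf (A i) (B i) (C i) (l t) with hτ
  have hτ0 : ∀ i, τ i 0 = z i := by
    intro i
    rw [hτ]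
    simp only
    rw [hl0]
    exact h.val i
  have hAne : ∀ i, ∀ t ∈ U, aeval (l t) (A i) ≠ (0 : ℂ) := by
    intro i t ht h1
    have h2 := ((hball t ht).2 i).1
    rw [h1] at h2
    exact lt_irrefl _ h2
  have hroot : ∀ i, ∀ t ∈ U, aeval (l t) (A i) * τ i t ^ 2 + aeval (l t) (B i) * τ i t + aeval (l t) (C i) = 0 :=
    fun i t ht => rt_root (hAne i t ht)
  have hlev : ∀ (R : Type) [CommRing R] [Algebra ℤ R] (φ : R →+* ℂ) (g : Fin m → R) (t : ℂ) (P : MvPolynomial (Fin m) ℤ),
      (∀ k, φ (g k) = l t k) → φ (aeval g P) = aeval (l t) P := by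
    intro R _ _ φ g t P hg
    rw [hom_aeval]
    congr 2
    exact funext hg
  have htpl : Tpl U τ :=
    { op := Metric.isOpen_ball
      conn := (convex_ball _ _).isPreconnected
      ne := ⟨0, h0U⟩
      an := fun i t ht => AnalyticAt.fun_comp (g := Tf (A i) (B i) (C i)) (f := l)
        (an_Tf _ _ _ (hAne i t ht) (Or.inl ((hball t ht).2 i).2.1)) (hlan t)
      im := fun i t ht => ((hball t ht).2 i).2.2
      nc := by
        intro i c
        by_contra hcon
        push Not at hcon
        have hc : c = z i := by rw [← hcon 0 h0U, hτ0]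
        subst hc
        have han : AnalyticOnNhd ℂ (fun t => eval (l t) (Qf (A i) (B i) (C i) (z i))) Set.univ := by
          intro t _
          have h1 := (AnalyticOnNhd.eval_mvPolynomial (𝕜 := ℂ) (Qf (A i) (B i) (C i) (z i))) (l t) (Set.mem_univ _)
          exact AnalyticAt.fun_comp (g := fun x => eval x (Qf (A i) (B i) (C i) (z i))) (f := l) h1 (hlan t)
        have h1 := han.eqOn_zero_of_preconnected_of_eventuallyEq_zero isPreconnected_univ (Set.mem_univ (0 : ℂ)) (by
          filter_upwards [Metric.isOpen_ball.mem_nhds h0U] with t ht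
          have h2 := hroot i t ht
          rw [hcon t ht] at h2
          rw [Qf_eval, h2]
          rfl)
        have h2 := h1 (Set.mem_univ (1 : ℂ))
        simp only [Pi.zero_apply] at h2
        rw [hl1] at h2
        exact hx i h2
      alg := by
        intro i
        set g : Fin m → MvPolynomial (Fin 2) ℂ := fun k => MvPolynomial.C (cx ξ k) + X 0 * MvPolynomial.C (x₀ k - cx ξ k)
          with hg
        have hgt : ∀ t s : ℂ, ∀ k, eval ![t, s] (g k) = l t k := by
          intro t s k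
          simp [hg, hl]
        have hG : ∀ t s : ℂ, eval ![t, s] (aeval g (A i) * X 1 ^ 2 + aeval g (B i) * X 1 + aeval g (C i)) =
            aeval (l t) (A i) * s ^ 2 + aeval (l t) (B i) * s + aeval (l t) (C i) := by
          intro t s
          rw [map_add, map_add, map_mul, map_mul, map_pow, eval_X, hlev _ _ g t (A i) (hgt t s),
            hlev _ _ g t (B i) (hgt t s), hlev _ _ g t (C i) (hgt t s)]
          rfl
        refine ⟨aeval g (A i) * X 1 ^ 2 + aeval g (B i) * X 1 + aeval g (C i), ?_, ?_⟩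
        · intro hz
          have e0 := hG 0 0
          have e1 := hG 0 1
          have e2 := hG 0 (-1)
          rw [hz, map_zero] at e0 e1 e2
          apply hAne i 0 h0U
          linear_combination (-1 / 2 : ℂ) * e1 + (-1 / 2 : ℂ) * e2 + e0
        · intro t ht
          rw [hG]
          exact hroot i t ht
      inc := by
        intro i k hik a b c d hdet
        refine ⟨0, h0U, ?_⟩
        rw [hτ0, hτ0]
        exact hine i k hik a b c d hdet }
  have hloc := htpl.loc 0 h0U
  set G : Fin m ⊕ Fin n → MvPolynomial (Option (Fin n)) ℂ :=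
    Sum.elim (fun k => MvPolynomial.C (cx ξ k) + X none * MvPolynomial.C (x₀ k - cx ξ k)) (fun i => X (some i)) with hG
  have hGev : ∀ (t : ℂ) (y : Fin n → ℂ), eval (fun o : Option (Fin n) => o.elim t y) (aeval G F) =
      aeval (Sum.elim (l t) y) F := by
    intro t y
    rw [hom_aeval]
    congr 2
    funext k
    rcases k with k | k
    · simp [hG, hl]
    · simp [hG]
  have hR : aeval G F = 0 := by
    apply hloc
    filter_upwards [Metric.isOpen_ball.mem_nhds h0U] with t ht
    rw [hGev]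
    exact (hball t ht).1
  intro y
  have h1 := hGev 0 y
  rw [hR, map_zero, hl0] at h1
  exact h1.symm

end Pool.Agent.NH23.Core
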