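import Pool.Agent.NH23.Inj

/-!
# Möbius transformations `g` with `j (t)` and `j (g t)` algebraically dependent
-/

set_option autoImplicit false

open Filter Topology Polynomial Metric

noncomputable section

namespace Pool.Agent.NH23.Cross

open Pool.Agent.Y776 (jf)
open Pool.Agent.Y776.AxJ (isOpen_H preconn_H an_j)
open Pool.Agent.NH23.Inj

/-- the value of a polynomial in two variables -/
def ev2 (Q : ℂ[X][X]) (x y : ℂ) : ℂ := ∑ k ∈ Finset.range (Q.natDegree + 1), (Q.coeff k).eval x * y ^ k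

theorem ev2_an (Q : ℂ[X][X]) {f g : ℂ → ℂ} {z : ℂ} (hf : AnalyticAt ℂ f z) (hg : AnalyticAt ℂ g z) :
    AnalyticAt ℂ (fun u => ev2 Q (f u) (g u)) z := by
  unfold ev2
  refine Finset.analyticAt_fun_sum _ fun k _ => AnalyticAt.mul ?_ (hg.pow k)
  have := (Q.coeff k).differentiable.analyticAt (f z)
  exact this.comp hf

theorem lead_small {K : ℕ} {l : Filter ℝ} {a : ℕ → ℝ → ℂ} {y : ℝ → ℂ} {A : ℕ → ℂ}
    (ha : ∀ k, Tendsto (a k) l (𝓝 (A k))) (hy : Tendsto (fun ε => ‖y ε‖) l atTop)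
    (h : ∀ᶠ ε in l, ∑ k ∈ Finset.range (K + 1), a k ε * y ε ^ k = 0) : Tendsto (a K) l (𝓝 0) := by
  have hyi : Tendsto (fun ε => (y ε)⁻¹) l (𝓝 0) := by
    rw [tendsto_zero_iff_norm_tendsto_zero]
    refine (tendsto_inv_atTop_zero.comp hy).congr fun ε => ?_
    simp
  have h1 : Tendsto (fun ε => -∑ k ∈ Finset.range K, a k ε * (y ε)⁻¹ ^ (K - k)) l
      (𝓝 (-∑ k ∈ Finset.range K, A k * 0 ^ (K - k))) :=
    (tendsto_finsetSum _ fun k _ => (ha k).mul (hyi.pow _)).neg
  have h2 : -∑ k ∈ Finset.range K, A k * (0 : ℂ) ^ (K - k) = 0 := by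
    rw [Finset.sum_eq_zero, neg_zero]
    intro k hk
    have := Finset.mem_range.1 hk
    rw [zero_pow (by omega), mul_zero]
  rw [h2] at h1
  refine h1.congr' ?_
  filter_upwards [h, hy.eventually_gt_atTop 0] with ε h3 h4
  have hy0 : y ε ≠ 0 := norm_pos_iff.1 h4
  rw [Finset.sum_range_succ] at h3
  have h5 : a K ε * y ε ^ K = -∑ k ∈ Finset.range K, a k ε * y ε ^ k := by linear_combination h3
  have h6 : y ε ^ K ≠ 0 := pow_ne_zero _ hy0
  apply mul_right_cancel₀ h6
  rw [h5, neg_mul, Finset.sum_mul]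
  congr 1
  refine Finset.sum_congr rfl fun k hk => ?_
  have hk' : k ≤ K := (Finset.mem_range.1 hk).le
  rw [mul_assoc, inv_pow, ← pow_sub_mul_pow (y ε) hk', ← mul_assoc ((y ε ^ (K - k))⁻¹),
    inv_mul_cancel₀ (pow_ne_zero _ hy0), one_mul]

/-- a non-zero polynomial in `j` -/
theorem poly_ne {p : ℂ[X]} (hp : p ≠ 0) {τ : ℂ} (hτ : 0 < τ.im) : ¬ ∀ᶠ t in 𝓝 τ, p.eval (jf t) = 0 := by
  intro h
  have han : AnalyticOnNhd ℂ (fun t => p.eval (jf t)) {t : ℂ | 0 < t.im} := by
    intro t ht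
    exact (p.differentiable.analyticAt (jf t)).comp (an_j t ht)
  have h1 := han.eqOn_zero_of_preconnected_of_eventuallyEq_zero preconn_H hτ h
  apply hp
  apply Polynomial.eq_zero_of_infinite_isRoot
  refine jf_infinite.mono ?_
  rintro _ ⟨t, ht, rfl⟩
  exact h1 ht

/-- **the boundary** -/
theorem bd {Q : ℂ[X][X]} (hQ : Q ≠ 0) {x₀ : ℝ} {h : ℂ → ℂ} (hh : AnalyticAt ℂ h x₀) (him : 0 < (h x₀).im)
    (hnc : ¬ ∀ᶠ u in 𝓝 (x₀ : ℂ), h u = h x₀)
    (hrel : ∀ᶠ u in 𝓝 (x₀ : ℂ), 0 < u.im → ev2 Q (jf (h u)) (jf u) = 0) : False := by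
  set φ : ℂ → ℂ := fun u => (Q.leadingCoeff).eval (jf (h u)) with hφ
  have hcoef : ∀ k, ∀ u : ℂ, AnalyticAt ℂ h u → 0 < (h u).im → AnalyticAt ℂ (fun u => (Q.coeff k).eval (jf (h u))) u := by
    intro k u hu hu2
    have h1 := (Q.coeff k).differentiable.analyticAt (jf (h u))
    exact AnalyticAt.comp (g := fun x => (Q.coeff k).eval x) (f := fun u => jf (h u)) h1
      (AnalyticAt.comp (g := jf) (f := h) (an_j _ hu2) hu)
  have hφa : AnalyticAt ℂ φ x₀ := hcoef Q.natDegree _ hh him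
  have hW : ∀ᶠ u in 𝓝 (x₀ : ℂ), AnalyticAt ℂ h u ∧ 0 < (h u).im ∧ (0 < u.im → ev2 Q (jf (h u)) (jf u) = 0) := by
    refine hh.eventually_analyticAt.and (Eventually.and ?_ hrel)
    exact (Complex.continuous_im.continuousAt.comp hh.continuousAt).eventually (lt_mem_nhds him)
  obtain ⟨δ, hδ, hball⟩ := Metric.eventually_nhds_iff.1 hW
  have hrat : ∀ r : ℚ, |(r : ℝ) - x₀| < δ → φ r = 0 := by
    intro r hr
    have hdr : dist (r : ℂ) (x₀ : ℂ) < δ := by
      rw [Complex.dist_eq]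
      have : (r : ℂ) - (x₀ : ℂ) = (((r : ℝ) - x₀ : ℝ) : ℂ) := by push_cast; rfl
      rw [this, Complex.norm_real]
      exact hr
    obtain ⟨r1, r2, -⟩ := hball hdr
    have hpath : Tendsto (fun ε : ℝ => (r : ℂ) + ε * Complex.I) (𝓝[>] 0) (𝓝 (r : ℂ)) := by
      have : Continuous fun ε : ℝ => (r : ℂ) + ε * Complex.I := by fun_prop
      have h2 := this.tendsto 0
      simp only [Complex.ofReal_zero, zero_mul, add_zero] at h2
      exact h2.mono_left nhdsWithin_le_nhds
    have hlim : ∀ k, Tendsto (fun ε : ℝ => (Q.coeff k).eval (jf (h ((r : ℂ) + ε * Complex.I)))) (𝓝[>] 0)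
        (𝓝 ((Q.coeff k).eval (jf (h r)))) := fun k =>
      (hcoef k _ r1 r2).continuousAt.tendsto.comp hpath
    have hev : ∀ᶠ ε : ℝ in 𝓝[>] 0, ∑ k ∈ Finset.range (Q.natDegree + 1),
        (Q.coeff k).eval (jf (h ((r : ℂ) + ε * Complex.I))) * (jf ((r : ℂ) + ε * Complex.I)) ^ k = 0 := by
      have h3 : ∀ᶠ ε : ℝ in 𝓝[>] 0, dist ((r : ℂ) + ε * Complex.I) (x₀ : ℂ) < δ :=
        hpath.eventually (Metric.isOpen_ball.mem_nhds hdr)
      filter_upwards [h3, self_mem_nhdsWithin] with ε h4 h5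
      refine (hball h4).2.2 ?_
      rw [Complex.add_im, Complex.im_ofReal_mul, Complex.I_im, mul_one, Complex.ratCast_im, zero_add]
      exact h5
    have h6 := lead_small (K := Q.natDegree) hlim (jf_rat r) hev
    exact tendsto_nhds_unique (hlim Q.natDegree) h6
  have hφ0 : ∀ᶠ u in 𝓝 (x₀ : ℂ), φ u = 0 := by
    rw [← hφa.frequently_zero_iff_eventually_zero]
    rw [frequently_iff]
    intro U hU
    obtain ⟨V, hV, hVU⟩ := mem_nhdsWithin_iff_exists_mem_nhds_inter.1 hU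
    obtain ⟨ε, hε, hεV⟩ := Metric.mem_nhds_iff.1 hV
    obtain ⟨r, hr1, hr2⟩ := exists_rat_btwn (show x₀ < x₀ + min ε δ by
      have : 0 < min ε δ := lt_min hε hδ
      linarith)
    have hr3 : |(r : ℝ) - x₀| < min ε δ := by
      rw [abs_of_pos (by linarith)]
      linarith
    refine ⟨(r : ℂ), hVU ⟨hεV ?_, ?_⟩, hrat r (hr3.trans_le (min_le_right _ _))⟩
    · rw [Metric.mem_ball, Complex.dist_eq]
      have : (r : ℂ) - (x₀ : ℂ) = (((r : ℝ) - x₀ : ℝ) : ℂ) := by push_cast; rfl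
      rw [this, Complex.norm_real]
      exact hr3.trans_le (min_le_left _ _)
    · intro h0
      rw [Set.mem_singleton_iff] at h0
      have : (r : ℝ) = x₀ := by exact_mod_cast h0
      linarith
  rcases hh.eventually_constant_or_nhds_le_map_nhds with h1 | h1
  · exact hnc h1
  · have h3 : ∀ᶠ t in map h (𝓝 (x₀ : ℂ)), (Q.leadingCoeff).eval (jf t) = 0 := by
      rw [eventually_map]
      exact hφ0
    have h2 : ∀ᶠ t in 𝓝 (h x₀), (Q.leadingCoeff).eval (jf t) = 0 := h3.filter_mono h1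
    exact poly_ne (leadingCoeff_ne_zero.2 hQ) him h2

/-- the Möbius transformation -/
def mb (a b c d t : ℂ) : ℂ := (a * t + b) / (c * t + d)

theorem mb_an {a b c d t : ℂ} (h : c * t + d ≠ 0) : AnalyticAt ℂ (mb a b c d) t := by
  unfold mb
  exact ((analyticAt_const.mul analyticAt_id).add analyticAt_const).fun_div
    ((analyticAt_const.mul analyticAt_id).add analyticAt_const) h

variable {a b c d : ℂ}

theorem mb_inv (hdet : a * d - b * c ≠ 0) {t : ℂ} (h : c * t + d ≠ 0) :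
    -c * mb a b c d t + a ≠ 0 ∧ mb d (-b) (-c) a (mb a b c d t) = t := by
  have h3 : mb a b c d t * (c * t + d) = a * t + b := div_mul_cancel₀ _ h
  have h1 : -c * mb a b c d t + a = (a * d - b * c) / (c * t + d) := by
    rw [eq_div_iff h]
    linear_combination (-c) * h3
  have h2 : d * mb a b c d t + -b = (a * d - b * c) * t / (c * t + d) := by
    rw [eq_div_iff h]
    linear_combination d * h3
  refine ⟨by rw [h1]; exact div_ne_zero hdet h, ?_⟩
  rw [mb, h1, h2]
  field_simp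

/-- no accumulation at a regular boundary point -/
theorem no_bd {Q : ℂ[X][X]} (hQ : Q ≠ 0) (hdet : a * d - b * c ≠ 0) {t₀ : ℂ} (ht₀ : 0 < t₀.im) (h0 : c * t₀ + d ≠ 0)
    (hreal : (mb a b c d t₀).im = 0)
    (hfr : ∃ᶠ t in 𝓝 t₀, 0 < (mb a b c d t).im ∧ ∀ᶠ s in 𝓝 t, ev2 Q (jf s) (jf (mb a b c d s)) = 0) : False := by
  set g := mb a b c d with hg
  set h := mb d (-b) (-c) a with hh
  set x₀ : ℝ := (g t₀).re with hx₀
  have hgx : g t₀ = (x₀ : ℂ) := Complex.ext rfl (by rw [hreal, Complex.ofReal_im])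
  obtain ⟨i1, i2⟩ := mb_inv hdet h0
  rw [← hg, hgx] at i1 i2
  rw [← hh] at i2
  have hha : AnalyticAt ℂ h x₀ := mb_an i1
  have him : 0 < (h x₀).im := by rw [i2]; exact ht₀
  have hdet' : d * a - (-b) * (-c) ≠ 0 := by
    intro h3; apply hdet; linear_combination h3
  -- `g (h u) = u` near `x₀`
  have hne : ∀ᶠ u in 𝓝 (x₀ : ℂ), -c * u + a ≠ 0 := by
    have : ContinuousAt (fun u : ℂ => -c * u + a) x₀ := by fun_prop
    exact this.eventually_ne i1
  have hgh : ∀ u : ℂ, -c * u + a ≠ 0 → g (h u) = u := by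
    intro u hu
    have := (mb_inv hdet' hu).2
    rw [neg_neg, neg_neg] at this
    exact this
  have hnc : ¬ ∀ᶠ u in 𝓝 (x₀ : ℂ), h u = h x₀ := by
    intro hc
    have h3 : ∀ᶠ u : ℂ in 𝓝 (x₀ : ℂ), u = (x₀ : ℂ) := by
      filter_upwards [hc, hne] with u hu hu2
      rw [← hgh u hu2, hu, i2, hgx]
    have h4 := (h3.filter_mono (nhdsWithin_le_nhds (s := {(x₀ : ℂ)}ᶜ))).and self_mem_nhdsWithin
    obtain ⟨u, hu1, hu2⟩ := h4.exists
    exact hu2 hu1
  refine bd hQ hha him hnc ?_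
  -- a half disc
  have hW : ∀ᶠ u in 𝓝 (x₀ : ℂ), -c * u + a ≠ 0 ∧ 0 < (h u).im := hne.and
    ((Complex.continuous_im.continuousAt.comp hha.continuousAt).eventually (lt_mem_nhds him))
  obtain ⟨r, hr, hball⟩ := Metric.eventually_nhds_iff_ball.1 hW
  set F : ℂ → ℂ := fun u => ev2 Q (jf (h u)) (jf u) with hF
  set D : Set ℂ := ball (x₀ : ℂ) r ∩ {u : ℂ | 0 < u.im} with hD
  have hFD : AnalyticOnNhd ℂ F D := by
    intro u hu
    obtain ⟨h3, h4⟩ := hball u hu.1
    exact ev2_an Q (AnalyticAt.comp (g := jf) (f := h) (an_j _ h4) (mb_an h3)) (an_j u hu.2)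
  have hDc : IsPreconnected D := ((convex_ball _ _).inter (convex_halfSpace_im_gt 0)).isPreconnected
  -- a point where the function vanishes
  have hga : ContinuousAt g t₀ := (mb_an h0).continuousAt
  have h5 : ∀ᶠ t in 𝓝 t₀, c * t + d ≠ 0 ∧ g t ∈ ball (x₀ : ℂ) r := by
    have e1 : ContinuousAt (fun t : ℂ => c * t + d) t₀ := by fun_prop
    refine (e1.eventually_ne h0).and (hga.eventually (isOpen_ball.mem_nhds ?_))
    rw [hgx]
    exact mem_ball_self hr
  obtain ⟨t, ⟨h6, h7⟩, h8, h9⟩ := (hfr.and_eventually h5).exists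
  have hmem : g t ∈ D := ⟨h9, h6⟩
  have hz : F =ᶠ[𝓝 (g t)] 0 := by
    obtain ⟨i3, i4⟩ := mb_inv hdet h8
    rw [← hg] at i3 i4
    rw [← hh] at i4
    have e2 : Tendsto h (𝓝 (g t)) (𝓝 t) := by
      have := (mb_an (a := d) (b := -b) i3).continuousAt.tendsto
      rw [← hh, i4] at this
      exact this
    have e3 : ∀ᶠ u in 𝓝 (g t), -c * u + a ≠ 0 := by
      have : ContinuousAt (fun u : ℂ => -c * u + a) (g t) := by fun_prop
      exact this.eventually_ne i3
    filter_upwards [e2.eventually h7, e3] with u hu hu2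
    rw [hgh u hu2] at hu
    exact hu
  have hall := hFD.eqOn_zero_of_preconnected_of_eventuallyEq_zero hDc hmem hz
  filter_upwards [ball_mem_nhds (x₀ : ℂ) hr] with u hu hu2
  exact hall ⟨hu, hu2⟩

/-- **the crossing lemma** -/
theorem cross {Q : ℂ[X][X]} (hQ : Q ≠ 0) (hdet : a * d - b * c ≠ 0) {t₁ : ℂ} (ht₁ : 0 < t₁.im) (h1 : c * t₁ + d ≠ 0)
    (hg1 : 0 < (mb a b c d t₁).im) (hrel : ∀ᶠ s in 𝓝 t₁, ev2 Q (jf s) (jf (mb a b c d s)) = 0) :
    ∀ t : ℂ, 0 < t.im → c * t + d ≠ 0 ∧ 0 < (mb a b c d t).im ∧ ∀ᶠ s in 𝓝 t, ev2 Q (jf s) (jf (mb a b c d s)) = 0 := by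
  set S : Set ℂ := {t | c * t + d ≠ 0 ∧ 0 < (mb a b c d t).im ∧ ∀ᶠ s in 𝓝 t, ev2 Q (jf s) (jf (mb a b c d s)) = 0} with hS
  have hSo : IsOpen S := by
    rw [isOpen_iff_mem_nhds]
    rintro t ⟨e1, e2, e3⟩
    have c1 : ContinuousAt (fun t : ℂ => c * t + d) t := by fun_prop
    have c2 : ContinuousAt (mb a b c d) t := (mb_an e1).continuousAt
    filter_upwards [c1.eventually_ne e1, (Complex.continuous_im.continuousAt.comp c2).eventually (lt_mem_nhds e2),
      e3.eventually_nhds] with u h2 h3 h4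
    exact ⟨h2, h3, h4⟩
  suffices h : {t : ℂ | 0 < t.im} ⊆ S from fun t ht => h ht
  refine preconn_H.subset_of_closure_inter_subset hSo ⟨t₁, ht₁, h1, hg1, hrel⟩ ?_
  rintro t₀ ⟨hcl, ht₀⟩
  rw [mem_closure_iff_frequently] at hcl
  have ht₀' : 0 < t₀.im := ht₀
  by_cases h0 : c * t₀ + d = 0
  · -- the transformation `-1 / g`
    exfalso
    have hc : c ≠ 0 := by
      rintro rfl
      rw [zero_mul, zero_add] at h0
      apply hdet
      rw [h0]
      ring
    have hat : a * t₀ + b ≠ 0 := by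
      intro h2
      apply hdet
      have : c * (a * t₀ + b) - a * (c * t₀ + d) = 0 := by rw [h2, h0]; ring
      linear_combination (-1 : ℂ) * this
    have hdet' : (-c) * b - (-d) * a ≠ 0 := by
      intro h2; apply hdet; linear_combination h2
    have hz0 : (mb (-c) (-d) a b t₀).im = 0 := by
      have : -c * t₀ + -d = 0 := by linear_combination (-1 : ℂ) * h0
      rw [mb, this, zero_div, Complex.zero_im]
    have key : ∀ t : ℂ, c * t + d ≠ 0 → 0 < (mb a b c d t).im → 0 < (mb (-c) (-d) a b t).im ∧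
        jf (mb (-c) (-d) a b t) = jf (mb a b c d t) := by
      intro t e1 e2
      set u := mb a b c d t with hu
      have hu0 : u ≠ 0 := by
        intro h2
        rw [h2] at e2
        simp at e2
      have e3 : mb (-c) (-d) a b t = -1 / u := by
        have e4 : a * t + b ≠ 0 := by
          intro h2
          apply hu0
          rw [hu, mb, h2, zero_div]
        rw [hu, mb, mb]
        field_simp
        ring
      have e5 : 0 < (-1 / u).im := by
        rw [neg_div, one_div, Complex.neg_im, Complex.inv_im]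
        have := Complex.normSq_pos.2 hu0
        rw [neg_div, neg_neg]
        positivity
      rw [e3]
      refine ⟨e5, ?_⟩
      refine jf_inv (a := 0) (b := -1) (c := 1) (d := 0) (by norm_num) e2 e5 ?_
      push_cast
      field_simp
      ring
    refine no_bd hQ hdet' ht₀' hat hz0 ?_
    refine hcl.mono ?_
    rintro t ⟨e1, e2, e3⟩
    refine ⟨(key t e1 e2).1, ?_⟩
    have c1 : ContinuousAt (fun t : ℂ => c * t + d) t := by fun_prop
    have c2 : ContinuousAt (mb a b c d) t := (mb_an e1).continuousAt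
    filter_upwards [c1.eventually_ne e1, (Complex.continuous_im.continuousAt.comp c2).eventually (lt_mem_nhds e2),
      e3] with u h2 h3 h4
    rw [(key u h2 h3).2]
    exact h4
  · by_cases h2 : 0 < (mb a b c d t₀).im
    · refine ⟨h0, h2, ?_⟩
      have han : AnalyticAt ℂ (fun s => ev2 Q (jf s) (jf (mb a b c d s))) t₀ :=
        ev2_an Q (an_j t₀ ht₀) (AnalyticAt.comp (g := jf) (f := mb a b c d) (an_j _ h2) (mb_an h0))
      by_contra hcon
      have h3 := han.eventually_eq_zero_or_eventually_ne_zero.resolve_left hcon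
      -- near `t₀` the function has no zeros except `t₀`
      rw [eventually_nhdsWithin_iff] at h3
      have h4 : ∀ᶠ t in 𝓝 t₀, ∀ᶠ s in 𝓝 t, s ∈ ({t₀}ᶜ : Set ℂ) → ev2 Q (jf s) (jf (mb a b c d s)) ≠ 0 :=
        h3.eventually_nhds
      obtain ⟨t, ⟨-, -, h5⟩, h6⟩ := (hcl.and_eventually h4).exists
      have h7 : ∀ᶠ s in 𝓝 t, s = t₀ := by
        filter_upwards [h5, h6] with s h8 h9
        by_contra hs
        exact h9 hs h8
      have h8 := h7.self_of_nhds
      rw [h8] at h7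
      have h9 := (h7.filter_mono (nhdsWithin_le_nhds (s := {t₀}ᶜ))).and self_mem_nhdsWithin
      obtain ⟨u, hu1, hu2⟩ := h9.exists
      exact hu2 hu1
    · exfalso
      have hreal : (mb a b c d t₀).im = 0 := by
        apply le_antisymm (not_lt.1 h2)
        by_contra hneg
        push Not at hneg
        have c2 : ContinuousAt (mb a b c d) t₀ := (mb_an h0).continuousAt
        have h3 := (Complex.continuous_im.continuousAt.comp c2).eventually (gt_mem_nhds hneg)
        obtain ⟨t, ⟨-, h4, -⟩, h5⟩ := (hcl.and_eventually h3).exists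
        exact lt_asymm h4 h5
      refine no_bd hQ hdet ht₀' h0 hreal ?_
      refine hcl.mono ?_
      rintro t ⟨-, e2, e3⟩
      exact ⟨e2, e3⟩

end Pool.Agent.NH23.Cross
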