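import Mathlib

/-!
# Fields generated by numbers
-/

set_option autoImplicit false

open MvPolynomial IntermediateField

noncomputable section

namespace Pool.Agent.NH23.Fld

variable {m n : ℕ}

/-- elements of a generated field -/
theorem frac {ξ : Fin m → ℂ} {x : ℂ} (hx : x ∈ adjoin ℚ (Set.range ξ)) :
    ∃ R S : MvPolynomial (Fin m) ℤ, aeval ξ S ≠ (0 : ℂ) ∧ x * aeval ξ S = aeval ξ R := by
  induction hx using IntermediateField.adjoin_induction with
  | mem x hx =>
    obtain ⟨k, rfl⟩ := hx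
    exact ⟨X k, 1, by simp, by simp⟩
  | algebraMap q =>
    refine ⟨C q.num, C (q.den : ℤ), ?_, ?_⟩
    · simp
    · have h1 : (q : ℂ) * (q.den : ℂ) = (q.num : ℂ) := by
        have h2 : (q : ℚ) * q.den = q.num := Rat.mul_den_eq_num q
        exact_mod_cast h2
      simpa using h1
  | add x y _ _ hx hy =>
    obtain ⟨R, S, hS, h1⟩ := hx
    obtain ⟨R', S', hS', h2⟩ := hy
    refine ⟨R * S' + R' * S, S * S', ?_, ?_⟩
    · rw [map_mul]
      exact mul_ne_zero hS hS'
    · rw [map_mul, map_add, map_mul, map_mul, ← h1, ← h2]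
      ring
  | inv x _ hx =>
    obtain ⟨R, S, hS, h1⟩ := hx
    by_cases hx0 : x = 0
    · exact ⟨0, 1, by simp, by simp [hx0]⟩
    · refine ⟨S, R, ?_, ?_⟩
      · rw [← h1]
        exact mul_ne_zero hx0 hS
      · rw [← h1, ← mul_assoc, inv_mul_cancel₀ hx0, one_mul]
  | mul x y _ _ hx hy =>
    obtain ⟨R, S, hS, h1⟩ := hx
    obtain ⟨R', S', hS', h2⟩ := hy
    refine ⟨R * R', S * S', ?_, ?_⟩
    · rw [map_mul]
      exact mul_ne_zero hS hS'
    · rw [map_mul, map_mul, ← h1, ← h2]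
      ring

theorem aeval_inl (ξ : Fin m → ℂ) (y : Fin n → ℂ) (P : MvPolynomial (Fin m) ℤ) :
    aeval (Sum.elim ξ y) (rename (Sum.inl : Fin m → Fin m ⊕ Fin n) P) = aeval ξ P := by
  rw [aeval_rename]
  rfl

/-- clearing denominators -/
theorem clear (ξ : Fin m → ℂ) (P : MvPolynomial (Fin n) (adjoin ℚ (Set.range ξ))) :
    ∃ (F : MvPolynomial (Fin m ⊕ Fin n) ℤ) (D : MvPolynomial (Fin m) ℤ), aeval ξ D ≠ (0 : ℂ) ∧
      ∀ y : Fin n → ℂ, aeval (Sum.elim ξ y) F = aeval ξ D * aeval y P := by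
  induction P using MvPolynomial.induction_on with
  | C a =>
    obtain ⟨R, S, hS, h1⟩ := frac a.2
    refine ⟨rename Sum.inl R, S, hS, fun y => ?_⟩
    rw [aeval_inl, aeval_C, ← h1, mul_comm]
    rfl
  | add P Q hP hQ =>
    obtain ⟨F, D, hD, h1⟩ := hP
    obtain ⟨F', D', hD', h2⟩ := hQ
    refine ⟨F * rename Sum.inl D' + F' * rename Sum.inl D, D * D', ?_, fun y => ?_⟩
    · rw [map_mul]
      exact mul_ne_zero hD hD'
    · rw [map_add, map_mul, map_mul, map_mul, map_add, h1, h2, aeval_inl, aeval_inl]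
      ring
  | mul_X P i hP =>
    obtain ⟨F, D, hD, h1⟩ := hP
    refine ⟨F * X (Sum.inr i), D, hD, fun y => ?_⟩
    rw [map_mul, map_mul, h1, aeval_X, aeval_X, Sum.elim_inr]
    ring

/-- **independence over a generated field** -/
theorem indep {K : IntermediateField ℚ ℂ} {v : Fin n → ℂ}
    (h : ∀ W : Finset ℂ, (W : Set ℂ) ⊆ K → ∃ (m : ℕ) (ξ : Fin m → ℂ), (W : Set ℂ) ⊆ adjoin ℚ (Set.range ξ) ∧
      ∀ F : MvPolynomial (Fin m ⊕ Fin n) ℤ, aeval (Sum.elim ξ v) F = (0 : ℂ) →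
        ∀ y : Fin n → ℂ, aeval (Sum.elim ξ y) F = (0 : ℂ)) : AlgebraicIndependent K v := by
  classical
  rw [algebraicIndependent_iff]
  intro P hP
  set P' : MvPolynomial (Fin n) ℂ := MvPolynomial.map (algebraMap K ℂ) P with hP'
  obtain ⟨m, ξ, hW, hrel⟩ := h P'.coeffs (by
    intro x hx
    have h1 : P' ∈ Set.range (MvPolynomial.map (σ := Fin n) (algebraMap K ℂ)) := ⟨P, rfl⟩
    rw [mem_range_map_iff_coeffs_subset] at h1
    obtain ⟨c, hc⟩ := h1 hx
    rw [← hc]
    exact c.2)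
  obtain ⟨Q, hQ⟩ : ∃ Q : MvPolynomial (Fin n) (adjoin ℚ (Set.range ξ)), MvPolynomial.map (algebraMap _ ℂ) Q = P' := by
    have h1 : P' ∈ Set.range (MvPolynomial.map (σ := Fin n) (algebraMap (adjoin ℚ (Set.range ξ)) ℂ)) := by
      rw [mem_range_map_iff_coeffs_subset]
      intro c hc
      exact ⟨⟨c, hW hc⟩, rfl⟩
    exact h1
  obtain ⟨F, D, hD, hF⟩ := clear ξ Q
  have hQe : ∀ y : Fin n → ℂ, aeval y Q = eval y P' := by
    intro y
    rw [← hQ, eval_map, aeval_def]
  have hPe : ∀ y : Fin n → ℂ, aeval y P = eval y P' := by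
    intro y
    rw [hP', eval_map, aeval_def]
  have h0 : aeval (Sum.elim ξ v) F = (0 : ℂ) := by
    rw [hF, hQe, ← hPe, hP, mul_zero]
  have h1 := hrel F h0
  have h2 : P' = 0 := by
    apply MvPolynomial.funext
    intro y
    have h3 := h1 y
    rw [hF, hQe] at h3
    rw [map_zero]
    exact (mul_eq_zero.1 h3).resolve_left hD
  exact MvPolynomial.map_injective _ (algebraMap K ℂ).injective (by rw [← hP', h2, map_zero])

/-- finitely many elements of a generated field -/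
theorem exists_fin {S : Set ℂ} (W : Finset ℂ) (hW : (W : Set ℂ) ⊆ adjoin ℚ S) :
    ∃ T : Finset ℂ, (T : Set ℂ) ⊆ S ∧ (W : Set ℂ) ⊆ adjoin ℚ (T : Set ℂ) := by
  classical
  induction W using Finset.induction_on with
  | empty => exact ⟨∅, by simp, by simp⟩
  | insert x W hx ih =>
    obtain ⟨T, hT, hTW⟩ := ih (fun y hy => hW (by simp [hy]))
    obtain ⟨T', hT', hx'⟩ := exists_finset_of_mem_adjoin (hW (show x ∈ ((insert x W : Finset ℂ) : Set ℂ) by simp))
    refine ⟨T ∪ T', ?_, ?_⟩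
    · rw [Finset.coe_union]
      exact Set.union_subset hT hT'
    · rw [Finset.coe_union]
      intro y hy
      rcases Finset.mem_insert.1 hy with rfl | hy
      · exact adjoin.mono _ _ _ Set.subset_union_right hx'
      · exact adjoin.mono _ _ _ Set.subset_union_left (hTW hy)

end Pool.Agent.NH23.Fld
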