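import Pool.Agent.NH23.CoreC
import Pool.Agent.NH23.Fld

/-!
# Real fields
-/

set_option autoImplicit false

open Filter Topology MvPolynomial UpperHalfPlane IntermediateField

noncomputable section

namespace Pool.Agent.NH23.Core

open Pool.Agent.NH23.Fld
open Pool.Agent.Y776 (jf)

/-- hierarchical approximations for all finite subsets -/
def Hier (S : Set ℝ) : Prop := ∀ T : Finset ℝ, (T : Set ℝ) ⊆ S → ∃ (m : ℕ) (ξ : Fin m → ℝ), Set.range ξ = T ∧ Hc ξ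

theorem range_cx {m : ℕ} {ξ : Fin m → ℝ} {T : Set ℝ} (h : Set.range ξ = T) :
    Set.range (cx ξ) = (fun x : ℝ => (x : ℂ)) '' T := by
  rw [← h, ← Set.range_comp]
  rfl

/-- real and integral coefficients -/
theorem exists_ABC {m : ℕ} {ξ : Fin m → ℝ} {z : ℂ} (hz : 0 < z.im) {a b c : ℂ}
    (ha : a ∈ adjoin ℚ (Set.range (cx ξ))) (hb : b ∈ adjoin ℚ (Set.range (cx ξ)))
    (hc : c ∈ adjoin ℚ (Set.range (cx ξ))) (hne : a ≠ 0 ∨ b ≠ 0 ∨ c ≠ 0) (h : a * z ^ 2 + b * z + c = 0) :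
    ∃ A B C : MvPolynomial (Fin m) ℤ, 0 < aeval ξ A ∧
      aeval (cx ξ) A * z ^ 2 + aeval (cx ξ) B * z + aeval (cx ξ) C = 0 := by
  obtain ⟨R₁, S₁, hS₁, e₁⟩ := frac ha
  obtain ⟨R₂, S₂, hS₂, e₂⟩ := frac hb
  obtain ⟨R₃, S₃, hS₃, e₃⟩ := frac hc
  set D := S₁ * S₂ * S₃ with hD
  have hD0 : aeval (cx ξ) D ≠ (0 : ℂ) := by
    rw [hD, map_mul, map_mul]
    exact mul_ne_zero (mul_ne_zero hS₁ hS₂) hS₃
  obtain ⟨A, hA⟩ : ∃ A : MvPolynomial (Fin m) ℤ, aeval (cx ξ) A = a * aeval (cx ξ) D := by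
    refine ⟨R₁ * S₂ * S₃, ?_⟩
    rw [hD, map_mul, map_mul, map_mul, map_mul, ← e₁]
    ring
  obtain ⟨B, hB⟩ : ∃ A : MvPolynomial (Fin m) ℤ, aeval (cx ξ) A = b * aeval (cx ξ) D := by
    refine ⟨R₂ * S₁ * S₃, ?_⟩
    rw [hD, map_mul, map_mul, map_mul, map_mul, ← e₂]
    ring
  obtain ⟨C, hC⟩ : ∃ A : MvPolynomial (Fin m) ℤ, aeval (cx ξ) A = c * aeval (cx ξ) D := by
    refine ⟨R₃ * S₁ * S₂, ?_⟩
    rw [hD, map_mul, map_mul, map_mul, map_mul, ← e₃]
    ring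
  have heq : aeval (cx ξ) A * z ^ 2 + aeval (cx ξ) B * z + aeval (cx ξ) C = 0 := by
    rw [hA, hB, hC]
    linear_combination aeval (cx ξ) D * h
  have hne' : aeval (cx ξ) A ≠ (0 : ℂ) ∨ aeval (cx ξ) B ≠ (0 : ℂ) ∨ aeval (cx ξ) C ≠ (0 : ℂ) := by
    rw [hA, hB, hC]
    rcases hne with h | h | h
    · exact Or.inl (mul_ne_zero h hD0)
    · exact Or.inr (Or.inl (mul_ne_zero h hD0))
    · exact Or.inr (Or.inr (mul_ne_zero h hD0))
  have hA0 : aeval ξ A ≠ (0 : ℝ) := by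
    intro h0
    have hA0 : aeval (cx ξ) A = (0 : ℂ) := by rw [aeval_cx, h0, Complex.ofReal_zero]
    rw [hA0, zero_mul, zero_add, aeval_cx, aeval_cx] at heq
    have h1 := congrArg Complex.im heq
    simp only [Complex.add_im, Complex.mul_im, Complex.ofReal_re, Complex.ofReal_im, Complex.zero_im, zero_mul,
      add_zero] at h1
    have h2 : (aeval ξ B : ℝ) = 0 := (mul_eq_zero.1 h1).resolve_right hz.ne'
    rw [h2, Complex.ofReal_zero, zero_mul, zero_add] at heq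
    rcases hne' with h | h | h
    · exact h hA0
    · exact h (by rw [aeval_cx, h2, Complex.ofReal_zero])
    · exact h (by rw [aeval_cx, heq])
  rcases lt_or_gt_of_ne hA0 with h1 | h1
  · refine ⟨-A, -B, -C, ?_, ?_⟩
    · rw [map_neg]
      linarith
    · rw [map_neg, map_neg, map_neg]
      linear_combination (-1 : ℂ) * heq
  · exact ⟨A, B, C, h1, heq⟩

/-- **the theorem for real fields** -/
theorem main_real {S : Set ℝ} (hS : Hier S) {n : ℕ} {z : Fin n → ℂ} (him : ∀ i, 0 < (z i).im)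
    (hquad : ∀ i, ∃ a b c : ℂ, a ∈ adjoin ℚ ((fun x : ℝ => (x : ℂ)) '' S) ∧ b ∈ adjoin ℚ ((fun x : ℝ => (x : ℂ)) '' S) ∧
      c ∈ adjoin ℚ ((fun x : ℝ => (x : ℂ)) '' S) ∧ (a ≠ 0 ∨ b ≠ 0 ∨ c ≠ 0) ∧ a * z i ^ 2 + b * z i + c = 0)
    (hcm : ∀ i, ∀ a b c : ℤ, (a : ℂ) * z i ^ 2 + b * z i + c = 0 → a = 0)
    (hine : ∀ i k, i ≠ k → ∀ a b c d : ℚ, 0 < a * d - b * c → z k * (c * z i + d) ≠ a * z i + b) :
    AlgebraicIndependent (adjoin ℚ ((fun x : ℝ => (x : ℂ)) '' S)) (fun i => jf (z i)) := by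
  classical
  apply indep
  intro W hW
  choose a b c ha hb hc hne hroot using hquad
  obtain ⟨T, hT, hTW⟩ := exists_fin (W ∪ Finset.univ.image a ∪ Finset.univ.image b ∪ Finset.univ.image c)
    (S := (fun x : ℝ => (x : ℂ)) '' S) (by
      intro x hx
      simp only [Finset.coe_union, Finset.coe_image, Finset.coe_univ, Set.image_univ, Set.mem_union] at hx
      rcases hx with ((hx | ⟨i, rfl⟩) | ⟨i, rfl⟩) | ⟨i, rfl⟩
      · exact hW hx
      · exact ha i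
      · exact hb i
      · exact hc i)
  obtain ⟨m, ξ, hξT, hξ⟩ := hS (T.image Complex.re) (by
    intro x hx
    obtain ⟨y, hy, rfl⟩ := Finset.mem_image.1 (Finset.mem_coe.1 hx)
    obtain ⟨s, hs, rfl⟩ := hT hy
    exact hs)
  have hrange : Set.range (cx ξ) = (T : Set ℂ) := by
    rw [range_cx hξT]
    ext x
    constructor
    · rintro ⟨y, hy, rfl⟩
      obtain ⟨w, hw, rfl⟩ := Finset.mem_image.1 (Finset.mem_coe.1 hy)
      obtain ⟨s, hs, rfl⟩ := hT hw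
      exact hw
    · intro hx
      obtain ⟨s, hs, rfl⟩ := hT hx
      exact ⟨s, Finset.mem_coe.2 (Finset.mem_image.2 ⟨_, hx, rfl⟩), rfl⟩
  rw [← hrange] at hTW
  have hsub : ∀ x, x ∈ W ∪ Finset.univ.image a ∪ Finset.univ.image b ∪ Finset.univ.image c →
      x ∈ adjoin ℚ (Set.range (cx ξ)) := fun x hx => hTW (Finset.mem_coe.2 hx)
  refine ⟨m, cx ξ, fun x hx => hsub x (by simp [Finset.mem_coe.1 hx]), ?_⟩
  have hex : ∀ i, ∃ A B C : MvPolynomial (Fin m) ℤ, 0 < aeval ξ A ∧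
      aeval (cx ξ) A * z i ^ 2 + aeval (cx ξ) B * z i + aeval (cx ξ) C = 0 := fun i =>
    exists_ABC (him i) (hsub (a i) (by simp)) (hsub (b i) (by simp)) (hsub (c i) (by simp)) (hne i) (hroot i)
  choose A B C hpos heq using hex
  intro F hF
  exact core2 hξ ⟨him, hpos, heq⟩ hcm hine F hF

/-- no relation between the numbers themselves -/
theorem Hc.no_rel {m : ℕ} {ξ : Fin m → ℝ} (hξ : Hc ξ) (G : MvPolynomial (Fin m) ℤ) (h : aeval (cx ξ) G = (0 : ℂ)) :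
    G = 0 := by
  classical
  have hq : Qd (n := 0) ξ (fun k => k.elim0) (fun k => k.elim0) (fun k => k.elim0) (fun k => k.elim0) :=
    ⟨fun i => i.elim0, fun i => i.elim0, fun i => i.elim0⟩
  have e1 : ∀ x : Fin m → ℂ, Ff (n := 0) (fun k => k.elim0) (fun k => k.elim0) (fun k => k.elim0)
      (rename Sum.inl G) x = aeval x G := fun x => aeval_inl _ _ _
  have h1 := core1 hξ hq (rename Sum.inl G) (by rw [e1]; exact h)
  have h2 : MvPolynomial.map (algebraMap ℤ ℂ) G = 0 := by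
    apply MvPolynomial.funext
    have han : AnalyticOnNhd ℂ (fun x : Fin m → ℂ => eval x (MvPolynomial.map (algebraMap ℤ ℂ) G)) Set.univ :=
      AnalyticOnNhd.eval_mvPolynomial (𝕜 := ℂ) _
    have h3 := han.eqOn_zero_of_preconnected_of_eventuallyEq_zero isPreconnected_univ (Set.mem_univ (cx ξ)) (by
      filter_upwards [h1] with x hx
      rw [e1] at hx
      rw [eval_map, ← aeval_def]
      exact hx)
    intro x
    rw [map_zero]
    exact h3 (Set.mem_univ x)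
  exact MvPolynomial.map_injective _ (algebraMap ℤ ℂ).injective_int (by rw [h2, map_zero])

end Pool.Agent.NH23.Core
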