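import Pool.Agent.NH23.CoreC
import Pool.Agent.NH23.FldR

/-!
# Complex numbers approximated by elements of imaginary quadratic fields
-/

set_option autoImplicit false

open Filter Topology MvPolynomial UpperHalfPlane

noncomputable section

namespace Pool.Agent.NH23.Cx

open Pool.Agent.NH23.CM (vl cm_main liou_main)
open Pool.Agent.NH23.An (eq_zero_of_small)
open Pool.Agent.NH23.Inj (jf_eq)
open Pool.Agent.NH23.Core (an_poly)
open H294ZP (jj)
open Pool.Agent.Y776 (jf)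

variable {m n : ℕ}

/-- the square root of `-D` in the upper half-plane -/
def rd (D : ℕ) : ℂ := Complex.I * (Real.sqrt D : ℂ)

theorem rd_sq (D : ℕ) : rd D ^ 2 = -(D : ℂ) := by
  rw [rd, mul_pow, Complex.I_sq, ← Complex.ofReal_pow, Real.sq_sqrt (Nat.cast_nonneg D)]
  push_cast
  ring

theorem rd_re (D : ℕ) : (rd D).re = 0 := by simp [rd]

theorem rd_im (D : ℕ) : (rd D).im = Real.sqrt D := by simp [rd]

theorem rd_zero : rd 0 = 0 := by simp [rd]

/-- the integers of the form `x + y √(-D)` -/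
def OD (D : ℕ) (z : ℂ) : Prop := ∃ x y : ℤ, z = x + y * rd D

theorem OD.add {D : ℕ} {z w : ℂ} (hz : OD D z) (hw : OD D w) : OD D (z + w) := by
  obtain ⟨x, y, rfl⟩ := hz
  obtain ⟨x', y', rfl⟩ := hw
  exact ⟨x + x', y + y', by push_cast; ring⟩

theorem OD.mul {D : ℕ} {z w : ℂ} (hz : OD D z) (hw : OD D w) : OD D (z * w) := by
  obtain ⟨x, y, rfl⟩ := hz
  obtain ⟨x', y', rfl⟩ := hw
  refine ⟨x * x' - D * (y * y'), x * y' + y * x', ?_⟩
  push_cast
  linear_combination (y : ℂ) * y' * rd_sq D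

theorem OD.int {D : ℕ} (a : ℤ) : OD D (a : ℂ) := ⟨a, 0, by simp⟩

theorem OD.pow {D : ℕ} {z : ℂ} (hz : OD D z) (k : ℕ) : OD D (z ^ k) := by
  induction k with
  | zero => simpa using OD.int (D := D) 1
  | succ k ih => rw [pow_succ]; exact ih.mul hz

/-- values of polynomials -/
theorem OD.poly {D : ℕ} {N : ℕ} (A : MvPolynomial (Fin N) ℤ) {d : ℕ} (hd : A.totalDegree ≤ d) {q : ℕ} {a : Fin N → ℂ}
    (ha : ∀ i, OD D ((q : ℂ) * a i)) : OD D ((q : ℂ) ^ d * aeval a A) := by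
  classical
  rw [MvPolynomial.aeval_def, MvPolynomial.eval₂_eq', Finset.mul_sum]
  have key : ∀ e ∈ A.support, OD D ((q : ℂ) ^ d * (algebraMap ℤ ℂ (A.coeff e) * ∏ i, a i ^ e i)) := by
    intro e he
    have h1 : (e.sum fun _ k => k) ≤ d := (MvPolynomial.le_totalDegree he).trans hd
    have h2 : (e.sum fun _ k => k) = ∑ i, e i := Finsupp.sum_fintype _ _ (fun _ => rfl)
    have h4 : (q : ℂ) ^ d = (q : ℂ) ^ (d - ∑ i, e i) * ∏ i, (q : ℂ) ^ e i := by
      rw [Finset.prod_pow_eq_pow_sum, ← pow_add, Nat.sub_add_cancel (by rw [← h2]; exact h1)]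
    have h5 : (q : ℂ) ^ d * (algebraMap ℤ ℂ (A.coeff e) * ∏ i, a i ^ e i) =
        (q : ℂ) ^ (d - ∑ i, e i) * (((A.coeff e : ℤ) : ℂ) * ∏ i, ((q : ℂ) * a i) ^ e i) := by
      have h6 : ∏ i, ((q : ℂ) * a i) ^ e i = (∏ i, (q : ℂ) ^ e i) * ∏ i, a i ^ e i := by
        rw [← Finset.prod_mul_distrib]
        exact Finset.prod_congr rfl fun i _ => mul_pow _ _ _
      rw [h6, h4]
      simp only [algebraMap_int_eq, eq_intCast]
      ring
    rw [h5]
    refine OD.mul ?_ (OD.mul (OD.int _) ?_)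
    · have : OD D (((q : ℤ) : ℂ)) := OD.int _
      simpa using this.pow (d - ∑ i, e i)
    · refine Finset.prod_induction _ (OD D) (fun _ _ => OD.mul) ?_ (fun i _ => (ha i).pow _)
      simpa using OD.int (D := D) 1
  refine Finset.sum_induction _ (OD D) (fun _ _ => OD.add) ?_ key
  simpa using OD.int (D := D) 0

/-- quotients are CM points -/
theorem cm_quot {D : ℕ} {r s : ℂ} (hr : OD D r) (hs : OD D s) (hs0 : s ≠ 0) {B : ℝ} (hrB : ‖r‖ ≤ B) (hsB : ‖s‖ ≤ B) :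
    ∃ a b c : ℤ, a ≠ 0 ∧ |(a : ℝ)| ≤ 2 * B ^ 2 ∧ |(b : ℝ)| ≤ 2 * B ^ 2 ∧ |(c : ℝ)| ≤ 2 * B ^ 2 ∧
      (a : ℂ) * (r / s) ^ 2 + b * (r / s) + c = 0 := by
  obtain ⟨x, y, hr'⟩ := hr
  obtain ⟨x', y', hs'⟩ := hs
  have hB : 0 ≤ B := (norm_nonneg _).trans hrB
  have hn : ∀ (z : ℂ) (x y : ℤ), z = x + y * rd D → ‖z‖ ^ 2 = ((x ^ 2 + D * y ^ 2 : ℤ) : ℝ) := by
    intro z x y hz
    rw [hz, ← Complex.normSq_eq_norm_sq, Complex.normSq_apply]
    simp only [Complex.add_re, Complex.intCast_re, Complex.mul_re, Complex.intCast_im, rd_re, rd_im, mul_zero, zero_mul,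
      sub_zero, add_zero, Complex.add_im, Complex.mul_im, zero_add]
    have := Real.sq_sqrt (Nat.cast_nonneg D : (0 : ℝ) ≤ D)
    push_cast
    linear_combination (y : ℝ) ^ 2 * this
  have h1 := hn r x y hr'
  have h2 := hn s x' y' hs'
  have e1 : ‖r‖ ^ 2 ≤ B ^ 2 := pow_le_pow_left₀ (norm_nonneg _) hrB 2
  have e2 : ‖s‖ ^ 2 ≤ B ^ 2 := pow_le_pow_left₀ (norm_nonneg _) hsB 2
  have hsp : 0 < ‖s‖ ^ 2 := by have := norm_pos_iff.2 hs0; positivity
  refine ⟨x' ^ 2 + D * y' ^ 2, -2 * (x * x' + D * (y * y')), x ^ 2 + D * y ^ 2, ?_, ?_, ?_, ?_, ?_⟩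
  · intro h0
    rw [h0] at h2
    rw [h2] at hsp
    simp at hsp
  · rw [← h2, abs_of_nonneg (by positivity)]
    nlinarith [sq_nonneg B]
  · have h3 : (((x * x' + D * (y * y') : ℤ)) : ℝ) ^ 2 ≤ (B ^ 2) ^ 2 := by
      have h4 : (((x * x' + D * (y * y') : ℤ)) : ℝ) ^ 2 ≤ ((x ^ 2 + D * y ^ 2 : ℤ) : ℝ) * ((x' ^ 2 + D * y' ^ 2 : ℤ) : ℝ) := by
        push_cast
        have : (0 : ℝ) ≤ D * (x * y' - y * x') ^ 2 := by positivity
        nlinarith [this]
      rw [← h1, ← h2] at h4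
      calc _ ≤ ‖r‖ ^ 2 * ‖s‖ ^ 2 := h4
        _ ≤ B ^ 2 * B ^ 2 := mul_le_mul e1 e2 (by positivity) (by positivity)
        _ = _ := by ring
    have h5 := abs_le_of_sq_le_sq h3 (by positivity)
    push_cast at h5 ⊢
    rw [abs_mul]
    have : |(-2 : ℝ)| = 2 := by norm_num
    rw [this]
    linarith
  · rw [← h1, abs_of_nonneg (by positivity)]
    nlinarith [sq_nonneg B]
  · have h7 := rd_sq D
    field_simp
    rw [hr', hs']
    push_cast
    generalize rd D = δ at h7 ⊢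
    linear_combination ((x : ℂ) * y' - y * x') ^ 2 * h7

end Pool.Agent.NH23.Cx
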