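import Pool.Agent.NH23.CxA

/-!
# The lower bound at points of imaginary quadratic fields
-/

set_option autoImplicit false

open Filter Topology MvPolynomial UpperHalfPlane

noncomputable section

namespace Pool.Agent.NH23.Cx

open Pool.Agent.NH23.CM (vl cm_main liou_main)

variable {m n : ℕ}

/-- an element of the field `ℚ(√(-D))` -/
def ap (D q : ℕ) (u v : ℤ) : ℂ := (u + v * rd D) / q

theorem ap_OD {D q : ℕ} (hq : q ≠ 0) (u v : ℤ) : OD D ((q : ℂ) * ap D q u v) := by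
  refine ⟨u, v, ?_⟩
  rw [ap, mul_div_cancel₀]
  exact_mod_cast hq

theorem ap_re {D q : ℕ} (u v : ℤ) : (ap D q u v).re = u / q := by
  rw [ap, ← Complex.ofReal_natCast, Complex.div_ofReal_re]
  simp [rd_re, rd_im]

theorem ap_im {D q : ℕ} (u v : ℤ) : (ap D q u v).im = v * Real.sqrt D / q := by
  rw [ap, ← Complex.ofReal_natCast, Complex.div_ofReal_im]
  simp [rd_re, rd_im]

theorem rd_int (D : ℕ) : IsIntegral ℤ (rd D) := by
  refine ⟨Polynomial.X ^ 2 + Polynomial.C (D : ℤ), Polynomial.monic_X_pow_add_C _ two_ne_zero, ?_⟩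
  rw [Polynomial.eval₂_add, Polynomial.eval₂_pow, Polynomial.eval₂_X, Polynomial.eval₂_C, rd_sq]
  simp

theorem rd_aeval (D : ℕ) : Polynomial.aeval (rd D) (Polynomial.X ^ 2 + Polynomial.C (D : ℚ)) = 0 := by
  rw [map_add, map_pow, Polynomial.aeval_X, Polynomial.aeval_C, rd_sq]
  simp

theorem rd_deg (D : ℕ) : (minpoly ℚ (rd D)).natDegree ≤ 2 := by
  have h1 : (Polynomial.X ^ 2 + Polynomial.C (D : ℚ)).natDegree = 2 := Polynomial.natDegree_X_pow_add_C
  rw [← h1]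
  refine Polynomial.natDegree_le_of_dvd (minpoly.dvd ℚ _ (rd_aeval D)) ?_
  intro h0
  rw [h0, Polynomial.natDegree_zero] at h1
  omega

theorem rd_conj (D : ℕ) {x : ℂ} (hx : Polynomial.aeval x (minpoly ℚ (rd D)) = 0) : ‖x‖ ^ 2 = D := by
  obtain ⟨P, hP⟩ := minpoly.dvd ℚ _ (rd_aeval D)
  have h1 : Polynomial.aeval x (Polynomial.X ^ 2 + Polynomial.C (D : ℚ)) = (0 : ℂ) := by
    rw [hP, map_mul, hx, zero_mul]
  rw [map_add, map_pow, Polynomial.aeval_X, Polynomial.aeval_C] at h1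
  have h2 : x ^ 2 = -(D : ℂ) := by
    have : (algebraMap ℚ ℂ) (D : ℚ) = (D : ℂ) := by simp
    rw [this] at h1
    linear_combination h1
  rw [← norm_pow, h2, norm_neg, Complex.norm_natCast]

/-- the substitution -/
def Gs {N : ℕ} : Fin N ⊕ Fin n → MvPolynomial (Fin (N + N) ⊕ Fin (n + 1)) ℤ :=
  Sum.elim (fun i => X (Sum.inl (Fin.castAdd N i)) + X (Sum.inl (Fin.natAdd N i)) * X (Sum.inr 0))
    (fun j => X (Sum.inr j.succ))

theorem vl_sub {N : ℕ} (F : MvPolynomial (Fin N ⊕ Fin n) ℤ) {D q : ℕ} (u v : Fin N → ℤ) (y : Fin n → ℂ) :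
    vl (aeval Gs F) q (Fin.append u v) (Fin.cons (rd D) y) =
      aeval (Sum.elim (fun i => ap D q (u i) (v i)) y) F := by
  rw [vl]
  have h1 := Pool.Agent.NH23.Core.hom_aeval (S := MvPolynomial (Fin (N + N) ⊕ Fin (n + 1)) ℤ)
    ((aeval (Sum.elim (fun i => ((Fin.append u v i : ℤ) : ℂ) / q) (Fin.cons (rd D) y :
      Fin (n + 1) → ℂ))).toRingHom) (Gs (n := n) (N := N)) F
  refine h1.trans ?_
  congr 2
  funext k
  rcases k with i | j
  · simp only [Gs, Sum.elim_inl, AlgHom.toRingHom_eq_coe, RingHom.coe_coe, map_add, map_mul, aeval_X, Sum.elim_inr,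
      Fin.append_left, Fin.append_right, Fin.cons_zero]
    rw [ap]
    ring
  · simp only [Gs, Sum.elim_inr, AlgHom.toRingHom_eq_coe, RingHom.coe_coe, aeval_X, Fin.cons_succ]

theorem lower {N : ℕ} (F : MvPolynomial (Fin N ⊕ Fin n) ℤ) (A : ℝ) (c : ℕ) : ∃ C : ℕ, ∀ D q : ℕ, 2 ≤ q → 1 ≤ D → D ≤ q →
    ∀ u v : Fin N → ℤ, (∀ i, ‖ap D q (u i) (v i)‖ ≤ A) → ∀ y : Fin n → ℂ, (∀ j, IsIntegral ℤ (y j)) →
    (∀ j, (minpoly ℚ (y j)).natDegree ≤ q ^ c) →
    (∀ j, ∀ x : ℂ, Polynomial.aeval x (minpoly ℚ (y j)) = 0 → ‖x‖ ≤ Real.exp ((q : ℝ) ^ c)) →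
    aeval (Sum.elim (fun i => ap D q (u i) (v i)) y) F ≠ (0 : ℂ) →
    Real.exp (-(q : ℝ) ^ C) ≤ ‖(aeval (Sum.elim (fun i => ap D q (u i) (v i)) y) F : ℂ)‖ := by
  obtain ⟨C, hC⟩ := liou_main (aeval Gs F) A (c + 1)
  refine ⟨C, fun D q hq hD hDq u v ha y hyi hyd hyc hne => ?_⟩
  have hq0 : (0 : ℝ) < q := by exact_mod_cast (by omega : 0 < q)
  have hq1 : (1 : ℝ) ≤ q := by exact_mod_cast (by omega : 1 ≤ q)
  have hsD : 1 ≤ Real.sqrt D := by
    rw [Real.one_le_sqrt]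
    exact_mod_cast hD
  rw [← vl_sub F u v y] at hne ⊢
  refine hC q hq _ ?_ _ ?_ ?_ ?_ hne
  · intro i
    refine Fin.addCases (fun i => ?_) (fun i => ?_) i
    · rw [Fin.append_left]
      have h1 := Complex.abs_re_le_norm (ap D q (u i) (v i))
      rw [ap_re] at h1
      exact h1.trans (ha i)
    · rw [Fin.append_right]
      have h1 := Complex.abs_im_le_norm (ap D q (u i) (v i))
      rw [ap_im] at h1
      refine le_trans ?_ (h1.trans (ha i))
      rw [abs_div, abs_div, abs_mul, abs_of_pos (by linarith : (0 : ℝ) < Real.sqrt D)]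
      gcongr
      nlinarith [abs_nonneg ((v i : ℤ) : ℝ)]
  · intro j
    refine Fin.cases ?_ (fun j => ?_) j
    · exact rd_int D
    · exact hyi j
  · intro j
    refine Fin.cases ?_ (fun j => ?_) j
    · exact (rd_deg D).trans (hq.trans (Nat.le_self_pow (by omega) _))
    · exact (hyd j).trans (Nat.pow_le_pow_right (by omega) (by omega))
  · intro j
    refine Fin.cases ?_ (fun j => ?_) j
    · intro x hx
      rw [Fin.cons_zero] at hx
      have h1 := rd_conj D hx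
      have h2 : ‖x‖ ^ 2 ≤ (q : ℝ) ^ 2 := by
        rw [h1]
        have : (D : ℝ) ≤ q := by exact_mod_cast hDq
        nlinarith
      have h3 : ‖x‖ ≤ q := by
        have := abs_le_of_sq_le_sq h2 hq0.le
        rwa [abs_of_nonneg (norm_nonneg _)] at this
      have h4 : (q : ℝ) ≤ (q : ℝ) ^ (c + 1) := le_self_pow₀ hq1 (by omega)
      have h5 := Real.add_one_le_exp ((q : ℝ) ^ (c + 1))
      linarith
    · intro x hx
      rw [Fin.cons_succ] at hx
      exact (hyc j x hx).trans (Real.exp_le_exp.2 (pow_le_pow_right₀ hq1 (by omega)))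

end Pool.Agent.NH23.Cx
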