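import Pool.Agent.NH23.CxB

/-!
# Relations near a point approximated by elements of imaginary quadratic fields
-/

set_option autoImplicit false

open Filter Topology MvPolynomial UpperHalfPlane

noncomputable section

namespace Pool.Agent.NH23.Cx

open Pool.Agent.NH23.CM (vl cm_main liou_main)
open Pool.Agent.NH23.An (eq_zero_of_small)
open Pool.Agent.NH23.Inj (jf_eq)
open Pool.Agent.NH23.Core (sq_le_two)
open H294ZP (jj)
open Pool.Agent.Y776 (jf)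

variable {m n : ℕ}

/-- hierarchical approximations in imaginary quadratic fields -/
def Hx (D₀ : ℕ) (ξ : Fin m → ℂ) : Prop := ∀ κ : ℕ, ∃ (D q : ℕ) (u v : Fin m → ℤ), 2 ≤ q ∧ 1 ≤ D ∧ D ≤ q ∧
  (D₀ = 0 ∨ D = D₀) ∧ (∀ i, ξ i ≠ ap D q (u i) (v i) ∧ ‖ξ i - ap D q (u i) (v i)‖ ≤ Real.exp (-(q : ℝ) ^ κ)) ∧
  ∀ i k, i < k → ‖ξ k - ap D q (u k) (v k)‖ ≤ ‖ξ i - ap D q (u i) (v i)‖ ^ κ

/-- the extended point -/
def ex (θ : ℂ) (x : Fin m → ℂ) : Fin (m + 1) → ℂ := Fin.cons θ x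

/-- the value of a polynomial -/
def pv (θ : ℂ) (A : MvPolynomial (Fin (m + 1)) ℤ) (x : Fin m → ℂ) : ℂ := aeval (ex θ x) A

theorem an_pv (θ : ℂ) (A : MvPolynomial (Fin (m + 1)) ℤ) (x : Fin m → ℂ) : AnalyticAt ℂ (pv θ A) x := by
  refine AnalyticAt.aeval_mvPolynomial (f := fun x : Fin m → ℂ => ex θ x) ?_ A
  intro i
  refine Fin.cases ?_ (fun i => ?_) i
  · exact analyticAt_const
  · exact (ContinuousLinearMap.proj (R := ℂ) (φ := fun _ : Fin m => ℂ) i).analyticAt x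

/-- the data of rational functions -/
structure Rd (θ : ℂ) (ξ : Fin m → ℂ) (R S : Fin n → MvPolynomial (Fin (m + 1)) ℤ) (z : Fin n → ℂ) : Prop where
  im : ∀ i, 0 < (z i).im
  ne : ∀ i, pv θ (S i) ξ ≠ 0
  eq : ∀ i, z i * pv θ (S i) ξ = pv θ (R i) ξ

/-- the rational function -/
def Tr (θ : ℂ) (R S : MvPolynomial (Fin (m + 1)) ℤ) (x : Fin m → ℂ) : ℂ := pv θ R x / pv θ S x

variable {θ : ℂ} {ξ : Fin m → ℂ} {R S : Fin n → MvPolynomial (Fin (m + 1)) ℤ} {z : Fin n → ℂ}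

theorem Rd.val (h : Rd θ ξ R S z) (i : Fin n) : Tr θ (R i) (S i) ξ = z i := by
  rw [Tr, ← h.eq i, mul_div_cancel_right₀ _ (h.ne i)]

theorem an_Tr (R S : MvPolynomial (Fin (m + 1)) ℤ) {x : Fin m → ℂ} (hS : pv θ S x ≠ 0) : AnalyticAt ℂ (Tr θ R S) x :=
  (an_pv θ R x).div (an_pv θ S x) hS

theorem Rd.ev (h : Rd θ ξ R S z) : ∀ᶠ x in 𝓝 ξ, ∀ i, pv θ (S i) x ≠ 0 ∧ 0 < (Tr θ (R i) (S i) x).im := by
  rw [eventually_all]
  intro i
  have c3 : ContinuousAt (fun x : Fin m → ℂ => (Tr θ (R i) (S i) x).im) ξ :=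
    Complex.continuous_im.continuousAt.comp (an_Tr _ _ (h.ne i)).continuousAt
  have p3 : 0 < (Tr θ (R i) (S i) ξ).im := by
    rw [h.val i]
    exact h.im i
  filter_upwards [(an_pv θ (S i) ξ).continuousAt.eventually_ne (h.ne i), c3.tendsto.eventually (lt_mem_nhds p3)] with
    x h1 h2
  exact ⟨h1, h2⟩

/-- the function of a relation -/
def Fr (θ : ℂ) (R S : Fin n → MvPolynomial (Fin (m + 1)) ℤ) (F : MvPolynomial (Fin (m + 1) ⊕ Fin n) ℤ) (x : Fin m → ℂ) : ℂ :=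
  aeval (Sum.elim (ex θ x) fun i => jf (Tr θ (R i) (S i) x)) F

theorem an_Fr {x : Fin m → ℂ} (hS : ∀ i, pv θ (S i) x ≠ 0) (hT : ∀ i, 0 < (Tr θ (R i) (S i) x).im)
    (F : MvPolynomial (Fin (m + 1) ⊕ Fin n) ℤ) : AnalyticAt ℂ (Fr θ R S F) x := by
  refine AnalyticAt.aeval_mvPolynomial (f := fun x : Fin m → ℂ => Sum.elim (ex θ x) fun i => jf (Tr θ (R i) (S i) x)) ?_ F
  rintro (i | i)
  · refine Fin.cases ?_ (fun i => ?_) i
    · exact analyticAt_const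
    · exact (ContinuousLinearMap.proj (R := ℂ) (φ := fun _ : Fin m => ℂ) i).analyticAt x
  · exact AnalyticAt.fun_comp (g := jf) (f := Tr θ (R i) (S i)) (Pool.Agent.Y776.AxJ.an_j _ (hT i)) (an_Tr _ _ (hS i))

/-- the degrees -/
def dr (R S : Fin n → MvPolynomial (Fin (m + 1)) ℤ) : ℕ := ∑ i, ((R i).totalDegree + (S i).totalDegree)

theorem dr_le (R S : Fin n → MvPolynomial (Fin (m + 1)) ℤ) (i : Fin n) :
    (R i).totalDegree ≤ dr R S ∧ (S i).totalDegree ≤ dr R S := by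
  have h1 : (R i).totalDegree + (S i).totalDegree ≤ dr R S :=
    Finset.single_le_sum (f := fun i => (R i).totalDegree + (S i).totalDegree) (fun _ _ => Nat.zero_le _)
      (Finset.mem_univ i)
  omega

/-- the values at a point of the field are CM -/
theorem val_pt {M : ℝ} {k₁ : ℕ} (hk : M ≤ 2 ^ k₁) {D q : ℕ} (hq : 2 ≤ q) {a : Fin (m + 1) → ℂ}
    (ha : ∀ i, OD D ((q : ℂ) * a i)) (i : Fin n) (hS0 : aeval a (S i) ≠ (0 : ℂ)) (hR : ‖(aeval a (R i) : ℂ)‖ ≤ M)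
    (hS : ‖(aeval a (S i) : ℂ)‖ ≤ M) : ∃ u v w : ℤ, u ≠ 0 ∧
      |u| ≤ ((q ^ (2 * (dr R S + k₁) + 1) : ℕ) : ℤ) ∧ |v| ≤ ((q ^ (2 * (dr R S + k₁) + 1) : ℕ) : ℤ) ∧
      |w| ≤ ((q ^ (2 * (dr R S + k₁) + 1) : ℕ) : ℤ) ∧
      (u : ℂ) * (aeval a (R i) / aeval a (S i)) ^ 2 + v * (aeval a (R i) / aeval a (S i)) + w = 0 := by
  have hqr : (2 : ℝ) ≤ q := by exact_mod_cast hq
  have hq1 : (1 : ℝ) ≤ q := by linarith
  have hqC : (q : ℂ) ≠ 0 := by exact_mod_cast (by omega : q ≠ 0)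
  have o1 := OD.poly (R i) (dr_le R S i).1 ha
  have o2 := OD.poly (S i) (dr_le R S i).2 ha
  set B : ℝ := (q : ℝ) ^ dr R S * M with hB
  have hqd : (0 : ℝ) < (q : ℝ) ^ dr R S := by positivity
  have b1 : ‖(q : ℂ) ^ dr R S * aeval a (R i)‖ ≤ B := by
    rw [norm_mul, norm_pow, Complex.norm_natCast]
    exact mul_le_mul_of_nonneg_left hR hqd.le
  have b2 : ‖(q : ℂ) ^ dr R S * aeval a (S i)‖ ≤ B := by
    rw [norm_mul, norm_pow, Complex.norm_natCast]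
    exact mul_le_mul_of_nonneg_left hS hqd.le
  obtain ⟨u, v, w, hu0, hu, hv, hw, hroot⟩ := cm_quot o1 o2 (mul_ne_zero (pow_ne_zero _ hqC) hS0) b1 b2
  have hM0 : 0 ≤ M := (norm_nonneg _).trans hR
  have hBle : 2 * B ^ 2 ≤ (q : ℝ) ^ (2 * (dr R S + k₁) + 1) := by
    have h1 : M ≤ (q : ℝ) ^ k₁ := hk.trans (pow_le_pow_left₀ (by norm_num) hqr _)
    have h2 : B ≤ (q : ℝ) ^ (dr R S + k₁) := by
      rw [pow_add]
      exact mul_le_mul_of_nonneg_left h1 hqd.le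
    calc 2 * B ^ 2 ≤ q * ((q : ℝ) ^ (dr R S + k₁)) ^ 2 := by
          refine mul_le_mul hqr (pow_le_pow_left₀ (by positivity) h2 2) (by positivity) (by linarith)
      _ = _ := by rw [← pow_mul, pow_succ, mul_comm (dr R S + k₁) 2]; ring
  have bd : ∀ x : ℤ, |(x : ℝ)| ≤ 2 * B ^ 2 → |x| ≤ ((q ^ (2 * (dr R S + k₁) + 1) : ℕ) : ℤ) := by
    intro x hx
    have h2 : ((|x| : ℤ) : ℝ) ≤ (((q ^ (2 * (dr R S + k₁) + 1) : ℕ) : ℤ) : ℝ) := by
      push_cast
      exact hx.trans hBle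
    exact_mod_cast h2
  refine ⟨u, v, w, hu0, bd u hu, bd v hv, bd w hw, ?_⟩
  rwa [mul_div_mul_left _ _ (pow_ne_zero _ hqC)] at hroot

theorem ev_bd (A : MvPolynomial (Fin (m + 1)) ℤ) : ∀ᶠ x in 𝓝 ξ, ‖pv θ A x‖ ≤ ‖pv θ A ξ‖ + 1 := by
  have h := (an_pv θ A ξ).continuousAt.norm
  filter_upwards [h.tendsto.eventually (gt_mem_nhds (lt_add_one _))] with x hx
  exact hx.le

theorem core1 {D₀ : ℕ} (hξ : Hx D₀ ξ) (h : Rd (rd D₀) ξ R S z) (F : MvPolynomial (Fin (m + 1) ⊕ Fin n) ℤ)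
    (h0 : Fr (rd D₀) R S F ξ = 0) : Fr (rd D₀) R S F =ᶠ[𝓝 ξ] 0 := by
  classical
  set θ := rd D₀ with hθ
  choose D q u v hq hD1 hDq hD₀ hp hh using hξ
  set a : ℕ → Fin m → ℂ := fun k i => ap (D k) (q k) (u k i) (v k i) with ha
  -- the extended tuple
  set u' : ℕ → Fin (m + 1) → ℤ := fun k => Fin.cons 0 (u k) with hu'
  set v' : ℕ → Fin (m + 1) → ℤ := fun k => Fin.cons (if D₀ = 0 then 0 else (q k : ℤ)) (v k) with hv'
  have hext : ∀ k, ex θ (a k) = fun i => ap (D k) (q k) (u' k i) (v' k i) := by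
    intro k
    funext i
    refine Fin.cases ?_ (fun i => ?_) i
    · have hqk : (q k : ℂ) ≠ 0 := by
        have := hq k
        exact_mod_cast (by omega : q k ≠ 0)
      simp only [ex, Fin.cons_zero, hu', hv', ap]
      rcases hD₀ k with h1 | h1
      · rw [if_pos h1, hθ, h1, rd_zero]
        simp
      · by_cases h2 : D₀ = 0
        · rw [if_pos h2, hθ, h2, rd_zero]
          simp
        · rw [if_neg h2, hθ, h1]
          push_cast
          field_simp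
          ring
    · simp only [ex, Fin.cons_succ, hu', hv', ha]
  have hOD : ∀ k i, OD (D k) ((q k : ℂ) * ex θ (a k) i) := by
    intro k i
    rw [hext]
    exact ap_OD (by have := hq k; omega) _ _
  have hqr : ∀ k, (2 : ℝ) ≤ q k := fun k => by exact_mod_cast hq k
  have hqk : ∀ k : ℕ, (k : ℝ) ≤ (q k : ℝ) ^ k := by
    intro k
    have h1 : ((2 : ℕ) : ℝ) ^ k ≤ (q k : ℝ) ^ k := pow_le_pow_left₀ (by norm_num) (by exact_mod_cast hq k) _
    have h2 : (k : ℝ) ≤ ((2 : ℕ) : ℝ) ^ k := by exact_mod_cast (Nat.lt_two_pow_self (n := k)).le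
    linarith
  -- the points tend to `ξ`
  have hsm : ∀ k i, ‖ξ i - a k i‖ ≤ Real.exp (-(k : ℝ)) := fun k i =>
    (hp k i).2.trans (Real.exp_le_exp.2 (neg_le_neg (hqk k)))
  have hexp : Tendsto (fun k : ℕ => Real.exp (-(k : ℝ))) atTop (𝓝 0) :=
    Real.tendsto_exp_neg_atTop_nhds_zero.comp tendsto_natCast_atTop_atTop
  have hnorm : ∀ k i, ‖a k i - ξ i‖ = ‖ξ i - a k i‖ := fun k i => norm_sub_rev _ _
  have ht : Tendsto a atTop (𝓝 ξ) := by
    rw [tendsto_pi_nhds]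
    intro i
    rw [tendsto_iff_norm_sub_tendsto_zero]
    refine squeeze_zero (fun _ => norm_nonneg _) (fun k => ?_) hexp
    rw [hnorm]
    exact hsm k i
  -- analyticity and the Lipschitz bound
  have hev := h.ev
  have hself := hev.self_of_nhds
  have hF : AnalyticAt ℂ (Fr θ R S F) ξ := an_Fr (fun i => (hself i).1) (fun i => (hself i).2) F
  obtain ⟨L, hL⟩ := hF.differentiableAt.hasFDerivAt.isBigO_sub.bound
  -- the values vanish
  have hz : ∀ᶠ k in atTop, Fr θ R S F (a k) = 0 := by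
    set M : ℝ := (∑ i, (‖pv θ (R i) ξ‖ + ‖pv θ (S i) ξ‖)) + 1 with hM
    have hMi : ∀ i, ‖pv θ (R i) ξ‖ + ‖pv θ (S i) ξ‖ + 1 ≤ M := by
      intro i
      have := Finset.single_le_sum (f := fun i => ‖pv θ (R i) ξ‖ + ‖pv θ (S i) ξ‖) (fun _ _ => by positivity)
        (Finset.mem_univ i)
      linarith
    obtain ⟨k₁, hk₁⟩ := pow_unbounded_of_one_lt M (one_lt_two)
    obtain ⟨C₀, hC₀⟩ := cm_main
    set c' := 2 * (dr R S + k₁) + 1 with hc'
    set B : ℝ := (∑ i, ‖ξ i‖) + 1 + ‖θ‖ with hBd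
    obtain ⟨C₁, hC₁⟩ := lower F B (c' * C₀)
    have hL0 : 0 ≤ |L| + 1 := by positivity
    obtain ⟨k₂, hk₂⟩ := pow_unbounded_of_one_lt (Real.log (|L| + 1) + 2) (one_lt_two)
    have hA1 : ∀ᶠ x in 𝓝 ξ, ∀ i, ‖pv θ (R i) x‖ ≤ M ∧ ‖pv θ (S i) x‖ ≤ M := by
      rw [eventually_all]
      intro i
      filter_upwards [ev_bd (ξ := ξ) (θ := θ) (R i), ev_bd (ξ := ξ) (θ := θ) (S i)] with x h1 h2
      have := hMi i
      have n1 := norm_nonneg (pv θ (R i) ξ)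
      have n2 := norm_nonneg (pv θ (S i) ξ)
      exact ⟨by linarith, by linarith⟩
    filter_upwards [ht.eventually hev, ht.eventually hA1, ht.eventually hL, eventually_ge_atTop (C₁ + k₂)] with
      k e1 e2 e3 e4
    by_contra hne
    set y : Fin n → ℂ := fun i => jf (Tr θ (R i) (S i) (a k)) with hy
    set H : ℕ := q k ^ c' with hH
    have hH2 : 2 ≤ H := (hq k).trans (Nat.le_self_pow (by omega) _)
    have hcm : ∀ i, IsIntegral ℤ (y i) ∧ (minpoly ℚ (y i)).natDegree ≤ H ^ C₀ ∧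
        ∀ x : ℂ, Polynomial.aeval x (minpoly ℚ (y i)) = 0 → ‖x‖ ≤ Real.exp ((H : ℝ) ^ C₀) := by
      intro i
      obtain ⟨u, v, w, hu0, hu, hv, hw, hroot⟩ := val_pt (R := R) (S := S) hk₁.le (hq k) (hOD k) i (e1 i).1
        (e2 i).1 (e2 i).2
      have hyi : y i = jj ⟨_, (e1 i).2⟩ := jf_eq (e1 i).2
      rw [hyi]
      exact hC₀ H hH2 ⟨_, (e1 i).2⟩ u v w hu0 hu hv hw hroot
    have hHr : (H : ℝ) ^ C₀ = (q k : ℝ) ^ (c' * C₀) := by
      rw [hH]
      push_cast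
      rw [← pow_mul]
    have hHn : H ^ C₀ = q k ^ (c' * C₀) := by
      rw [hH, ← pow_mul]
    have hFv : Fr θ R S F (a k) = aeval (Sum.elim (fun i => ap (D k) (q k) (u' k i) (v' k i)) y) F := by
      rw [Fr, hext]
    have hlow := hC₁ (D k) (q k) (hq k) (hD1 k) (hDq k) (u' k) (v' k) (fun i => by
      rw [← congrFun (hext k) i]
      have hs0 : (0 : ℝ) ≤ ∑ i, ‖ξ i‖ := Finset.sum_nonneg fun _ _ => norm_nonneg _
      have hth : 0 ≤ ‖θ‖ := norm_nonneg _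
      refine Fin.cases ?_ (fun i => ?_) i
      · simp only [ex, Fin.cons_zero]
        linarith
      · simp only [ex, Fin.cons_succ]
        have h1 := hsm k i
        have h2 : Real.exp (-(k : ℝ)) ≤ 1 := Real.exp_le_one_iff.2 (by simp)
        have h3 : ‖ξ i‖ ≤ ∑ i, ‖ξ i‖ := Finset.single_le_sum (f := fun i => ‖ξ i‖) (fun _ _ => norm_nonneg _)
          (Finset.mem_univ i)
        have h4 : ‖a k i‖ ≤ ‖ξ i‖ + ‖ξ i - a k i‖ := by
          have := norm_sub_norm_le (a k i) (ξ i)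
          rw [norm_sub_rev] at this
          linarith
        linarith) y (fun j => (hcm j).1) (fun j => (hcm j).2.1.trans hHn.le) (fun j x hx => by
      rw [← hHr]
      exact (hcm j).2.2 x hx) (by rw [← hFv]; exact hne)
    rw [← hFv] at hlow
    rw [h0, sub_zero] at e3
    have hup : ‖a k - ξ‖ ≤ Real.exp (-(q k : ℝ) ^ k) := by
      rw [pi_norm_le_iff_of_nonneg (Real.exp_pos _).le]
      intro i
      rw [Pi.sub_apply, hnorm]
      exact (hp k i).2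
    have h5 : ‖Fr θ R S F (a k)‖ ≤ (|L| + 1) * Real.exp (-(q k : ℝ) ^ k) := by
      refine e3.trans ?_
      have h6 : L ≤ |L| + 1 := by linarith [le_abs_self L]
      calc L * ‖a k - ξ‖ ≤ (|L| + 1) * ‖a k - ξ‖ := mul_le_mul_of_nonneg_right h6 (norm_nonneg _)
        _ ≤ _ := mul_le_mul_of_nonneg_left hup hL0
    have hlp : 0 < |L| + 1 := by positivity
    have h7 : Real.exp (-(q k : ℝ) ^ C₁) ≤ Real.exp (Real.log (|L| + 1) - (q k : ℝ) ^ k) := by
      rw [sub_eq_add_neg, Real.exp_add, Real.exp_log hlp]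
      exact hlow.trans h5
    rw [Real.exp_le_exp] at h7
    have hlog : 0 ≤ Real.log (|L| + 1) := Real.log_nonneg (by linarith [abs_nonneg L])
    have hq1 : (1 : ℝ) ≤ q k := by linarith [hqr k]
    have h8 : (q k : ℝ) ^ C₁ * (Real.log (|L| + 1) + 2) ≤ (q k : ℝ) ^ k := by
      calc (q k : ℝ) ^ C₁ * (Real.log (|L| + 1) + 2) ≤ (q k : ℝ) ^ C₁ * 2 ^ k₂ :=
            mul_le_mul_of_nonneg_left hk₂.le (by positivity)
        _ ≤ (q k : ℝ) ^ C₁ * (q k : ℝ) ^ k₂ :=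
            mul_le_mul_of_nonneg_left (pow_le_pow_left₀ (by norm_num) (hqr k) _) (by positivity)
        _ = (q k : ℝ) ^ (C₁ + k₂) := (pow_add _ _ _).symm
        _ ≤ (q k : ℝ) ^ k := pow_le_pow_right₀ hq1 e4
    have h9 : (1 : ℝ) ≤ (q k : ℝ) ^ C₁ := one_le_pow₀ hq1
    nlinarith
  -- the conclusion
  have key : (fun x => Fr θ R S F (ξ + x)) =ᶠ[𝓝 0] 0 := by
    refine eq_zero_of_small (ρ := fun k : ℕ => Real.exp (-(k : ℝ))) (fun _ => (Real.exp_pos _).le) hexp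
      (δ := fun k => a k - ξ) ?_ ?_ ?_ ?_ ?_
    · intro k i h1
      rw [Pi.sub_apply] at h1
      exact (hp k i).1 (sub_eq_zero.1 h1).symm
    · intro i κ
      filter_upwards [eventually_ge_atTop (κ + 4)] with k hk
      rw [Pi.sub_apply, hnorm]
      refine (hp k i).2.trans ?_
      rw [← Real.exp_nat_mul]
      apply Real.exp_le_exp.2
      have h1 : (κ : ℝ) * k ≤ (q k : ℝ) ^ k := by
        have h2 : (κ * k) ≤ 2 ^ k := (Nat.mul_le_mul_right k (by omega)).trans (sq_le_two (by omega))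
        have h3 : ((2 : ℕ) : ℝ) ^ k ≤ (q k : ℝ) ^ k := pow_le_pow_left₀ (by norm_num) (by exact_mod_cast hq k) _
        have h4 : (κ : ℝ) * k ≤ ((2 : ℕ) : ℝ) ^ k := by exact_mod_cast h2
        linarith
      linarith
    · intro i j hij κ
      filter_upwards [eventually_ge_atTop κ] with k hk
      rw [Pi.sub_apply, Pi.sub_apply, hnorm, hnorm]
      refine (hh k i j hij).trans ?_
      have h1 : ‖ξ i - a k i‖ ≤ 1 := (hsm k i).trans (Real.exp_le_one_iff.2 (by simp))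
      exact pow_le_pow_of_le_one (norm_nonneg _) h1 hk
    · have h1 : AnalyticAt ℂ (fun x : Fin m → ℂ => ξ + x) 0 := analyticAt_const.add analyticAt_id
      have h2 : AnalyticAt ℂ (Fr θ R S F) (ξ + 0) := by rwa [add_zero]
      exact AnalyticAt.fun_comp (g := Fr θ R S F) (f := fun x : Fin m → ℂ => ξ + x) h2 h1
    · filter_upwards [hz] with k hk
      rw [add_sub_cancel]
      exact hk
  have h3 : Tendsto (fun x : Fin m → ℂ => x - ξ) (𝓝 ξ) (𝓝 0) := by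
    have : Tendsto (fun x : Fin m → ℂ => x - ξ) (𝓝 ξ) (𝓝 (ξ - ξ)) := (tendsto_id.sub tendsto_const_nhds)
    rwa [sub_self] at this
  filter_upwards [h3.eventually key] with x hx
  rw [add_sub_cancel] at hx
  exact hx

end Pool.Agent.NH23.Cx
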