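import Pool.Agent.NH23.CxC

/-!
# No relations at a point approximated by elements of imaginary quadratic fields
-/

set_option autoImplicit false

open Filter Topology MvPolynomial UpperHalfPlane IntermediateField

noncomputable section

namespace Pool.Agent.NH23.Cx

open Pool.Agent.NH23.Pair (Alg)
open Pool.Agent.NH23.Tup (Tpl)
open Pool.Agent.NH23.Core (hom_aeval)
open Pool.Agent.NH23.Fld
open Pool.Agent.Y776 (jf)

variable {m n : ℕ} {θ : ℂ} {ξ : Fin m → ℂ} {R S : Fin n → MvPolynomial (Fin (m + 1)) ℤ} {z : Fin n → ℂ}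

/-- the polynomial in the remaining variables -/
def sb (θ : ℂ) (A : MvPolynomial (Fin (m + 1)) ℤ) : MvPolynomial (Fin m) ℂ :=
  aeval (Fin.cons (MvPolynomial.C θ) X : Fin (m + 1) → MvPolynomial (Fin m) ℂ) A

theorem sb_eval (θ : ℂ) (A : MvPolynomial (Fin (m + 1)) ℤ) (x : Fin m → ℂ) : eval x (sb θ A) = pv θ A x := by
  rw [sb, hom_aeval, pv, ex]
  congr 2
  funext i
  refine Fin.cases ?_ (fun i => ?_) i
  · simp
  · simp

/-- the direction polynomial -/
def Qr (θ : ℂ) (R S : MvPolynomial (Fin (m + 1)) ℤ) (z : ℂ) : MvPolynomial (Fin m) ℂ :=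
  sb θ R - MvPolynomial.C z * sb θ S

theorem Qr_eval (θ : ℂ) (R S : MvPolynomial (Fin (m + 1)) ℤ) (z : ℂ) (x : Fin m → ℂ) :
    eval x (Qr θ R S z) = pv θ R x - z * pv θ S x := by
  rw [Qr, map_sub, map_mul, eval_C, sb_eval, sb_eval]

theorem Qr_ne {D₀ : ℕ} {R S : MvPolynomial (Fin (m + 1)) ℤ} {z : ℂ} {ξ : Fin m → ℂ} (hS : pv (rd D₀) S ξ ≠ 0)
    (hz : ∀ a b c : ℤ, (a : ℂ) * z ^ 2 + b * z + c = 0 → a = 0) : Qr (rd D₀) R S z ≠ 0 := by
  intro h0
  have hS0 : sb (rd D₀) S ≠ 0 := by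
    intro h1
    rw [← sb_eval, h1, map_zero] at hS
    exact hS rfl
  obtain ⟨x, hx, hxS⟩ : ∃ x : Fin m → ℂ, (∀ i, ∃ a : ℤ, x i = a) ∧ eval x (sb (rd D₀) S) ≠ 0 := by
    by_contra hcon
    push Not at hcon
    apply hS0
    refine MvPolynomial.funext_set (fun _ => Set.range fun a : ℤ => (a : ℂ))
      (fun _ => Set.infinite_range_of_injective Int.cast_injective) fun x hx => ?_
    rw [map_zero]
    refine hcon x fun i => ?_
    obtain ⟨a, ha⟩ := hx i (Set.mem_univ i)
    exact ⟨a, ha.symm⟩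
  rw [sb_eval] at hxS
  have hOD : ∀ i, OD D₀ (((1 : ℕ) : ℂ) * ex (rd D₀) x i) := by
    intro i
    rw [Nat.cast_one, one_mul]
    refine Fin.cases ?_ (fun i => ?_) i
    · exact ⟨0, 1, by simp [ex]⟩
    · obtain ⟨a, ha⟩ := hx i
      simp only [ex, Fin.cons_succ]
      rw [ha]
      exact OD.int a
  have o1 := OD.poly R le_rfl hOD
  have o2 := OD.poly S le_rfl hOD
  rw [Nat.cast_one, one_pow, one_mul] at o1 o2
  obtain ⟨a, b, c, ha, _, _, _, hroot⟩ := cm_quot (B := ‖(aeval (ex (rd D₀) x) R : ℂ)‖ + ‖(aeval (ex (rd D₀) x) S : ℂ)‖)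
    o1 o2 hxS (by linarith [norm_nonneg (aeval (ex (rd D₀) x) S : ℂ)])
    (by linarith [norm_nonneg (aeval (ex (rd D₀) x) R : ℂ)])
  have h2 := Qr_eval (rd D₀) R S z x
  rw [h0, map_zero] at h2
  have h3 : z = pv (rd D₀) R x / pv (rd D₀) S x := by
    rw [eq_div_iff hxS]
    linear_combination h2
  rw [show (aeval (ex (rd D₀) x) R : ℂ) / aeval (ex (rd D₀) x) S = z from h3.symm] at hroot
  exact ha (hz a b c hroot)

theorem core2 {D₀ : ℕ} (hξ : Hx D₀ ξ) (h : Rd (rd D₀) ξ R S z)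
    (hcm : ∀ i, ∀ a b c : ℤ, (a : ℂ) * z i ^ 2 + b * z i + c = 0 → a = 0)
    (hine : ∀ i k, i ≠ k → ∀ a b c d : ℚ, 0 < a * d - b * c → z k * (c * z i + d) ≠ a * z i + b)
    (F : MvPolynomial (Fin (m + 1) ⊕ Fin n) ℤ) (h0 : aeval (Sum.elim (ex (rd D₀) ξ) fun i => jf (z i)) F = (0 : ℂ)) :
    ∀ y : Fin n → ℂ, aeval (Sum.elim (ex (rd D₀) ξ) y) F = (0 : ℂ) := by
  classical
  set θ := rd D₀ with hθ
  have hF0 : Fr θ R S F ξ = 0 := by
    rw [Fr, ← h0]
    congr 2
    congr 1
    funext i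
    rw [h.val i]
  have hev := (core1 hξ h F hF0).and h.ev
  obtain ⟨x₀, hx₀⟩ : ∃ x₀ : Fin m → ℂ, eval x₀ (∏ i, Qr θ (R i) (S i) (z i)) ≠ 0 := by
    by_contra hcon
    push Not at hcon
    have h1 : (∏ i, Qr θ (R i) (S i) (z i)) = 0 := MvPolynomial.funext fun x => by rw [hcon x, map_zero]
    obtain ⟨i, _, hi⟩ := Finset.prod_eq_zero_iff.1 h1
    exact Qr_ne (h.ne i) (hcm i) hi
  rw [map_prod] at hx₀
  have hx : ∀ i, eval x₀ (Qr θ (R i) (S i) (z i)) ≠ 0 := fun i hi =>
    hx₀ (Finset.prod_eq_zero (Finset.mem_univ i) hi)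
  set l : ℂ → Fin m → ℂ := fun t k => ξ k + t * (x₀ k - ξ k) with hl
  have hlan : ∀ t, AnalyticAt ℂ l t := by
    intro t
    rw [analyticAt_pi_iff]
    intro k
    exact analyticAt_const.add (analyticAt_id.mul analyticAt_const)
  have hl0 : l 0 = ξ := by
    funext k
    simp [hl]
  have hl1 : l 1 = x₀ := by
    funext k
    simp [hl]
  have hlt : Tendsto l (𝓝 0) (𝓝 ξ) := by
    have := (hlan 0).continuousAt.tendsto
    rwa [hl0] at this
  obtain ⟨r, hr, hball⟩ := Metric.eventually_nhds_iff_ball.1 (hlt.eventually hev)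
  set U := Metric.ball (0 : ℂ) r with hU
  have h0U : (0 : ℂ) ∈ U := Metric.mem_ball_self hr
  set τ : Fin n → ℂ → ℂ := fun i t => Tr θ (R i) (S i) (l t) with hτ
  have hτ0 : ∀ i, τ i 0 = z i := by
    intro i
    rw [hτ]
    simp only
    rw [hl0]
    exact h.val i
  have hSne : ∀ i, ∀ t ∈ U, pv θ (S i) (l t) ≠ 0 := fun i t ht => ((hball t ht).2 i).1
  have hroot : ∀ i, ∀ t ∈ U, pv θ (S i) (l t) * τ i t - pv θ (R i) (l t) = 0 := by
    intro i t ht
    rw [hτ]
    simp only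
    rw [Tr, mul_div_cancel₀ _ (hSne i t ht), sub_self]
  have htpl : Tpl U τ :=
    { op := Metric.isOpen_ball
      conn := (convex_ball _ _).isPreconnected
      ne := ⟨0, h0U⟩
      an := fun i t ht => AnalyticAt.fun_comp (g := Tr θ (R i) (S i)) (f := l) (an_Tr _ _ (hSne i t ht)) (hlan t)
      im := fun i t ht => ((hball t ht).2 i).2
      nc := by
        intro i c
        by_contra hcon
        push Not at hcon
        have hc : c = z i := by rw [← hcon 0 h0U, hτ0]
        subst hc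
        have han : AnalyticOnNhd ℂ (fun t => eval (l t) (Qr θ (R i) (S i) (z i))) Set.univ := by
          intro t _
          have h1 := (AnalyticOnNhd.eval_mvPolynomial (𝕜 := ℂ) (Qr θ (R i) (S i) (z i))) (l t) (Set.mem_univ _)
          exact AnalyticAt.fun_comp (g := fun x => eval x (Qr θ (R i) (S i) (z i))) (f := l) h1 (hlan t)
        have h1 := han.eqOn_zero_of_preconnected_of_eventuallyEq_zero isPreconnected_univ (Set.mem_univ (0 : ℂ)) (by
          filter_upwards [Metric.isOpen_ball.mem_nhds h0U] with t ht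
          have h2 := hroot i t ht
          rw [hcon t ht] at h2
          rw [Qr_eval]
          show _ = (0 : ℂ)
          linear_combination -h2)
        have h2 := h1 (Set.mem_univ (1 : ℂ))
        simp only [Pi.zero_apply] at h2
        rw [hl1] at h2
        exact hx i h2
      alg := by
        intro i
        set g : Fin (m + 1) → MvPolynomial (Fin 2) ℂ := Fin.cons (MvPolynomial.C θ)
          (fun k => MvPolynomial.C (ξ k) + X 0 * MvPolynomial.C (x₀ k - ξ k)) with hg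
        have hgt : ∀ t s : ℂ, ∀ A : MvPolynomial (Fin (m + 1)) ℤ, eval ![t, s] (aeval g A) = pv θ A (l t) := by
          intro t s A
          rw [hom_aeval, pv]
          congr 2
          funext k
          refine Fin.cases ?_ (fun k => ?_) k
          · simp [hg, ex]
          · simp [hg, ex, hl]
        have hG : ∀ t s : ℂ, eval ![t, s] (aeval g (S i) * X 1 - aeval g (R i)) =
            pv θ (S i) (l t) * s - pv θ (R i) (l t) := by
          intro t s
          rw [map_sub, map_mul, eval_X, hgt, hgt]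
          rfl
        refine ⟨aeval g (S i) * X 1 - aeval g (R i), ?_, ?_⟩
        · intro hz
          have e0 := hG 0 0
          have e1 := hG 0 1
          rw [hz, map_zero] at e0 e1
          apply hSne i 0 h0U
          linear_combination e0 - e1
        · intro t ht
          rw [hG]
          exact hroot i t ht
      inc := by
        intro i k hik a b c d hdet
        refine ⟨0, h0U, ?_⟩
        rw [hτ0, hτ0]
        exact hine i k hik a b c d hdet }
  have hloc := htpl.loc 0 h0U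
  set G : Fin (m + 1) ⊕ Fin n → MvPolynomial (Option (Fin n)) ℂ :=
    Sum.elim (Fin.cons (MvPolynomial.C θ) (fun k => MvPolynomial.C (ξ k) + X none * MvPolynomial.C (x₀ k - ξ k)))
      (fun i => X (some i)) with hG
  have hGev : ∀ (t : ℂ) (y : Fin n → ℂ), eval (fun o : Option (Fin n) => o.elim t y) (aeval G F) =
      aeval (Sum.elim (ex θ (l t)) y) F := by
    intro t y
    rw [hom_aeval]
    congr 2
    funext k
    rcases k with k | k
    · refine Fin.cases ?_ (fun k => ?_) k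
      · simp [hG, ex]
      · simp [hG, ex, hl]
    · simp [hG]
  have hR : aeval G F = 0 := by
    apply hloc
    filter_upwards [Metric.isOpen_ball.mem_nhds h0U] with t ht
    rw [hGev]
    exact (hball t ht).1
  intro y
  have h1 := hGev 0 y
  rw [hR, map_zero, hl0] at h1
  exact h1.symm

/-- hierarchical approximations for all finite subsets -/
def HierC (D₀ : ℕ) (S : Set ℂ) : Prop := ∀ T : Finset ℂ, (T : Set ℂ) ⊆ S → ∃ (m : ℕ) (ξ : Fin m → ℂ), Set.range ξ = T ∧ Hx D₀ ξ

theorem range_ex (θ : ℂ) (ξ : Fin m → ℂ) : Set.range (ex θ ξ) = insert θ (Set.range ξ) := by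
  ext x
  constructor
  · rintro ⟨i, rfl⟩
    refine Fin.cases ?_ (fun i => ?_) i
    · exact Or.inl rfl
    · exact Or.inr ⟨i, rfl⟩
  · rintro (rfl | ⟨i, rfl⟩)
    · exact ⟨0, rfl⟩
    · exact ⟨i.succ, rfl⟩

/-- **the theorem for complex fields** -/
theorem main_cx {D₀ : ℕ} {S : Set ℂ} (hS : HierC D₀ S) {n : ℕ} {z : Fin n → ℂ} (him : ∀ i, 0 < (z i).im)
    (hz : ∀ i, z i ∈ adjoin ℚ (insert (rd D₀) S))
    (hcm : ∀ i, ∀ a b c : ℤ, (a : ℂ) * z i ^ 2 + b * z i + c = 0 → a = 0)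
    (hine : ∀ i k, i ≠ k → ∀ a b c d : ℚ, 0 < a * d - b * c → z k * (c * z i + d) ≠ a * z i + b) :
    AlgebraicIndependent (adjoin ℚ (insert (rd D₀) S)) (fun i => jf (z i)) := by
  classical
  apply indep
  intro W hW
  obtain ⟨T, hT, hTW⟩ := exists_fin (W ∪ Finset.univ.image z) (S := insert (rd D₀) S) (by
      intro x hx
      simp only [Finset.coe_union, Finset.coe_image, Finset.coe_univ, Set.image_univ, Set.mem_union] at hx
      rcases hx with hx | ⟨i, rfl⟩
      · exact hW hx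
      · exact hz i)
  obtain ⟨m, ξ, hξT, hξ⟩ := hS (T.filter (· ∈ S)) (by
    intro x hx
    exact (Finset.mem_filter.1 (Finset.mem_coe.1 hx)).2)
  have hsubT : (T : Set ℂ) ⊆ Set.range (ex (rd D₀) ξ) := by
    rw [range_ex, hξT]
    intro x hx
    rcases hT hx with h | h
    · exact Or.inl h
    · exact Or.inr (Finset.mem_coe.2 (Finset.mem_filter.2 ⟨hx, h⟩))
  have hsub : ∀ x, x ∈ W ∪ Finset.univ.image z → x ∈ adjoin ℚ (Set.range (ex (rd D₀) ξ)) := fun x hx =>
    adjoin.mono _ _ _ hsubT (hTW (Finset.mem_coe.2 hx))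
  refine ⟨m + 1, ex (rd D₀) ξ, fun x hx => hsub x (by simp [Finset.mem_coe.1 hx]), ?_⟩
  have hex : ∀ i, ∃ R S : MvPolynomial (Fin (m + 1)) ℤ, pv (rd D₀) S ξ ≠ 0 ∧ z i * pv (rd D₀) S ξ = pv (rd D₀) R ξ :=
    fun i => frac (hsub (z i) (by simp))
  choose R S hne heq using hex
  intro F hF
  exact core2 hξ ⟨him, hne, heq⟩ hcm hine F hF

end Pool.Agent.NH23.Cx
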