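import Pool.Agent.NH23.CxD
import Pool.Agent.NH23.Ind

/-!
# An explicit set of complex numbers
-/

set_option autoImplicit false

open Filter Topology MvPolynomial

noncomputable section

namespace Pool.Agent.NH23.Cx

open Pool.Agent.NH23.Core (ee ee_pos ee_succ ee_lt ee_mono ix ix_ge ix_lt ix_succ ix_mono qd qd_ge ee_two ix_lt_ix clearQ)

variable {m : ℕ}

/-- no relation between the numbers themselves -/
theorem Hx.no_rel {D₀ : ℕ} {ξ : Fin m → ℂ} (hξ : Hx D₀ ξ) (G : MvPolynomial (Fin m) ℤ) (h : aeval ξ G = (0 : ℂ)) :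
    G = 0 := by
  classical
  have hr : Rd (n := 0) (rd D₀) ξ (fun k => k.elim0) (fun k => k.elim0) (fun k => k.elim0) :=
    ⟨fun i => i.elim0, fun i => i.elim0, fun i => i.elim0⟩
  set F : MvPolynomial (Fin (m + 1) ⊕ Fin 0) ℤ := rename (fun i : Fin m => Sum.inl i.succ) G with hF
  have e1 : ∀ x : Fin m → ℂ, Fr (n := 0) (rd D₀) (fun k => k.elim0) (fun k => k.elim0) F x = aeval x G := by
    intro x
    rw [Fr, hF, aeval_rename]
    congr 2
  have h1 := core1 hξ hr F (by rw [e1]; exact h)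
  have h2 : MvPolynomial.map (algebraMap ℤ ℂ) G = 0 := by
    apply MvPolynomial.funext
    have han : AnalyticOnNhd ℂ (fun x : Fin m → ℂ => eval x (MvPolynomial.map (algebraMap ℤ ℂ) G)) Set.univ :=
      AnalyticOnNhd.eval_mvPolynomial (𝕜 := ℂ) _
    have h3 := han.eqOn_zero_of_preconnected_of_eventuallyEq_zero isPreconnected_univ (Set.mem_univ ξ) (by
      filter_upwards [h1] with x hx
      rw [e1] at hx
      rw [eval_map, ← aeval_def]
      exact hx)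
    intro x
    rw [map_zero]
    exact h3 (Set.mem_univ x)
  exact MvPolynomial.map_injective _ (algebraMap ℤ ℂ).injective_int (by rw [h2, map_zero])

theorem Hx.algInd {D₀ : ℕ} {ξ : Fin m → ℂ} (hξ : Hx D₀ ξ) : AlgebraicIndependent ℚ ξ := by
  rw [algebraicIndependent_iff]
  intro P hP
  obtain ⟨G, N, hN, hG⟩ := clearQ P
  have h1 : aeval ξ (MvPolynomial.map (Int.castRingHom ℚ) G) = (0 : ℂ) := by rw [hG, map_mul, hP, mul_zero]
  have h2 : aeval ξ G = (0 : ℂ) := by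
    rw [← h1, aeval_def, aeval_def, eval₂_map]
    congr 1
  have h3 := hξ.no_rel G h2
  rw [h3, map_zero] at hG
  refine (mul_eq_zero.1 hG.symm).resolve_left fun h4 => hN ?_
  rw [C_eq_zero] at h4
  exact_mod_cast h4

theorem HierC.algInd {D₀ : ℕ} {S : Set ℂ} (hS : HierC D₀ S) : AlgebraicIndependent ℚ ((↑) : S → ℂ) := by
  classical
  apply algebraicIndependent_of_finite
  intro t ht hfin
  obtain ⟨m, ξ, h1, h2⟩ := hS hfin.toFinset (by rwa [hfin.coe_toFinset])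
  rw [hfin.coe_toFinset] at h1
  exact h2.algInd.to_subtype_range' h1

/-- the terms -/
def tm (t : ℝ) (l : ℕ) : ℂ := (2 + Complex.I) ^ l * (1 / 2 : ℂ) ^ ee (ix t l)

/-- the numbers -/
def mu (t : ℝ) : ℂ := ∑' l : ℕ, (2 + Complex.I) ^ l * (1 / 2 : ℂ) ^ ee ⌊(2 : ℝ) ^ l * t⌋₊

theorem mu_eq (t : ℝ) : mu t = ∑' l : ℕ, tm t l := rfl

theorem nI : ‖(2 + Complex.I : ℂ)‖ ^ 2 = 5 := by
  rw [← Complex.normSq_eq_norm_sq, Complex.normSq_apply]
  simp
  norm_num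

theorem nI_le : ‖(2 + Complex.I : ℂ)‖ ≤ 4 := by
  have := nI
  nlinarith [norm_nonneg (2 + Complex.I : ℂ)]

theorem nI_ge : 1 ≤ ‖(2 + Complex.I : ℂ)‖ := by
  have := nI
  nlinarith [norm_nonneg (2 + Complex.I : ℂ)]

theorem norm_tm (t : ℝ) (l : ℕ) : ‖tm t l‖ = ‖(2 + Complex.I : ℂ)‖ ^ l * (1 / 2 : ℝ) ^ ee (ix t l) := by
  rw [tm, norm_mul, norm_pow, norm_pow]
  norm_num

theorem ee_diff {t : ℝ} (ht : 1 ≤ t) (ht2 : t < 2) (l : ℕ) : ee (ix t l) + 4 ≤ ee (ix t (l + 1)) := by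
  have h1 : 1 ≤ ix t l := Nat.one_le_two_pow.trans (ix_ge ht l)
  have h2 : ee (ix t l + 1) ≤ ee (ix t (l + 1)) := ee_mono.monotone (ix_succ ht ht2 l)
  have h3 := ee_succ (ix t l)
  have h4 : 4 ≤ ee (ix t l) := by
    calc 4 = ee 1 := by norm_num [ee]
      _ ≤ _ := ee_mono.monotone h1
  nlinarith

theorem tm_succ {t : ℝ} (ht : 1 ≤ t) (ht2 : t < 2) (l : ℕ) : ‖tm t (l + 1)‖ ≤ ‖tm t l‖ * (1 / 4) := by
  rw [norm_tm, norm_tm, pow_succ]
  have h1 : (1 / 2 : ℝ) ^ ee (ix t (l + 1)) ≤ (1 / 2 : ℝ) ^ ee (ix t l) * (1 / 16) := by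
    calc (1 / 2 : ℝ) ^ ee (ix t (l + 1)) ≤ (1 / 2 : ℝ) ^ (ee (ix t l) + 4) :=
          pow_le_pow_of_le_one (by norm_num) (by norm_num) (ee_diff ht ht2 l)
      _ = _ := by rw [pow_add]; norm_num
  have h2 := nI_le
  have h3 : 0 ≤ ‖(2 + Complex.I : ℂ)‖ ^ l := by positivity
  calc ‖(2 + Complex.I : ℂ)‖ ^ l * ‖(2 + Complex.I : ℂ)‖ * (1 / 2 : ℝ) ^ ee (ix t (l + 1))
      ≤ ‖(2 + Complex.I : ℂ)‖ ^ l * 4 * ((1 / 2 : ℝ) ^ ee (ix t l) * (1 / 16)) := by gcongr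
    _ = _ := by ring

theorem tm_add {t : ℝ} (ht : 1 ≤ t) (ht2 : t < 2) (l k : ℕ) : ‖tm t (l + k)‖ ≤ ‖tm t l‖ * (1 / 4) ^ k := by
  induction k with
  | zero => simp
  | succ k ih =>
    calc ‖tm t (l + (k + 1))‖ ≤ ‖tm t (l + k)‖ * (1 / 4) := tm_succ ht ht2 (l + k)
      _ ≤ (‖tm t l‖ * (1 / 4) ^ k) * (1 / 4) := by gcongr
      _ = _ := by rw [pow_succ]; ring

theorem summ_geo (c : ℝ) : Summable fun k : ℕ => c * (1 / 4 : ℝ) ^ k :=
  (summable_geometric_of_lt_one (by norm_num) (by norm_num)).mul_left c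

theorem summ_n {t : ℝ} (ht : 1 ≤ t) (ht2 : t < 2) (l : ℕ) : Summable fun k : ℕ => ‖tm t (l + k)‖ :=
  Summable.of_nonneg_of_le (fun _ => norm_nonneg _) (fun k => tm_add ht ht2 l k) (summ_geo _)

theorem summ_l {t : ℝ} (ht : 1 ≤ t) (ht2 : t < 2) (l : ℕ) : Summable fun k : ℕ => tm t (l + k) :=
  (summ_n ht ht2 l).of_norm

/-- the tails -/
def tl (t : ℝ) (l : ℕ) : ℂ := ∑' k : ℕ, tm t (l + k)

theorem tl_split {t : ℝ} (ht : 1 ≤ t) (ht2 : t < 2) (l : ℕ) : tl t l = tm t l + tl t (l + 1) := by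
  rw [tl, (summ_l ht ht2 l).tsum_eq_zero_add, tl]
  congr 1
  refine tsum_congr fun k => ?_
  congr 1
  ring

theorem tl_bd {t : ℝ} (ht : 1 ≤ t) (ht2 : t < 2) (l : ℕ) : ‖tl t l‖ ≤ ‖tm t l‖ * (4 / 3) := by
  have h1 : ‖tl t l‖ ≤ ∑' k : ℕ, ‖tm t (l + k)‖ := norm_tsum_le_tsum_norm (summ_n ht ht2 l)
  have h2 := (summ_n ht ht2 l).tsum_le_tsum (fun k => tm_add ht ht2 l k) (summ_geo _)
  rw [tsum_mul_left, tsum_geometric_of_lt_one (by norm_num) (by norm_num)] at h2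
  calc _ ≤ _ := h1.trans h2
    _ = _ := by norm_num

theorem tl_ge {t : ℝ} (ht : 1 ≤ t) (ht2 : t < 2) (l : ℕ) : ‖tm t l‖ / 2 ≤ ‖tl t l‖ := by
  have h1 := tl_split ht ht2 l
  have h2 : ‖tm t l‖ ≤ ‖tl t l‖ + ‖tl t (l + 1)‖ := by
    have : tm t l = tl t l - tl t (l + 1) := by rw [h1]; ring
    rw [this]
    exact norm_sub_le _ _
  have h3 := tl_bd ht ht2 (l + 1)
  have h4 := tm_succ ht ht2 l
  have h5 := norm_nonneg (tm t l)
  linarith

theorem tm_pos (t : ℝ) (l : ℕ) : 0 < ‖tm t l‖ := by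
  rw [norm_tm]
  have := nI_ge
  positivity

/-- an upper bound -/
theorem tl_up {t : ℝ} (ht : 1 ≤ t) (ht2 : t < 2) {l : ℕ} (hl : 2 * l + 1 ≤ ee (ix t l)) :
    ‖tl t l‖ ≤ (1 / 2 : ℝ) ^ (ee (ix t l) - (2 * l + 1)) := by
  have h1 := tl_bd ht ht2 l
  rw [norm_tm] at h1
  have h2 : ‖(2 + Complex.I : ℂ)‖ ^ l ≤ 4 ^ l := pow_le_pow_left₀ (norm_nonneg _) nI_le _
  have h3 : (1 / 2 : ℝ) ^ ee (ix t l) = (1 / 2 : ℝ) ^ (ee (ix t l) - (2 * l + 1)) * (1 / 2) ^ (2 * l + 1) := by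
    rw [← pow_add, Nat.sub_add_cancel hl]
  have h4 : (4 : ℝ) ^ l * (1 / 2) ^ (2 * l + 1) = 1 / 2 := by
    rw [pow_succ, pow_mul, ← mul_assoc, ← mul_pow]
    norm_num
  have h5 : 0 ≤ (1 / 2 : ℝ) ^ (ee (ix t l) - (2 * l + 1)) := by positivity
  calc ‖tl t l‖ ≤ ‖(2 + Complex.I : ℂ)‖ ^ l * (1 / 2 : ℝ) ^ ee (ix t l) * (4 / 3) := h1
    _ ≤ 4 ^ l * (1 / 2 : ℝ) ^ ee (ix t l) * (4 / 3) := by gcongr
    _ = (1 / 2 : ℝ) ^ (ee (ix t l) - (2 * l + 1)) * (4 ^ l * (1 / 2) ^ (2 * l + 1)) * (4 / 3) := by rw [h3]; ring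
    _ = (1 / 2 : ℝ) ^ (ee (ix t l) - (2 * l + 1)) * (2 / 3) := by rw [h4]; ring
    _ ≤ _ := by linarith

theorem tl_low {t : ℝ} (ht : 1 ≤ t) (ht2 : t < 2) (l : ℕ) : (1 / 2 : ℝ) ^ (ee (ix t l) + 1) ≤ ‖tl t l‖ := by
  have h1 := tl_ge ht ht2 l
  rw [norm_tm] at h1
  have h2 : 1 ≤ ‖(2 + Complex.I : ℂ)‖ ^ l := one_le_pow₀ nI_ge
  have h3 : 0 ≤ (1 / 2 : ℝ) ^ ee (ix t l) := by positivity
  calc (1 / 2 : ℝ) ^ (ee (ix t l) + 1) = 1 * (1 / 2 : ℝ) ^ ee (ix t l) / 2 := by rw [pow_succ]; ring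
    _ ≤ ‖(2 + Complex.I : ℂ)‖ ^ l * (1 / 2 : ℝ) ^ ee (ix t l) / 2 := by gcongr
    _ ≤ _ := h1

theorem mu_split {t : ℝ} (ht : 1 ≤ t) (ht2 : t < 2) (l : ℕ) : mu t = (∑ k ∈ Finset.range l, tm t k) + tl t l := by
  have h0 : Summable fun k : ℕ => tm t k := by
    have := summ_l ht ht2 0
    refine this.congr fun k => ?_
    rw [zero_add]
  rw [mu_eq, ← h0.sum_add_tsum_nat_add l, tl]
  congr 1
  refine tsum_congr fun k => ?_
  rw [add_comm]

theorem rd_one : rd 1 = Complex.I := by simp [rd]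

theorem head {t : ℝ} (ht : 1 ≤ t) (ht2 : t < 2) (l : ℕ) :
    ∃ u v : ℤ, ∑ k ∈ Finset.range l, tm t k = ap 1 (qd l) u v := by
  have hq0 : ((qd l : ℕ) : ℂ) ≠ 0 := by
    have := qd_ge l
    exact_mod_cast (by omega : qd l ≠ 0)
  have h1 : OD 1 ((qd l : ℂ) * ∑ k ∈ Finset.range l, tm t k) := by
    rw [Finset.mul_sum]
    refine Finset.sum_induction _ (OD 1) (fun _ _ => OD.add) (by simpa using OD.int (D := 1) 0) fun k hk => ?_
    have hk' : k < l := Finset.mem_range.1 hk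
    have h1 : ix t k ≤ 2 ^ l - 1 := by
      have h2 := ix_lt ht ht2 k
      have h3 : 2 ^ (k + 1) ≤ 2 ^ l := Nat.pow_le_pow_right (by norm_num) hk'
      omega
    have h2 : ee (ix t k) ≤ ee (2 ^ l - 1) := ee_mono.monotone h1
    have h3 : (qd l : ℂ) * tm t k = (2 + Complex.I) ^ k * (((2 : ℤ) : ℂ)) ^ (ee (2 ^ l - 1) - ee (ix t k)) := by
      rw [tm, qd]
      push_cast
      have h4 : (2 : ℂ) ^ ee (2 ^ l - 1) = (2 : ℂ) ^ (ee (2 ^ l - 1) - ee (ix t k)) * (2 : ℂ) ^ ee (ix t k) := by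
        rw [← pow_add, Nat.sub_add_cancel h2]
      have h5 : (2 : ℂ) ^ ee (ix t k) * (1 / 2 : ℂ) ^ ee (ix t k) = 1 := by
        rw [← mul_pow]
        norm_num
      rw [h4]
      linear_combination ((2 + Complex.I) ^ k * (2 : ℂ) ^ (ee (2 ^ l - 1) - ee (ix t k))) * h5
    rw [h3]
    refine OD.mul (OD.pow ⟨2, 1, ?_⟩ _) ((OD.int 2).pow _)
    rw [rd_one]
    push_cast
    ring
  obtain ⟨u, v, h⟩ := h1
  refine ⟨u, v, ?_⟩
  rw [ap, ← h, mul_div_cancel_left₀ _ hq0]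

theorem ee_ge (k : ℕ) : k + 1 ≤ ee k := by
  induction k with
  | zero => exact ee_pos 0
  | succ k ih => exact Nat.succ_le_of_lt (lt_of_le_of_lt ih (ee_lt k))

theorem qd_big (l : ℕ) : 2 ^ l ≤ qd l := by
  rw [qd]
  refine Nat.pow_le_pow_right (by norm_num) ?_
  have h1 := ee_ge (2 ^ l - 1)
  have h2 : l < 2 ^ l := Nat.lt_two_pow_self
  omega

/-- increasing parameters -/
theorem hx_mu {t : Fin m → ℝ} (ht : ∀ i, 1 ≤ t i ∧ t i < 2) (hmono : StrictMono t) : Hx 1 fun i => mu (t i) := by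
  classical
  intro κ
  have hev : ∀ᶠ l : ℕ in atTop, (κ + 2 ≤ 2 ^ l ∧ 2 * κ + 2 * l ≤ 2 ^ l) ∧
      ∀ i j, i < j → 1 ≤ (2 : ℝ) ^ l * (t j - t i) := by
    have h1 : Tendsto (fun l : ℕ => (2 : ℝ) ^ l) atTop atTop := tendsto_pow_atTop_atTop_of_one_lt (by norm_num)
    refine Filter.Eventually.and ?_ ?_
    · filter_upwards [eventually_ge_atTop (2 * κ + 4)] with l hl
      have h2 := Pool.Agent.NH23.Core.sq_le_two (k := l) (by omega)
      have h3 : l < 2 ^ l := Nat.lt_two_pow_self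
      refine ⟨by omega, ?_⟩
      calc 2 * κ + 2 * l ≤ l * l := by nlinarith
        _ ≤ _ := h2
    · rw [eventually_all]
      intro i
      rw [eventually_all]
      intro j
      by_cases hij : i < j
      · have h2 : 0 < t j - t i := sub_pos.2 (hmono hij)
        filter_upwards [(h1.atTop_mul_const h2).eventually_ge_atTop 1] with l hl _
        exact hl
      · exact Eventually.of_forall fun l h => absurd h hij
  obtain ⟨l, ⟨hl, hl2⟩, hl'⟩ := hev.exists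
  choose u v huv using fun i => head (ht i).1 (ht i).2 l
  have hval : ∀ i, mu (t i) - ap 1 (qd l) (u i) (v i) = tl (t i) l := by
    intro i
    rw [mu_split (ht i).1 (ht i).2 l, huv i]
    ring
  have hq := qd_ge l
  have hqb := qd_big l
  have hll : l < 2 ^ l := Nat.lt_two_pow_self
  -- the exponents are large
  have hbig : ∀ i, 2 * qd l ^ κ + (2 * l + 1) ≤ ee (ix (t i) l) := by
    intro i
    have h1 : ee (2 ^ l) ≤ ee (ix (t i) l) := ee_mono.monotone (ix_ge (ht i).1 l)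
    rw [ee_two] at h1
    have h2 : qd l ^ (κ + 3) ≤ qd l ^ (2 ^ l + 1) := Nat.pow_le_pow_right (by omega) (by omega)
    have h3 : qd l ^ κ ≤ qd l ^ (κ + 1) := Nat.pow_le_pow_right (by omega) (by omega)
    have h4 : qd l ^ 1 ≤ qd l ^ (κ + 1) := Nat.pow_le_pow_right (by omega) (by omega)
    have h5 : 4 * qd l ^ (κ + 1) ≤ qd l ^ (κ + 3) := by
      rw [show κ + 3 = (κ + 1) + 2 by ring, pow_add _ (κ + 1)]
      have : 4 ≤ qd l ^ 2 := by nlinarith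
      nlinarith [Nat.zero_le (qd l ^ (κ + 1))]
    rw [pow_one] at h4
    omega
  refine ⟨1, qd l, u, v, hq, le_refl 1, by omega, Or.inr rfl, fun i => ⟨?_, ?_⟩, fun i j hij => ?_⟩
  · intro h0
    have h1 := hval i
    simp only at h0
    rw [h0, sub_self] at h1
    have h2 := tl_low (ht i).1 (ht i).2 l
    rw [← h1, norm_zero] at h2
    have h3 : (0 : ℝ) < (1 / 2 : ℝ) ^ (ee (ix (t i) l) + 1) := by positivity
    linarith
  · simp only
    rw [hval]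
    refine (tl_up (ht i).1 (ht i).2 (by have := hbig i; omega)).trans ?_
    have h1 : (1 / 2 : ℝ) ^ (ee (ix (t i) l) - (2 * l + 1)) ≤ (1 / 2 : ℝ) ^ (2 * qd l ^ κ) :=
      pow_le_pow_of_le_one (by norm_num) (by norm_num) (by have := hbig i; omega)
    refine h1.trans ?_
    rw [pow_mul]
    have h2 : (1 / 2 : ℝ) ^ 2 ≤ Real.exp (-1) := by
      rw [Real.exp_neg, one_div, inv_pow]
      refine inv_anti₀ (Real.exp_pos _) ?_
      have := Real.exp_one_lt_d9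
      linarith
    calc ((1 / 2 : ℝ) ^ 2) ^ qd l ^ κ ≤ (Real.exp (-1)) ^ qd l ^ κ := pow_le_pow_left₀ (by positivity) h2 _
      _ = Real.exp (-(qd l : ℝ) ^ κ) := by
        rw [← Real.exp_nat_mul]
        congr 1
        push_cast
        ring
  · simp only
    rw [hval, hval]
    refine (tl_up (ht j).1 (ht j).2 (by have := hbig j; omega)).trans ?_
    refine le_trans ?_ (pow_le_pow_left₀ (by positivity) (tl_low (ht i).1 (ht i).2 l) κ)
    rw [← pow_mul]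
    refine pow_le_pow_of_le_one (by norm_num) (by norm_num) ?_
    have h1 := ix_lt_ix (ht i).1 (hl' i j hij)
    have h2 := ee_succ (ix (t i) l)
    have h3 : ee (ix (t i) l + 1) ≤ ee (ix (t j) l) := ee_mono.monotone h1
    have h4 := ix_ge (ht i).1 l
    have h5 := ee_pos (ix (t i) l)
    have h6 : (ee (ix (t i) l) + 1) * κ + 2 * l ≤ (ix (t i) l + 2) * ee (ix (t i) l) := by
      have h7 : 2 * κ + 2 * l ≤ ix (t i) l := hl2.trans h4
      calc (ee (ix (t i) l) + 1) * κ + 2 * l ≤ (2 * κ + 2 * l) * ee (ix (t i) l) := by nlinarith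
        _ ≤ (ix (t i) l + 2) * ee (ix (t i) l) := Nat.mul_le_mul_right _ (by omega)
    omega

/-- the set -/
def S1 : Set ℂ := mu '' Set.Ico 1 2

theorem hierC_S1 : HierC 1 S1 := by
  classical
  intro T hT
  have h1 : ∀ x : T, ∃ t ∈ Set.Ico (1 : ℝ) 2, mu t = x := fun x => hT x.2
  choose t ht hx using h1
  set T' : Finset ℝ := Finset.univ.image t with hT'
  have hT'm : ∀ s ∈ T', 1 ≤ s ∧ s < 2 := by
    intro s hs
    obtain ⟨x, _, rfl⟩ := Finset.mem_image.1 hs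
    exact ht x
  refine ⟨T'.card, fun i => mu (T'.orderEmbOfFin rfl i), ?_, hx_mu (fun i => hT'm _ (Finset.orderEmbOfFin_mem _ _ _))
    (OrderEmbedding.strictMono _)⟩
  ext x
  constructor
  · rintro ⟨i, rfl⟩
    obtain ⟨y, _, hy⟩ := Finset.mem_image.1 (Finset.orderEmbOfFin_mem T' rfl i)
    simp only
    rw [← hy, hx]
    exact y.2
  · intro hxT
    have h2 : t ⟨x, hxT⟩ ∈ T' := Finset.mem_image.2 ⟨_, Finset.mem_univ _, rfl⟩
    have h3 : t ⟨x, hxT⟩ ∈ Set.range (T'.orderEmbOfFin rfl) := by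
      rw [Finset.range_orderEmbOfFin]
      exact h2
    obtain ⟨i, hi⟩ := h3
    refine ⟨i, ?_⟩
    simp only
    rw [hi, hx]

theorem mu_inj : Set.InjOn mu (Set.Ico 1 2) := by
  have key : ∀ s ∈ Set.Ico (1 : ℝ) 2, ∀ t ∈ Set.Ico (1 : ℝ) 2, s < t → mu s ≠ mu t := by
    intro s hs t ht hst heq
    have hmono : StrictMono ![s, t] := by
      intro i j hij
      fin_cases i <;> fin_cases j <;> simp_all
    have h1 : Hx 1 fun i => mu (![s, t] i) := hx_mu (by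
      intro i
      fin_cases i
      · exact hs
      · exact ht) hmono
    have h2 := h1.algInd.injective (a₁ := 0) (a₂ := 1) heq
    exact absurd h2 (by decide)
  intro s hs t ht hst
  by_contra hne
  rcases lt_or_gt_of_ne hne with h | h
  · exact key s hs t ht h hst
  · exact key t ht s hs h hst.symm

theorem mk_S1 : Cardinal.mk S1 = Cardinal.continuum := by
  rw [S1, Cardinal.mk_image_eq_of_injOn _ _ mu_inj, Cardinal.mk_Ico_real (by norm_num)]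

end Pool.Agent.NH23.Cx
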