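import Mathlib

/-!
# Functions with the same Schwarzian derivative
-/

set_option autoImplicit false

open Filter Topology

noncomputable section

namespace Pool.Agent.NH23.Mob

/-- the logarithmic derivative of the derivative -/
def ld (t : ℂ → ℂ) (z : ℂ) : ℂ := deriv (deriv t) z / deriv t z

/-- the Schwarzian derivative -/
def Sf (t : ℂ → ℂ) (z : ℂ) : ℂ := deriv (ld t) z - ld t z ^ 2 / 2

variable {B : Set ℂ} {t₁ t₂ : ℂ → ℂ}

theorem const_quot (hB : IsOpen B) (hc : IsPreconnected B) {y f u : ℂ → ℂ} {k : ℂ → ℂ}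
    (hy : ∀ z ∈ B, HasDerivAt y (k z * y z) z) (hf : ∀ z ∈ B, HasDerivAt f (k z * f z) z)
    (hu : ∀ z ∈ B, HasDerivAt u (2 * k z * u z) z) (hu0 : ∀ z ∈ B, u z ≠ 0) {z₀ z : ℂ} (hz₀ : z₀ ∈ B) (hz : z ∈ B) :
    y z * f z / u z = y z₀ * f z₀ / u z₀ := by
  have h1 : ∀ z ∈ B, HasDerivAt (fun z => y z * f z / u z) 0 z := by
    intro z hz
    have h2 := ((hy z hz).mul (hf z hz)).fun_div (hu z hz) (hu0 z hz)
    refine HasDerivAt.congr_deriv (f := fun z => y z * f z / u z) h2 ?_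
    have := hu0 z hz
    simp only [Pi.mul_apply]
    field_simp
    ring
  exact hB.is_const_of_deriv_eq_zero hc (fun z hz => (h1 z hz).differentiableAt.differentiableWithinAt)
    (fun z hz => (h1 z hz).deriv) hz hz₀

/-- **Möbius transformations from the Schwarzian derivative** -/
theorem mobius (hB : IsOpen B) (hc : IsPreconnected B) (hne : B.Nonempty) (h₁ : AnalyticOnNhd ℂ t₁ B)
    (h₂ : AnalyticOnNhd ℂ t₂ B) (n₁ : ∀ z ∈ B, deriv t₁ z ≠ 0) (n₂ : ∀ z ∈ B, deriv t₂ z ≠ 0)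
    (hS : ∀ z ∈ B, Sf t₁ z = Sf t₂ z) :
    ∃ a b c d : ℂ, a * d - b * c ≠ 0 ∧ ∀ z ∈ B, t₁ z * (c * t₂ z + d) = a * t₂ z + b := by
  have hl : ∀ {t : ℂ → ℂ}, AnalyticOnNhd ℂ t B → (∀ z ∈ B, deriv t z ≠ 0) → ∀ z ∈ B,
      HasDerivAt t (deriv t z) z ∧ HasDerivAt (deriv t) (ld t z * deriv t z) z ∧
        HasDerivAt (ld t) (Sf t z + ld t z ^ 2 / 2) z := by
    intro t ht hn z hz
    have a1 : AnalyticAt ℂ (deriv t) z := (ht.deriv) z hz
    have a2 : AnalyticAt ℂ (deriv (deriv t)) z := (ht.deriv.deriv) z hz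
    refine ⟨(ht z hz).differentiableAt.hasDerivAt, ?_, ?_⟩
    · have := a1.differentiableAt.hasDerivAt
      rw [ld, div_mul_cancel₀ _ (hn z hz)]
      exact this
    · have h3 : DifferentiableAt ℂ (ld t) z := a2.differentiableAt.fun_div a1.differentiableAt (hn z hz)
      have := h3.hasDerivAt
      rw [Sf, sub_add_cancel]
      exact this
  set u : ℂ → ℂ := fun z => deriv t₁ z / deriv t₂ z with hu
  set w : ℂ → ℂ := fun z => (ld t₁ z - ld t₂ z) / deriv t₂ z with hw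
  set k : ℂ → ℂ := fun z => w z * deriv t₂ z / 2 with hk
  set p : ℂ → ℂ := fun z => 1 + w z * t₂ z / 2 with hp
  set y₃ : ℂ → ℂ := fun z => t₁ z * w z - 2 * u z with hy₃
  set y₄ : ℂ → ℂ := fun z => t₁ z * p z - u z * t₂ z with hy₄
  have du : ∀ z ∈ B, HasDerivAt u (2 * k z * u z) z := by
    intro z hz
    obtain ⟨-, b1, -⟩ := hl h₁ n₁ z hz
    obtain ⟨-, b2, -⟩ := hl h₂ n₂ z hz
    refine HasDerivAt.congr_deriv (f := u) (b1.fun_div b2 (n₂ z hz)) ?_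
    have := n₂ z hz
    simp only [hk, hw, hu]
    field_simp
  have dw : ∀ z ∈ B, HasDerivAt w (k z * w z) z := by
    intro z hz
    obtain ⟨-, -, b1⟩ := hl h₁ n₁ z hz
    obtain ⟨-, c2, b2⟩ := hl h₂ n₂ z hz
    refine HasDerivAt.congr_deriv (f := w) ((b1.sub b2).fun_div c2 (n₂ z hz)) ?_
    have := n₂ z hz
    simp only [hk, hw, Pi.sub_apply, hS z hz]
    field_simp
    ring
  have dp : ∀ z ∈ B, HasDerivAt p (k z * p z) z := by
    intro z hz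
    obtain ⟨c1, -, -⟩ := hl h₂ n₂ z hz
    refine HasDerivAt.congr_deriv (f := p) (((dw z hz).mul c1).div_const 2 |>.const_add 1) ?_
    simp only [hk, hp]
    ring
  have hu0 : ∀ z ∈ B, u z ≠ 0 := fun z hz => div_ne_zero (n₁ z hz) (n₂ z hz)
  have hc1 : ∀ z ∈ B, deriv t₁ z = u z * deriv t₂ z := fun z hz => by
    simp only [hu]
    rw [div_mul_cancel₀ _ (n₂ z hz)]
  have d3 : ∀ z ∈ B, HasDerivAt y₃ (k z * y₃ z) z := by
    intro z hz
    obtain ⟨c1, -, -⟩ := hl h₁ n₁ z hz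
    refine HasDerivAt.congr_deriv (f := y₃) ((c1.mul (dw z hz)).sub ((du z hz).const_mul 2)) ?_
    rw [hc1 z hz]
    simp only [hk, hy₃]
    ring
  have d4 : ∀ z ∈ B, HasDerivAt y₄ (k z * y₄ z) z := by
    intro z hz
    obtain ⟨c1, -, -⟩ := hl h₁ n₁ z hz
    obtain ⟨c2, -, -⟩ := hl h₂ n₂ z hz
    refine HasDerivAt.congr_deriv (f := y₄) ((c1.mul (dp z hz)).sub ((du z hz).mul c2)) ?_
    rw [hc1 z hz]
    simp only [hk, hy₄, hp]
    ring
  obtain ⟨z₀, hz₀⟩ := hne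
  obtain ⟨y, hy, hy0⟩ : ∃ y : ℂ → ℂ, (∀ z ∈ B, HasDerivAt y (k z * y z) z) ∧ y z₀ ≠ 0 := by
    by_cases h : w z₀ = 0
    · refine ⟨p, dp, ?_⟩
      simp only [hp, h, zero_mul, zero_div, add_zero]
      exact one_ne_zero
    · exact ⟨w, dw, h⟩
  have key : ∀ {f : ℂ → ℂ}, (∀ z ∈ B, HasDerivAt f (k z * f z) z) → ∀ z ∈ B, y z * f z / u z = y z₀ * f z₀ / u z₀ :=
    fun hf z hz => const_quot hB hc hy hf du hu0 hz₀ hz
  refine ⟨-(y z₀ * y₃ z₀ / u z₀) / 2, y z₀ * y₄ z₀ / u z₀, -(y z₀ * w z₀ / u z₀) / 2, y z₀ * p z₀ / u z₀, ?_, ?_⟩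
  · have : -(y z₀ * y₃ z₀ / u z₀) / 2 * (y z₀ * p z₀ / u z₀) - y z₀ * y₄ z₀ / u z₀ * (-(y z₀ * w z₀ / u z₀) / 2) =
        y z₀ ^ 2 / u z₀ := by
      have := hu0 z₀ hz₀
      simp only [hy₃, hy₄, hp]
      field_simp
      ring
    rw [this]
    exact div_ne_zero (pow_ne_zero 2 hy0) (hu0 z₀ hz₀)
  · intro z hz
    rw [← key d3 z hz, ← key d4 z hz, ← key dw z hz, ← key dp z hz]
    have := hu0 z hz
    simp only [hy₃, hy₄, hp]
    field_simp
    ring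

end Pool.Agent.NH23.Mob
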