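import Pool.Agent.NH23.Cross

/-!
# Möbius transformations `g` with `j (t)` and `j (g t)` algebraically dependent are rational
-/

set_option autoImplicit false

open Filter Topology Polynomial Metric

noncomputable section

namespace Pool.Agent.NH23.Cross

open Pool.Agent.Y776 (jf T0 T0_spec)
open Pool.Agent.Y776.AxJ (isOpen_H preconn_H an_j)
open Pool.Agent.Y776.Fam (countable_zeros exists_notMem countable_fam)
open Pool.Agent.NH23.Inj

variable {a b c d : ℂ}

/-- a rational complex number -/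
def IsQ (z : ℂ) : Prop := ∃ r : ℚ, z = r

theorem IsQ.add {z w : ℂ} (hz : IsQ z) (hw : IsQ w) : IsQ (z + w) := by
  obtain ⟨r, rfl⟩ := hz
  obtain ⟨s, rfl⟩ := hw
  exact ⟨r + s, by push_cast; rfl⟩

theorem IsQ.sub {z w : ℂ} (hz : IsQ z) (hw : IsQ w) : IsQ (z - w) := by
  obtain ⟨r, rfl⟩ := hz
  obtain ⟨s, rfl⟩ := hw
  exact ⟨r - s, by push_cast; rfl⟩

theorem IsQ.mul {z w : ℂ} (hz : IsQ z) (hw : IsQ w) : IsQ (z * w) := by
  obtain ⟨r, rfl⟩ := hz
  obtain ⟨s, rfl⟩ := hw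
  exact ⟨r * s, by push_cast; rfl⟩

theorem IsQ.div {z w : ℂ} (hz : IsQ z) (hw : IsQ w) : IsQ (z / w) := by
  obtain ⟨r, rfl⟩ := hz
  obtain ⟨s, rfl⟩ := hw
  exact ⟨r / s, by push_cast; rfl⟩

theorem IsQ.int (n : ℤ) : IsQ (n : ℂ) := ⟨n, by push_cast; rfl⟩

/-- a polynomial of degree at most two with uncountably many zeros -/
theorem quad_zero {α β γ : ℂ} {S : Set ℂ} (hS : ¬ S.Countable) (h : ∀ t ∈ S, α * t ^ 2 + β * t + γ = 0) :
    α = 0 ∧ β = 0 ∧ γ = 0 := by
  have h1 : (C α * X ^ 2 + C β * X + C γ : ℂ[X]) = 0 := by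
    apply Polynomial.eq_zero_of_infinite_isRoot
    refine (show S.Infinite from fun hf => hS hf.countable).mono ?_
    intro t ht
    show Polynomial.eval t (C α * X ^ 2 + C β * X + C γ : ℂ[X]) = 0
    simp only [eval_add, eval_mul, eval_C, eval_pow, eval_X]
    exact h t ht
  have e0 := congrArg (fun p => p.coeff 0) h1
  have e1 := congrArg (fun p => p.coeff 1) h1
  have e2 := congrArg (fun p => p.coeff 2) h1
  simp [coeff_X, coeff_C] at e0 e1 e2
  exact ⟨e2, e1, e0⟩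

/-- two proportional transformations -/
theorem prop_of_eq {α β γ δ a' b' c' d' : ℂ} (hB : α * δ - β * γ ≠ 0) {S : Set ℂ} (hS : ¬ S.Countable)
    (h : ∀ t ∈ S, (a' * t + b') * (γ * t + δ) = (c' * t + d') * (α * t + β)) :
    ∃ ν : ℂ, a' = ν * α ∧ b' = ν * β ∧ c' = ν * γ ∧ d' = ν * δ := by
  obtain ⟨e1, e2, e3⟩ := quad_zero (α := a' * γ - c' * α) (β := a' * δ + b' * γ - c' * β - d' * α)
    (γ := b' * δ - d' * β) hS (fun t ht => by linear_combination h t ht)
  refine ⟨(δ * a' - β * c') / (α * δ - β * γ), ?_, ?_, ?_, ?_⟩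
  · rw [div_mul_eq_mul_div, eq_div_iff hB]
    linear_combination (-β) * e1
  · rw [div_mul_eq_mul_div, eq_div_iff hB]
    linear_combination (-β) * e2 + α * e3
  · rw [div_mul_eq_mul_div, eq_div_iff hB]
    linear_combination (-δ) * e1
  · rw [div_mul_eq_mul_div, eq_div_iff hB]
    linear_combination (-δ) * e2 + γ * e3

/-- the entries of the unipotent matrices -/
theorem unip {Q : ℂ[X][X]} (hQ : Q ≠ 0) (hdet : a * d - b * c ≠ 0)
    (hall : ∀ t : ℂ, 0 < t.im → c * t + d ≠ 0 ∧ 0 < (mb a b c d t).im ∧ ev2 Q (jf t) (jf (mb a b c d t)) = 0) (x y : ℤ) :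
    IsQ ((a * x + b * y) ^ 2 / (a * d - b * c)) ∧ IsQ ((a * x + b * y) * (c * x + d * y) / (a * d - b * c)) ∧
      IsQ ((c * x + d * y) ^ 2 / (a * d - b * c)) := by
  classical
  set H : Set ℂ := {t : ℂ | 0 < t.im} with hH
  have hHne : H.Nonempty := ⟨Complex.I, by simp [hH]⟩
  -- the unipotent transformations
  set m : ℤ → ℂ → ℂ := fun n t => mb (1 - n * x * y) (n * x ^ 2) (-(n * y ^ 2)) (1 + n * x * y) t with hm
  have hden : ∀ (n : ℤ) (t : ℂ), 0 < t.im → (-((n : ℂ) * y ^ 2)) * t + (1 + n * x * y) ≠ 0 := by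
    intro n t ht h0
    have h1 := congrArg Complex.im h0
    have e1 : (-((n : ℂ) * y ^ 2)) * t + (1 + n * x * y) = ((-(n * y ^ 2) : ℝ) : ℂ) * t + ((1 + n * x * y : ℝ) : ℂ) := by
      push_cast; ring
    rw [e1, Complex.add_im, Complex.im_ofReal_mul, Complex.ofReal_im, add_zero, Complex.zero_im] at h1
    have h2 : (n : ℝ) * y ^ 2 = 0 := by
      rcases mul_eq_zero.1 h1 with h | h
      · linarith
      · exact absurd h ht.ne'
    have h3 : n * y ^ 2 = 0 := by exact_mod_cast h2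
    have h4 : n * y = 0 := by
      rcases mul_eq_zero.1 h3 with h | h
      · rw [h, zero_mul]
      · rw [pow_eq_zero_iff two_ne_zero] at h
        rw [h, mul_zero]
    have h5 : (n : ℂ) * y = 0 := by exact_mod_cast h4
    have h6 : (n : ℂ) * y ^ 2 = 0 := by rw [sq, ← mul_assoc, h5, zero_mul]
    have h7 : (n : ℂ) * x * y = 0 := by
      have : (n : ℂ) * x * y = (n * y) * x := by ring
      rw [this, h5, zero_mul]
    rw [h6, h7] at h0
    simp at h0
  have hmim : ∀ (n : ℤ) (t : ℂ), 0 < t.im → 0 < (m n t).im ∧ jf (m n t) = jf t := by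
    intro n t ht
    have hd := hden n t ht
    have h1 : 0 < (m n t).im := by
      set D : ℂ := (-((n : ℂ) * y ^ 2)) * t + (1 + n * x * y) with hD
      have h2 : m n t = ((1 - n * x * y) * t + n * x ^ 2) / D := rfl
      have h3 : m n t = ((Complex.normSq D)⁻¹ : ℝ) * (((1 - n * x * y) * t + n * x ^ 2) * (starRingEnd ℂ) D) := by
        rw [h2, div_eq_mul_inv, Complex.inv_def]
        ring
      rw [h3, Complex.im_ofReal_mul]
      have h4 : ((((1 : ℂ) - n * x * y) * t + n * x ^ 2) * (starRingEnd ℂ) D).im = t.im := by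
        have e1 : (((1 : ℂ) - n * x * y) * t + n * x ^ 2) = ((1 - n * x * y : ℝ) : ℂ) * t + ((n * x ^ 2 : ℝ) : ℂ) := by
          push_cast; ring
        have e2 : D = ((-(n * y ^ 2) : ℝ) : ℂ) * t + ((1 + n * x * y : ℝ) : ℂ) := by
          rw [hD]; push_cast; ring
        rw [e1, e2, Complex.mul_im, Complex.conj_re, Complex.conj_im, Complex.add_re, Complex.add_im, Complex.add_re,
          Complex.add_im, Complex.re_ofReal_mul, Complex.im_ofReal_mul, Complex.re_ofReal_mul, Complex.im_ofReal_mul,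
          Complex.ofReal_re, Complex.ofReal_im, Complex.ofReal_re, Complex.ofReal_im]
        ring
      rw [h4]
      exact mul_pos (inv_pos.2 (Complex.normSq_pos.2 hd)) ht
    refine ⟨h1, ?_⟩
    refine jf_inv (a := 1 - n * x * y) (b := n * x ^ 2) (c := -(n * y ^ 2)) (d := 1 + n * x * y) (by ring) ht h1 ?_
    push_cast
    exact div_mul_cancel₀ _ hd
  have hman : ∀ (n : ℤ) (t : ℂ), 0 < t.im → AnalyticAt ℂ (m n) t := fun n t ht => mb_an (hden n t ht)
  -- the functions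
  set f : ℤ → ℂ → ℂ := fun n t => jf (mb a b c d (m n t)) with hf
  have hfan : ∀ n, AnalyticOnNhd ℂ (f n) H := by
    intro n t ht
    obtain ⟨h1, h2, -⟩ := hall _ (hmim n t ht).1
    exact AnalyticAt.comp (g := jf) (f := fun t => mb a b c d (m n t)) (an_j _ h2)
      (AnalyticAt.comp (g := mb a b c d) (f := m n) (mb_an h1) (hman n t ht))
  have hroot : ∀ (n : ℤ) (t : ℂ), 0 < t.im → ev2 Q (jf t) (f n t) = 0 := by
    intro n t ht
    obtain ⟨h1, h2⟩ := hmim n t ht
    have := (hall _ h1).2.2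
    rwa [h2] at this
  -- two of them agree
  obtain ⟨n₁, n₂, hn, hagree⟩ : ∃ n₁ n₂ : ℤ, n₁ ≠ n₂ ∧ ∀ t ∈ H, f n₁ t = f n₂ t := by
    by_contra hcon
    push Not at hcon
    set K := Q.natDegree with hK
    have c1 := countable_fam preconn_H (ι := {p : ℤ × ℤ // p.1 ≠ p.2}) (fun p t => f p.1.1 t - f p.1.2 t)
      (fun p => (hfan _).sub (hfan _)) (fun p => by
        obtain ⟨t, ht, h⟩ := hcon _ _ p.2
        exact ⟨t, ht, sub_ne_zero.2 h⟩)
    have han : AnalyticOnNhd ℂ (fun t => (Q.leadingCoeff).eval (jf t)) H := by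
      intro t ht
      exact ((Q.leadingCoeff).differentiable.analyticAt (jf t)).comp (an_j t ht)
    have c2 := countable_zeros preconn_H han (by
      by_contra h
      push Not at h
      refine poly_ne (leadingCoeff_ne_zero.2 hQ) (τ := Complex.I) (by simp) ?_
      filter_upwards [isOpen_H.mem_nhds (show 0 < Complex.I.im by simp)] with t ht
      exact h t ht)
    obtain ⟨t, ht, hnot⟩ := exists_notMem isOpen_H hHne (c1.union c2)
    simp only [Set.mem_union, not_or] at hnot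
    obtain ⟨d1, d2⟩ := hnot
    have hdist : ∀ n n' : ℤ, n ≠ n' → f n t ≠ f n' t := by
      intro n n' hne he
      exact d1 ⟨ht, ⟨(n, n'), hne⟩, sub_eq_zero.2 he⟩
    have hlead : (Q.leadingCoeff).eval (jf t) ≠ 0 := fun h => d2 ⟨ht, h⟩
    -- too many roots
    set P : ℂ[X] := Q.map (evalRingHom (jf t)) with hP
    have hPe : ∀ z, P.eval z = ev2 Q (jf t) z := by
      intro z
      have h1 : P.natDegree < Q.natDegree + 1 := Nat.lt_succ_of_le Polynomial.natDegree_map_le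
      rw [Polynomial.eval_eq_sum_range' h1, ev2]
      refine Finset.sum_congr rfl fun k _ => ?_
      rw [hP, Polynomial.coeff_map]
      rfl
    have hP0 : P ≠ 0 := by
      intro h0
      have := congrArg (fun p => p.coeff Q.natDegree) h0
      simp only [hP, Polynomial.coeff_map, Polynomial.coeff_zero] at this
      exact hlead this
    have hcard : (Finset.range (K + 1)).card ≤ P.roots.toFinset.card := by
      refine Finset.card_le_card_of_injOn (fun k => f (k : ℤ) t) ?_ ?_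
      · intro k _
        rw [Finset.mem_coe, Multiset.mem_toFinset, Polynomial.mem_roots hP0]
        show P.eval _ = 0
        rw [hPe]
        exact hroot _ t ht
      · intro k _ k' _ h
        by_contra hne
        exact hdist _ _ (by exact_mod_cast hne) h
    have h2 := (Multiset.toFinset_card_le P.roots).trans (Polynomial.card_roots' P)
    have h3 : P.natDegree ≤ K := Polynomial.natDegree_map_le
    rw [Finset.card_range] at hcard
    omega
  -- integral matrices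
  have c3 : ∀ n, {t | t ∈ H ∧ mb a b c d (m n t) ∈ T0}.Countable := by
    intro n
    refine (T0_spec.1.biUnion (fun τ _ => countable_zeros preconn_H (f := fun t => mb a b c d (m n t) - τ) ?_ ?_)).mono ?_
    · intro t ht
      obtain ⟨h1, h2, -⟩ := hall _ (hmim n t ht).1
      exact (AnalyticAt.comp (g := mb a b c d) (f := m n) (mb_an h1) (hman n t ht)).sub analyticAt_const
    · -- not constant
      by_contra hcon
      push Not at hcon
      have h1 : ∀ t : ℂ, 0 < t.im → (a * (1 - n * x * y) + b * (-(n * y ^ 2))) * t + (a * (n * x ^ 2) + b * (1 + n * x * y)) =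
          τ * ((c * (1 - n * x * y) + d * (-(n * y ^ 2))) * t + (c * (n * x ^ 2) + d * (1 + n * x * y))) := by
        intro t ht
        have h2 := hcon t ht
        rw [sub_eq_zero] at h2
        obtain ⟨h3, -, -⟩ := hall _ (hmim n t ht).1
        rw [mb, div_eq_iff h3] at h2
        have h4 : m n t * (-((n : ℂ) * y ^ 2) * t + (1 + n * x * y)) = (1 - n * x * y) * t + n * x ^ 2 :=
          div_mul_cancel₀ _ (hden n t ht)
        linear_combination (-((n : ℂ) * y ^ 2) * t + (1 + n * x * y)) * h2 + (τ * c - a) * h4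
      have hunc : ¬ H.Countable := by
        intro hc
        obtain ⟨z, hz, hz'⟩ := exists_notMem isOpen_H hHne hc
        exact hz' hz
      obtain ⟨-, e2, e3⟩ := quad_zero (α := 0)
        (β := (a * (1 - n * x * y) + b * (-(n * y ^ 2))) - τ * (c * (1 - n * x * y) + d * (-(n * y ^ 2))))
        (γ := (a * (n * x ^ 2) + b * (1 + n * x * y)) - τ * (c * (n * x ^ 2) + d * (1 + n * x * y)))
        hunc (fun t ht => by linear_combination h1 t ht)
      apply hdet
      linear_combination (c * (n * x ^ 2) + d * (1 + n * x * y)) * e2 -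
        (c * (1 - n * x * y) + d * (-(n * y ^ 2))) * e3
    · rintro t ⟨ht, hT⟩
      exact Set.mem_biUnion hT ⟨ht, sub_self _⟩
  obtain ⟨A, hA⟩ : ∃ A : {A : ℤ × ℤ × ℤ × ℤ // A.1 * A.2.2.2 - A.2.1 * A.2.2.1 ≠ 0},
      ¬ {t | t ∈ H ∧ mb a b c d (m n₂ t) * ((A.1.2.2.1 : ℂ) * mb a b c d (m n₁ t) + A.1.2.2.2) =
        A.1.1 * mb a b c d (m n₁ t) + A.1.2.1}.Countable := by
    by_contra hcon
    push Not at hcon
    have c4 := (Set.countable_iUnion hcon).union ((c3 n₁).union (c3 n₂))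
    obtain ⟨t, ht, hnot⟩ := exists_notMem isOpen_H hHne c4
    simp only [Set.mem_union, not_or] at hnot
    obtain ⟨d1, d2, d3⟩ := hnot
    obtain ⟨a', b', c', d', hdet', he⟩ := jf_inj (hall _ (hmim n₁ t ht).1).2.1 (hall _ (hmim n₂ t ht).1).2.1
      (gn_of fun h => d2 ⟨ht, h⟩) (gn_of fun h => d3 ⟨ht, h⟩) (hagree t ht)
    exact d1 (Set.mem_iUnion.2 ⟨⟨(a', b', c', d'), hdet'⟩, ht, he⟩)
  obtain ⟨⟨a', b', c', d'⟩, hdet'⟩ := A
  simp only at hA hdet'
  -- the matrices of the two transformations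
  set a₁ : ℂ := a * (1 - n₁ * x * y) + b * (-(n₁ * y ^ 2)) with ha₁
  set b₁ : ℂ := a * (n₁ * x ^ 2) + b * (1 + n₁ * x * y) with hb₁
  set c₁ : ℂ := c * (1 - n₁ * x * y) + d * (-(n₁ * y ^ 2)) with hc₁
  set d₁ : ℂ := c * (n₁ * x ^ 2) + d * (1 + n₁ * x * y) with hd₁
  set a₂ : ℂ := a * (1 - n₂ * x * y) + b * (-(n₂ * y ^ 2)) with ha₂
  set b₂ : ℂ := a * (n₂ * x ^ 2) + b * (1 + n₂ * x * y) with hb₂
  set c₂ : ℂ := c * (1 - n₂ * x * y) + d * (-(n₂ * y ^ 2)) with hc₂
  set d₂ : ℂ := c * (n₂ * x ^ 2) + d * (1 + n₂ * x * y) with hd₂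
  have hD1 : a₁ * d₁ - b₁ * c₁ = a * d - b * c := by rw [ha₁, hb₁, hc₁, hd₁]; ring
  have hdc : (a' : ℂ) * d' - b' * c' ≠ 0 := by exact_mod_cast hdet'
  have hdetB : ((a' : ℂ) * a₁ + b' * c₁) * (c' * b₁ + d' * d₁) - (a' * b₁ + b' * d₁) * (c' * a₁ + d' * c₁) ≠ 0 := by
    have : ((a' : ℂ) * a₁ + b' * c₁) * (c' * b₁ + d' * d₁) - (a' * b₁ + b' * d₁) * (c' * a₁ + d' * c₁) =
        (a' * d' - b' * c') * (a * d - b * c) := by rw [← hD1]; ring
    rw [this]
    exact mul_ne_zero hdc hdet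
  have hgm : ∀ (n : ℤ) (t : ℂ), 0 < t.im → mb a b c d (m n t) *
      ((c * (1 - n * x * y) + d * (-(n * y ^ 2))) * t + (c * (n * x ^ 2) + d * (1 + n * x * y))) =
      (a * (1 - n * x * y) + b * (-(n * y ^ 2))) * t + (a * (n * x ^ 2) + b * (1 + n * x * y)) ∧
      (c * (1 - n * x * y) + d * (-(n * y ^ 2))) * t + (c * (n * x ^ 2) + d * (1 + n * x * y)) ≠ 0 := by
    intro n t ht
    obtain ⟨h3, -, -⟩ := hall _ (hmim n t ht).1
    have h4 : m n t * (-((n : ℂ) * y ^ 2) * t + (1 + n * x * y)) = (1 - n * x * y) * t + n * x ^ 2 :=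
      div_mul_cancel₀ _ (hden n t ht)
    have h5 : mb a b c d (m n t) * (c * m n t + d) = a * m n t + b := div_mul_cancel₀ _ h3
    have h6 : (c * m n t + d) * (-((n : ℂ) * y ^ 2) * t + (1 + n * x * y)) =
        (c * (1 - n * x * y) + d * (-(n * y ^ 2))) * t + (c * (n * x ^ 2) + d * (1 + n * x * y)) := by
      linear_combination c * h4
    refine ⟨?_, ?_⟩
    · rw [← h6, ← mul_assoc, h5]
      linear_combination a * h4
    · rw [← h6]
      exact mul_ne_zero h3 (hden n t ht)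
  obtain ⟨ν, v1, v2, v3, v4⟩ := prop_of_eq hdetB (a' := a₂) (b' := b₂) (c' := c₂) (d' := d₂) hA (by
    rintro t ⟨ht, he⟩
    obtain ⟨w1, w2⟩ := hgm n₁ t ht
    obtain ⟨w3, w4⟩ := hgm n₂ t ht
    rw [← ha₁, ← hb₁, ← hc₁, ← hd₁] at w1
    rw [← hc₁, ← hd₁] at w2
    rw [← ha₂, ← hb₂, ← hc₂, ← hd₂] at w3
    rw [← w3]
    have w5 : ((c' : ℂ) * a₁ + d' * c₁) * t + (c' * b₁ + d' * d₁) =
        (c' * mb a b c d (m n₁ t) + d') * (c₁ * t + d₁) := by linear_combination (-(c' : ℂ)) * w1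
    have w6 : ((a' : ℂ) * a₁ + b' * c₁) * t + (a' * b₁ + b' * d₁) =
        (a' * mb a b c d (m n₁ t) + b') * (c₁ * t + d₁) := by linear_combination (-(a' : ℂ)) * w1
    rw [w5, w6, ← he]
    ring)
  set Δ : ℂ := a * d - b * c with hΔ
  set k : ℂ := (n₂ : ℂ) - n₁ with hk
  have hk0 : k ≠ 0 := by
    rw [hk, sub_ne_zero]
    exact_mod_cast hn.symm
  -- `ν A = 1 + (k / Δ) (...)`
  have r1 : ν * a' * Δ = Δ - k * ((a * x + b * y) * (c * x + d * y)) := by
    have e1 : a₂ * d₁ - b₂ * c₁ = ν * a' * Δ := by rw [v1, v2, ← hD1]; ring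
    rw [← e1, ha₂, hb₂, hc₁, hd₁, hk, hΔ]
    ring
  have r2 : ν * b' * Δ = k * (a * x + b * y) ^ 2 := by
    have e1 : b₂ * a₁ - a₂ * b₁ = ν * b' * Δ := by rw [v1, v2, ← hD1]; ring
    rw [← e1, ha₂, hb₂, ha₁, hb₁, hk]
    ring
  have r3 : ν * c' * Δ = -(k * (c * x + d * y) ^ 2) := by
    have e1 : c₂ * d₁ - d₂ * c₁ = ν * c' * Δ := by rw [v3, v4, ← hD1]; ring
    rw [← e1, hc₂, hd₂, hc₁, hd₁, hk]
    ring
  have r4 : ν * d' * Δ = Δ + k * ((a * x + b * y) * (c * x + d * y)) := by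
    have e1 : d₂ * a₁ - c₂ * b₁ = ν * d' * Δ := by rw [v3, v4, ← hD1]; ring
    rw [← e1, hc₂, hd₂, ha₁, hb₁, hk, hΔ]
    ring
  have r5 : ν * ((a' : ℂ) + d') = 2 := by
    apply mul_right_cancel₀ hdet
    linear_combination r1 + r4
  have had : (a' : ℂ) + d' ≠ 0 := by
    intro h0
    rw [h0, mul_zero] at r5
    exact two_ne_zero r5.symm
  have hν : IsQ ν := by
    have : ν = ((2 : ℤ) : ℂ) / ((a' + d' : ℤ) : ℂ) := by
      push_cast
      rw [eq_div_iff had]
      exact r5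
    rw [this]
    exact (IsQ.int 2).div (IsQ.int _)
  have hkQ : IsQ k := (IsQ.int _).sub (IsQ.int _)
  refine ⟨?_, ?_, ?_⟩
  · have : (a * x + b * y) ^ 2 / Δ = ν * b' / k := by
      rw [div_eq_div_iff hdet hk0]
      linear_combination (-1 : ℂ) * r2
    rw [this]
    exact (hν.mul (IsQ.int _)).div hkQ
  · have : (a * x + b * y) * (c * x + d * y) / Δ = (ν * d' - ((1 : ℤ) : ℂ)) / k := by
      rw [div_eq_div_iff hdet hk0]
      push_cast
      linear_combination (-1 : ℂ) * r4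
    rw [this]
    exact ((hν.mul (IsQ.int _)).sub (IsQ.int 1)).div hkQ
  · have : (c * x + d * y) ^ 2 / Δ = (((0 : ℤ) : ℂ) - ν * c') / k := by
      rw [div_eq_div_iff hdet hk0]
      push_cast
      linear_combination r3
    rw [this]
    exact ((IsQ.int 0).sub (hν.mul (IsQ.int _))).div hkQ

/-- **rationality** -/
theorem ratl {Q : ℂ[X][X]} (hQ : Q ≠ 0) (hdet : a * d - b * c ≠ 0) {t₁ : ℂ} (ht₁ : 0 < t₁.im) (h1 : c * t₁ + d ≠ 0)
    (hg1 : 0 < (mb a b c d t₁).im) (hrel : ∀ᶠ s in 𝓝 t₁, ev2 Q (jf s) (jf (mb a b c d s)) = 0) :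
    ∃ a' b' c' d' : ℚ, 0 < a' * d' - b' * c' ∧ ∀ t : ℂ, 0 < t.im → mb a b c d t * (c' * t + d') = a' * t + b' := by
  have hall' := cross hQ hdet ht₁ h1 hg1 hrel
  have hall : ∀ t : ℂ, 0 < t.im → c * t + d ≠ 0 ∧ 0 < (mb a b c d t).im ∧ ev2 Q (jf t) (jf (mb a b c d t)) = 0 :=
    fun t ht => ⟨(hall' t ht).1, (hall' t ht).2.1, (hall' t ht).2.2.self_of_nhds⟩
  obtain ⟨p1, p2, p3⟩ := unip hQ hdet hall 1 0
  obtain ⟨q1, q2, q3⟩ := unip hQ hdet hall 0 1
  obtain ⟨r1, r2, r3⟩ := unip hQ hdet hall 1 1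
  simp only [Int.cast_one, Int.cast_zero, mul_one, mul_zero, add_zero, zero_add] at p1 p2 p3 q1 q2 q3 r1 r2 r3
  set Δ := a * d - b * c with hΔ
  have two : IsQ 2 := ⟨2, by push_cast; rfl⟩
  have one : IsQ 1 := ⟨1, by push_cast; rfl⟩
  have s1 : IsQ (a * b / Δ) := by
    have : a * b / Δ = ((a + b) ^ 2 / Δ - a ^ 2 / Δ - b ^ 2 / Δ) / 2 := by field_simp; ring
    rw [this]
    exact ((r1.sub p1).sub q1).div two
  have s3 : IsQ (c * d / Δ) := by
    have : c * d / Δ = ((c + d) ^ 2 / Δ - c ^ 2 / Δ - d ^ 2 / Δ) / 2 := by field_simp; ring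
    rw [this]
    exact ((r3.sub p3).sub q3).div two
  have s4 : IsQ (a * d / Δ) := by
    have : a * d / Δ = ((a + b) * (c + d) / Δ - a * c / Δ - b * d / Δ + 1) / 2 := by
      field_simp
      rw [hΔ]
      ring
    rw [this]
    exact ((((r2.sub p2).sub q2)).add one).div two
  have s5 : IsQ (b * c / Δ) := by
    have : b * c / Δ = a * d / Δ - 1 := by
      field_simp
      rw [hΔ]
      ring
    rw [this]
    exact s4.sub one
  -- the scaling factor
  obtain ⟨e, he0, ⟨a', ha'⟩, ⟨b', hb'⟩, ⟨c', hc'⟩, ⟨d', hd'⟩⟩ : ∃ e : ℂ, e ≠ 0 ∧ IsQ (e * a) ∧ IsQ (e * b) ∧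
      IsQ (e * c) ∧ IsQ (e * d) := by
    by_cases ha : a = 0
    · have hb : b ≠ 0 := by
        rintro rfl
        apply hdet
        rw [hΔ, ha]
        ring
      refine ⟨b / Δ, div_ne_zero hb hdet, ?_, ?_, ?_, ?_⟩
      · convert s1 using 1; ring
      · convert q1 using 1; ring
      · convert s5 using 1; ring
      · convert q2 using 1; ring
    · refine ⟨a / Δ, div_ne_zero ha hdet, ?_, ?_, ?_, ?_⟩
      · convert p1 using 1; ring
      · convert s1 using 1; ring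
      · convert p2 using 1; ring
      · convert s4 using 1; ring
  have hmb : ∀ t : ℂ, 0 < t.im → mb a b c d t * (c' * t + d') = a' * t + b' := by
    intro t ht
    have h3 : mb a b c d t * (c * t + d) = a * t + b := div_mul_cancel₀ _ (hall t ht).1
    rw [← ha', ← hb', ← hc', ← hd']
    linear_combination e * h3
  refine ⟨a', b', c', d', ?_, hmb⟩
  -- positivity
  obtain ⟨h2, h3, -⟩ := hall t₁ ht₁
  have h4 := hmb t₁ ht₁
  have h5 : (c' : ℂ) * t₁ + d' ≠ 0 := by
    rw [← hc', ← hd', show e * c * t₁ + e * d = e * (c * t₁ + d) by ring]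
    exact mul_ne_zero he0 h2
  set D : ℂ := (c' : ℂ) * t₁ + d' with hD
  have h6 : mb a b c d t₁ * ((Complex.normSq D : ℝ) : ℂ) = ((a' : ℂ) * t₁ + b') * (starRingEnd ℂ) D := by
    rw [← h4, mul_assoc, Complex.mul_conj]
  have h7 := congrArg Complex.im h6
  rw [mul_comm, Complex.im_ofReal_mul] at h7
  have h8 : (((a' : ℂ) * t₁ + b') * (starRingEnd ℂ) D).im = ((a' * d' - b' * c' : ℚ) : ℝ) * t₁.im := by
    rw [hD, ← Complex.ofReal_ratCast a', ← Complex.ofReal_ratCast b', ← Complex.ofReal_ratCast c',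
      ← Complex.ofReal_ratCast d', Complex.mul_im, Complex.conj_re, Complex.conj_im, Complex.add_re, Complex.add_im,
      Complex.add_re, Complex.add_im, Complex.re_ofReal_mul, Complex.im_ofReal_mul, Complex.re_ofReal_mul,
      Complex.im_ofReal_mul, Complex.ofReal_re, Complex.ofReal_im, Complex.ofReal_re, Complex.ofReal_im]
    push_cast
    ring
  rw [h8] at h7
  have h9 : 0 < ((a' * d' - b' * c' : ℚ) : ℝ) * t₁.im := by
    rw [← h7]
    exact mul_pos (Complex.normSq_pos.2 h5) h3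
  have h10 := (mul_pos_iff_of_pos_right ht₁).1 h9
  exact_mod_cast h10

end Pool.Agent.NH23.Cross
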