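import Pool.Agent.NH23.Pair
import Pool.Agent.Y776.AxJ.Alg

/-!
# `j (τ_i)` for algebraic functions `τ_i`
-/

set_option autoImplicit false

open Filter Topology MvPolynomial

noncomputable section

namespace Pool.Agent.NH23.Tup

open Pool.Agent.Y685 Pool.Agent.Y776 Pool.Agent.Y776.AxJ
open Pool.Agent.Y776.Fam (AlgOver)
open Pool.Agent.Y776.Cv (FInd)
open Pool.Agent.NH23.Pair

/-- subfamilies of independent families -/
theorem loc_comp {κ κ' : Type} {y : κ → ℂ → ℂ} (e : κ' → κ) (he : Function.Injective e) {t : ℂ}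
    (h : Pool.Agent.Y124.LocInd y t) : Pool.Agent.Y124.LocInd (fun k => y (e k)) t := by
  intro P hP
  have h2 : ∀ᶠ t in 𝓝 t, MvPolynomial.eval (fun o : Option κ => o.elim t
      fun k => y k t) (MvPolynomial.rename (Option.map e) P) = 0 := by
    filter_upwards [hP] with t ht
    rw [MvPolynomial.eval_rename]
    rw [← ht]
    congr 2
    funext o
    rcases o with _ | k <;> rfl
  have h3 := h _ h2
  exact (MvPolynomial.rename_injective _ (Option.map_injective he)) (by rw [h3, map_zero])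

variable {U : Set ℂ} {n : ℕ} {τ : Fin n → ℂ → ℂ}

/-- a tuple of algebraic functions -/
structure Tpl (U : Set ℂ) (τ : Fin n → ℂ → ℂ) : Prop where
  op : IsOpen U
  conn : IsPreconnected U
  ne : U.Nonempty
  an : ∀ i, AnalyticOnNhd ℂ (τ i) U
  im : ∀ i, ∀ z ∈ U, 0 < (τ i z).im
  nc : ∀ i c, ∃ z ∈ U, τ i z ≠ c
  alg : ∀ i, Alg U (τ i)
  inc : ∀ i k, i ≠ k → ∀ a b c d : ℚ, 0 < a * d - b * c →
    ∃ z ∈ U, τ k z * (c * τ i z + d) ≠ a * τ i z + b

theorem Tpl.two (h : Tpl U τ) (i k : Fin n) : TwoA U (fun m : Fin 2 => τ (![i, k] m)) where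
  op := h.op
  conn := h.conn
  ne := h.ne
  an := fun _ => h.an _
  im := fun _ => h.im _
  nc := fun _ => h.nc _
  alg := fun _ => h.alg _

theorem Tpl.fmj (h : Tpl U τ) : Fmj U τ (fun k : Fin 0 => k.elim0) where
  op := h.op
  conn := h.conn
  ne := h.ne
  ta := h.an
  im := h.im
  nc := h.nc
  ji := fun i k hik => (h.two i k).jind (h.inc i k hik)
  wa := fun k => k.elim0
  wi := fun _ _ _ => Subsingleton.elim _ _

/-- the functions -/
def yp (τ : Fin n → ℂ → ℂ) (k : Fin n × Fin 3) (z : ℂ) : ℂ :=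
  (![jf, deriv jf, deriv (deriv jf)] : Fin 3 → ℂ → ℂ) k.2 (τ k.1 z)

theorem yp_zero (τ : Fin n → ℂ → ℂ) : (fun i : Fin n => yp τ (i, (0 : Fin 3))) = fun i z => jf (τ i z) := by
  funext i z
  rfl

theorem Tpl.yp_an (h : Tpl U τ) (k : Fin n × Fin 3) : AnalyticOnNhd ℂ (yp τ k) U := by
  rcases k with ⟨i, m⟩
  intro z hz
  have key : ∀ g : ℂ → ℂ, AnalyticOnNhd ℂ g {t : ℂ | 0 < t.im} → AnalyticAt ℂ (fun z => g (τ i z)) z := fun g hg =>
    AnalyticAt.fun_comp (g := g) (f := τ i) (hg _ (h.im i z hz)) (h.an i z hz)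
  fin_cases m
  · exact key _ an_j
  · exact key _ an_j.deriv
  · exact key _ an_j.deriv.deriv

/-- **all the functions are independent** -/
theorem Tpl.loc3 (h : Tpl U τ) (hn : 0 < n) : ∀ t ∈ U, Pool.Agent.Y124.LocInd (yp τ) t := by
  choose G hG0 hG using h.alg
  refine loc_all h.fmj hn (y := yp τ) h.yp_an (by simp [mul_comm]) (G := ⋃ k, ((G k).coeffs : Set ℂ))
    (Set.countable_iUnion fun _ => Finset.countable_toSet _) ?_
  intro F hF z hz htr k
  set K := clo F (insert z (Set.range fun k => yp τ k z)) with hK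
  have mz : z ∈ K := subset_clo (Or.inl rfl)
  have mO : ∀ k, yp τ k z ∈ K := fun k => subset_clo (Or.inr ⟨k, rfl⟩)
  rcases k with ⟨i, m⟩ | i | i
  · have m0 : jf (τ i z) ∈ K := mO (i, 0)
    have m1 : deriv jf (τ i z) ∈ K := mO (i, 1)
    have m2 : deriv (deriv jf) (τ i z) ∈ K := mO (i, 2)
    have mt : τ i z ∈ K := by
      have h1 : AlgOver F U (τ i) := algOver (hG0 i) (fun x hx => hF (Set.mem_iUnion.2 ⟨i, hx⟩)) (hG i)
      have h2 := h1.mem (le_refl F) hz htr
      exact clo_le (fun s hs => by rw [Set.mem_singleton_iff.1 hs]; exact mz) h2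
    clear mO hK
    clear_value K
    have key : ∀ m : Fin 4, b4 m (τ i z) ∈ K := by
      intro m
      fin_cases m
      · exact mt
      · exact m0
      · exact m1
      · exact m2
    exact key m
  · exact i.elim0
  · exact i.elim0

/-- **the functions `j (τ_i)` are independent** -/
theorem Tpl.loc (h : Tpl U τ) : ∀ t ∈ U, Pool.Agent.Y124.LocInd (fun i z => jf (τ i z)) t := by
  intro t ht
  rcases Nat.eq_zero_or_pos n with rfl | hn
  · intro P hP
    have he : Function.Injective (fun _ : Unit => (none : Option (Fin 0))) := fun _ _ _ => rfl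
    obtain ⟨Q, rfl⟩ : ∃ Q : MvPolynomial Unit ℂ, rename (fun _ : Unit => (none : Option (Fin 0))) Q = P := by
      have hs : Function.Surjective (fun _ : Unit => (none : Option (Fin 0))) := by
        intro o
        rcases o with _ | k
        · exact ⟨(), rfl⟩
        · exact k.elim0
      exact rename_surjective _ hs P
    have h1 : ∀ᶠ z in 𝓝 t, ((MvPolynomial.uniqueAlgEquiv ℂ Unit) Q).eval z = 0 := by
      filter_upwards [hP] with z hz
      rw [eval_rename] at hz
      have h2 : ((MvPolynomial.uniqueAlgEquiv ℂ Unit) Q).eval z = eval (fun _ => z) Q := by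
        rw [← Polynomial.coe_evalRingHom]
        have h3 : (Polynomial.evalRingHom z).comp (MvPolynomial.uniqueAlgEquiv ℂ Unit : MvPolynomial Unit ℂ ≃ₐ[ℂ] Polynomial ℂ).toRingEquiv.toRingHom =
            eval (fun _ : Unit => z) := by
          apply MvPolynomial.ringHom_ext
          · intro r
            simp
          · intro i
            simp
        exact congrArg (fun f => f Q) h3
      rw [h2, ← hz]
      rfl
    have h2 : (MvPolynomial.uniqueAlgEquiv ℂ Unit) Q = 0 := by
      apply Polynomial.eq_zero_of_infinite_isRoot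
      obtain ⟨ε, hε, hball⟩ := Metric.eventually_nhds_iff_ball.1 h1
      exact (infinite_of_mem_nhds t (Metric.ball_mem_nhds t hε)).mono fun z hz => hball z hz
    have h3 : Q = 0 := (MvPolynomial.uniqueAlgEquiv ℂ Unit).injective (by rw [h2, map_zero])
    rw [h3, map_zero]
  · have h1 : Pool.Agent.Y124.LocInd (fun i : Fin n => yp τ (i, (0 : Fin 3))) t :=
      loc_comp (fun i : Fin n => (i, (0 : Fin 3))) (fun i k hik => (Prod.mk.inj hik).1) (h.loc3 hn t ht)
    rw [yp_zero] at h1
    exact h1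

end Pool.Agent.NH23.Tup
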