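import Pool.Agent.R347.GS.Main
import Pool.Agent.NH23.CMd

/-!
# Powers with well approximable exponents which are not well approximable by rational numbers
-/

set_option autoImplicit false

open Filter Topology Polynomial

noncomputable section

namespace Pool.Agent.NH23.Tw

open Pool.Agent.R347.LW (tow tow_mono_left le_tow tow_lt_succ RAppr Appr)
open Pool.Agent.R347.GS (NE NE.const NE.mul NE.add NE.pow)
open Pool.Agent.NH23.CM (liou_val)

/-- rational numbers near an irrational number have large denominators -/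
theorem den_large {x : ℝ} (hx : Irrational x) (D : ℕ) : ∃ ε : ℝ, 0 < ε ∧ ∀ s : ℚ, |x - s| ≤ ε → D < s.den := by
  have hirr : Irrational ((Nat.factorial D : ℕ) * x) := hx.natCast_mul (Nat.factorial_ne_zero D)
  set y : ℝ := (Nat.factorial D : ℕ) * x with hy
  have hpos : 0 < |y - round y| := by
    rw [abs_pos, sub_ne_zero]
    exact hirr.ne_int _
  have hf : (0 : ℝ) < (Nat.factorial D : ℕ) := by exact_mod_cast Nat.factorial_pos D
  refine ⟨|y - round y| / (2 * (Nat.factorial D : ℕ)), by positivity, fun s hs => ?_⟩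
  by_contra hle
  push Not at hle
  have hdvd : s.den ∣ Nat.factorial D := Nat.dvd_factorial s.den_pos hle
  obtain ⟨c, hc⟩ := hdvd
  have h1 : ((Nat.factorial D : ℕ) : ℝ) * s = ((c * s.num : ℤ) : ℝ) := by
    have h2 : (s : ℝ) * s.den = s.num := by exact_mod_cast Rat.mul_den_eq_num s
    rw [hc]
    push_cast
    linear_combination (c : ℝ) * h2
  have h3 := round_le y (c * s.num)
  rw [← h1, hy, ← mul_sub, abs_mul, abs_of_pos hf, ← hy] at h3
  have h4 : ((Nat.factorial D : ℕ) : ℝ) * |x - s| ≤ |y - round y| / 2 := by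
    calc ((Nat.factorial D : ℕ) : ℝ) * |x - s| ≤ (Nat.factorial D : ℕ) * (|y - round y| / (2 * (Nat.factorial D : ℕ))) :=
          mul_le_mul_of_nonneg_left hs hf.le
      _ = |y - round y| / 2 := by field_simp
  linarith

/-- the powers of a fixed number cannot be rational at all rational numbers near an irrational number -/
theorem no_rat_pow {b x : ℝ} (hb : 0 < b) (hb1 : b ≠ 1) (hx : Irrational x) :
    ¬ ∀ ε : ℝ, 0 < ε → ∃ s r : ℚ, |x - s| ≤ ε ∧ b ^ (s : ℝ) = r := by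
  intro h
  -- one value
  have hx0 : x ≠ 0 := hx.ne_zero
  obtain ⟨s₀, r₀, hs₀, hr₀⟩ := h (|x| / 2) (by positivity)
  have hs₀0 : s₀ ≠ 0 := by
    rintro rfl
    simp only [Rat.cast_zero, sub_zero] at hs₀
    have : 0 < |x| := abs_pos.2 hx0
    linarith
  -- an integral exponent
  set β : ℝ := b ^ ((s₀.num : ℤ) : ℝ) with hβ
  have hβpos : 0 < β := Real.rpow_pos_of_pos hb _
  have hβr : β = ((r₀ ^ s₀.den : ℚ) : ℝ) := by
    rw [hβ]
    push_cast
    rw [← hr₀, ← Real.rpow_natCast, ← Real.rpow_mul hb.le]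
    congr 1
    exact_mod_cast (Rat.mul_den_eq_num s₀).symm
  set B : ℚ := r₀ ^ s₀.den with hB
  have hBpos : 0 < B := by
    have : (0 : ℝ) < B := by rw [← hβr]; exact hβpos
    exact_mod_cast this
  have hB1 : B ≠ 1 := by
    intro h1
    have h2 : β = 1 := by rw [hβr, h1]; norm_num
    rw [hβ, Real.rpow_intCast] at h2
    have h3 : s₀.num ≠ 0 := Rat.num_ne_zero.2 hs₀0
    rcases (zpow_eq_one_iff_of_ne_zero₀ h3).1 h2 with h4 | h4
    · exact hb1 h4
    · linarith [h4.1]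
  -- powers
  obtain ⟨ε, hε, hden⟩ := den_large hx (B.num.natAbs + B.den)
  obtain ⟨s, r, hs, hr⟩ := h ε hε
  have hd := hden s hs
  set d := s.den with hdd
  have hrpos : (0 : ℝ) < r := by
    rw [← hr]
    exact Real.rpow_pos_of_pos hb _
  have hrpos' : 0 < r := by exact_mod_cast hrpos
  -- `B ^ n = (r ^ n₀) ^ d`
  have h1 : B ^ s.num = (r ^ s₀.num) ^ d := by
    have h2 : (((B ^ s.num : ℚ)) : ℝ) = (((r ^ s₀.num) ^ d : ℚ) : ℝ) := by
      push_cast
      rw [← hβr, ← hr, hβ, ← Real.rpow_intCast, ← Real.rpow_mul hb.le, ← Real.rpow_intCast, ← Real.rpow_mul hb.le,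
        ← Real.rpow_natCast, ← Real.rpow_mul hb.le]
      congr 1
      have h3 : (s : ℝ) * s.den = s.num := by exact_mod_cast Rat.mul_den_eq_num s
      rw [hdd]
      linear_combination (-(s₀.num : ℝ)) * h3
    exact_mod_cast h2
  -- `B` is a `d`-th power
  obtain ⟨σ, hσpos, hσ⟩ : ∃ σ : ℚ, 0 < σ ∧ B = σ ^ d := by
    have hcop : IsCoprime s.num (d : ℤ) := by
      rw [Int.isCoprime_iff_gcd_eq_one]
      exact s.reduced
    obtain ⟨u, v, huv⟩ := hcop
    refine ⟨(r ^ s₀.num) ^ u * B ^ v, by positivity, ?_⟩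
    have hB0 : B ≠ 0 := hBpos.ne'
    have hr0 : r ^ s₀.num ≠ 0 := (zpow_pos hrpos' _).ne'
    calc B = B ^ (u * s.num + v * d) := by rw [huv, zpow_one]
      _ = (B ^ s.num) ^ u * (B ^ v) ^ d := by
        rw [zpow_add₀ hB0, mul_comm u, zpow_mul, zpow_mul, zpow_natCast]
      _ = ((r ^ s₀.num) ^ u * B ^ v) ^ d := by
        generalize r ^ s₀.num = w at h1
        rw [h1, mul_pow, ← zpow_natCast w, ← zpow_mul, ← zpow_natCast (w ^ u), ← zpow_mul, mul_comm (d : ℤ) u]
  have hσ1 : σ ≠ 1 := by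
    rintro rfl
    rw [one_pow] at hσ
    exact hB1 hσ
  have hbig : 2 ^ d ≤ B.num.natAbs + B.den := by
    rw [hσ, Rat.num_pow, Rat.den_pow, Int.natAbs_pow]
    have hn0 : 1 ≤ σ.num.natAbs := Nat.one_le_iff_ne_zero.2 (Int.natAbs_ne_zero.2 (Rat.num_ne_zero.2 hσpos.ne'))
    have hd0 : 1 ≤ σ.den := σ.den_pos
    by_cases hn : 2 ≤ σ.num.natAbs
    · calc 2 ^ d ≤ σ.num.natAbs ^ d := Nat.pow_le_pow_left hn _
        _ ≤ _ := Nat.le_add_right _ _
    · by_cases hdn : 2 ≤ σ.den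
      · calc 2 ^ d ≤ σ.den ^ d := Nat.pow_le_pow_left hdn _
          _ ≤ _ := Nat.le_add_left _ _
      · exfalso
        apply hσ1
        have e1 : σ.den = 1 := by omega
        have e2 : σ.num = 1 := by
          have : σ.num.natAbs = 1 := by omega
          have h5 : 0 < σ.num := Rat.num_pos.2 hσpos
          omega
        have := Rat.num_div_den σ
        rw [e1, e2] at this
        simpa using this.symm
  have hlt : d < 2 ^ d := Nat.lt_two_pow_self
  omega

/-- `s ^ s` is irrational for fractions `s` -/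
theorem no_rat_self {x : ℝ} (hx : Irrational x) (hx0 : 0 < x) :
    ¬ ∀ ε : ℝ, 0 < ε → ∃ s r : ℚ, |x - s| ≤ ε ∧ 0 < s ∧ (s : ℝ) ^ (s : ℝ) = r := by
  intro h
  obtain ⟨ε, hε, hden⟩ := den_large hx 1
  obtain ⟨s, r, hs, hspos, hr⟩ := h ε hε
  have hd := hden s hs
  have hsR : (0 : ℝ) < s := by exact_mod_cast hspos
  have hrpos : (0 : ℝ) < r := by
    rw [← hr]
    exact Real.rpow_pos_of_pos hsR _
  have hrpos' : 0 < r := by exact_mod_cast hrpos
  have hnum : 0 < s.num := Rat.num_pos.2 hspos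
  obtain ⟨n, hn⟩ : ∃ n : ℕ, s.num = n := ⟨s.num.toNat, (Int.toNat_of_nonneg hnum.le).symm⟩
  have hn0 : 0 < n := by omega
  have h1 : s ^ n = r ^ s.den := by
    have h2 : (((s ^ n : ℚ)) : ℝ) = ((r ^ s.den : ℚ) : ℝ) := by
      push_cast
      rw [← hr, ← Real.rpow_natCast, ← Real.rpow_natCast, ← Real.rpow_mul hsR.le]
      congr 1
      have h3 : (s : ℝ) * s.den = s.num := by exact_mod_cast Rat.mul_den_eq_num s
      rw [h3, hn]
      simp
    exact_mod_cast h2
  have h3 : s.den ^ n = r.den ^ s.den := by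
    have := congrArg Rat.den h1
    rwa [Rat.den_pow, Rat.den_pow] at this
  have hcop : Nat.Coprime n s.den := by
    have := s.reduced
    rwa [hn, Int.natAbs_natCast] at this
  set d := s.den with hdd
  obtain ⟨σ, hσpos, hσ⟩ : ∃ σ : ℚ, 0 < σ ∧ (d : ℚ) = σ ^ d := by
    have hcop' : IsCoprime (n : ℤ) (d : ℤ) := Nat.isCoprime_iff_coprime.2 hcop
    obtain ⟨u, v, huv⟩ := hcop'
    have hd0 : (0 : ℚ) < d := by exact_mod_cast s.den_pos
    have he0 : (0 : ℚ) < r.den := by exact_mod_cast r.den_pos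
    have h4 : (d : ℚ) ^ n = (r.den : ℚ) ^ d := by exact_mod_cast h3
    refine ⟨(r.den : ℚ) ^ u * (d : ℚ) ^ v, by positivity, ?_⟩
    calc (d : ℚ) = (d : ℚ) ^ (u * n + v * d) := by rw [huv, zpow_one]
      _ = ((d : ℚ) ^ n) ^ u * ((d : ℚ) ^ v) ^ d := by
        rw [zpow_add₀ hd0.ne', mul_comm u, zpow_mul, zpow_mul, zpow_natCast, zpow_natCast]
      _ = ((r.den : ℚ) ^ u * (d : ℚ) ^ v) ^ d := by
        rw [h4, mul_pow, ← zpow_natCast (r.den : ℚ), ← zpow_mul, ← zpow_natCast ((r.den : ℚ) ^ u), ← zpow_mul,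
          mul_comm (d : ℤ) u]
  have hden1 : σ.den = 1 := by
    have h5 := congrArg Rat.den hσ
    rw [Rat.den_natCast, Rat.den_pow] at h5
    have h6 : d ≠ 0 := by omega
    rcases Nat.pow_eq_one.1 h5.symm with h7 | h7
    · exact h7
    · omega
  have hnum1 : (d : ℤ) = σ.num ^ d := by
    have h5 := congrArg Rat.num hσ
    rwa [Rat.num_natCast, Rat.num_pow] at h5
  have hσn : 0 < σ.num := Rat.num_pos.2 hσpos
  obtain ⟨t, ht⟩ : ∃ t : ℕ, σ.num = t := ⟨σ.num.toNat, (Int.toNat_of_nonneg hσn.le).symm⟩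
  rw [ht] at hnum1
  have h7 : d = t ^ d := by exact_mod_cast hnum1
  have hlt : d < 2 ^ d := Nat.lt_two_pow_self
  by_cases ht2 : 2 ≤ t
  · have := Nat.pow_le_pow_left ht2 d
    omega
  · have ht1 : t = 1 := by omega
    rw [ht1, one_pow] at h7
    omega

end Pool.Agent.NH23.Tw
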