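import Pool.Agent.NH23.TwA

/-!
# Powers with well approximable exponents which are not well approximable by rational numbers, II
-/

set_option autoImplicit false

open Filter Topology Polynomial

noncomputable section

namespace Pool.Agent.NH23.Tw

open Pool.Agent.R347.LW (tow tow_mono_left le_tow tow_lt_succ RAppr Appr)
open Pool.Agent.R347.GS (NE NE.const NE.mul NE.add NE.pow)
open Pool.Agent.NH23.CM (liou_val)

variable {q : ℕ → ℕ} (hq : ∀ k, 2 ≤ q k)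

/-- the local Lipschitz bound for powers -/
theorem lip_rpow {b x : ℝ} (hb : 0 < b) : ∃ C ε : ℝ, 0 < C ∧ 0 < ε ∧ ∀ b' x' δ : ℝ, |b - b'| ≤ δ → |x - x'| ≤ δ → δ ≤ ε →
    0 < b' ∧ |b' ^ x' - b ^ x| ≤ C * δ := by
  have h1 := (Real.hasStrictFDerivAt_rpow_of_pos (b, x) hb).hasFDerivAt.isBigO_sub
  obtain ⟨C, hC⟩ := h1.bound
  obtain ⟨ε, hε, hball⟩ := Metric.eventually_nhds_iff_ball.1 hC
  refine ⟨|C| + 1, min (ε / 2) (b / 2), by positivity, by positivity, fun b' x' δ h1 h2 h3 => ?_⟩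
  have h4 := h3.trans (min_le_left _ _)
  have h5 := h3.trans (min_le_right _ _)
  have hδ : 0 ≤ δ := (abs_nonneg _).trans h1
  have hdist : dist (b', x') (b, x) ≤ δ := by
    rw [Prod.dist_eq, max_le_iff, Real.dist_eq, Real.dist_eq, abs_sub_comm, abs_sub_comm x']
    exact ⟨h1, h2⟩
  refine ⟨?_, ?_⟩
  · have := (abs_le.1 h1).2
    linarith
  · have h6 := hball (b', x') (by
      rw [Metric.mem_ball]
      linarith)
    rw [Real.norm_eq_abs, ← dist_eq_norm] at h6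
    simp only at h6
    refine h6.trans ?_
    have h7 : C ≤ |C| + 1 := by linarith [le_abs_self C]
    calc C * dist (b', x') (b, x) ≤ (|C| + 1) * dist (b', x') (b, x) := mul_le_mul_of_nonneg_right h7 dist_nonneg
      _ ≤ _ := mul_le_mul_of_nonneg_left hdist (by positivity)

omit q in
theorem aux_le {T T₀ W : ℝ} (hT : 0 < T) (hT₀ : 0 < T₀) (h : T₀⁻¹ ≤ W * T⁻¹) : T ≤ T₀ * W := by
  have h1 := mul_le_mul_of_nonneg_left h (mul_pos hT₀ hT).le
  have e1 : T₀ * T * T₀⁻¹ = T := by field_simp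
  have e2 : T₀ * T * (W * T⁻¹) = T₀ * W := by field_simp
  linarith

include hq

/-- a rational power near a rational number is equal to it -/
theorem main_pow {b x : ℝ} (hb : 0 < b) (hx0 : 0 < x) (hx : RAppr q x) (hr : RAppr q (b ^ x)) (bb : ℕ → ℕ → ℝ)
    (hbb : ∀ u v : ℕ, |b - bb u v| ≤ |x - u / v|)
    (hliou : ∀ h : ℕ, ∃ c : ℕ, ∀ k, ∀ u v u' v' : ℕ, u ≤ tow h (q k) → v ≤ tow h (q k) → u' ≤ tow h (q k) →
      v' ≤ tow h (q k) → 1 ≤ v → 1 ≤ v' → 0 < bb u v → bb u v ^ u ≠ ((u' : ℝ) / v') ^ v →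
      ((tow c (q k) : ℕ) : ℝ)⁻¹ ≤ |bb u v ^ u - ((u' : ℝ) / v') ^ v|) (ε : ℝ) (hε : 0 < ε) :
    ∃ (u v : ℕ) (ρ : ℚ), 1 ≤ u ∧ 1 ≤ v ∧ |x - (u / v : ℝ)| ≤ ε ∧ bb u v ^ ((u : ℝ) / v) = ρ := by
  obtain ⟨C, ε₀, hC, hε₀, hlip⟩ := lip_rpow (b := b) (x := x) hb
  obtain ⟨h₁, hh₁⟩ := hx
  obtain ⟨h₂, hh₂⟩ := hr
  set r : ℝ := b ^ x with hr
  have hr0 : 0 < r := Real.rpow_pos_of_pos hb _
  set X₀ : ℕ := ⌈x⌉₊ + ⌈r⌉₊ + ⌈C⌉₊ + 2 with hX₀
  -- bounds for the numerators and denominators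
  obtain ⟨h, hh⟩ : NE q fun k => X₀ * (tow h₁ (q k) + tow h₂ (q k)) :=
    NE.mul hq (NE.const X₀) (NE.add hq ⟨h₁, fun _ => le_rfl⟩ ⟨h₂, fun _ => le_rfl⟩)
  obtain ⟨c₀, hc₀⟩ := hliou h
  obtain ⟨c₁, hc₁⟩ : NE q fun k => tow c₀ (q k) * (X₀ * (tow h (q k) * X₀ ^ tow h (q k))) :=
    NE.mul hq ⟨c₀, fun _ => le_rfl⟩ (NE.mul hq (NE.const X₀) (NE.mul hq ⟨h, fun _ => le_rfl⟩
      (NE.pow hq (NE.const X₀) ⟨h, fun _ => le_rfl⟩)))
  -- the precision
  obtain ⟨κ, hκ⟩ : ∃ κ : ℕ, c₁ < κ ∧ (κ : ℝ)⁻¹ ≤ min ε (min ε₀ (min (x / 2) (min (r / 2) 1))) := by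
    have hm : 0 < min ε (min ε₀ (min (x / 2) (min (r / 2) 1))) := by positivity
    obtain ⟨κ, hκ⟩ := exists_nat_gt ((min ε (min ε₀ (min (x / 2) (min (r / 2) 1))))⁻¹ + c₁)
    have h1 : 0 < (min ε (min ε₀ (min (x / 2) (min (r / 2) 1))))⁻¹ := inv_pos.2 hm
    have h2 : (0 : ℝ) ≤ c₁ := Nat.cast_nonneg _
    refine ⟨κ, ?_, ?_⟩
    · have : (c₁ : ℝ) < κ := by linarith
      exact_mod_cast this
    · rw [inv_le_comm₀ (by linarith) hm]
      linarith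
  obtain ⟨k₁, hk₁⟩ := hh₁ κ
  obtain ⟨k₂, hk₂⟩ := hh₂ κ
  set k := max k₁ k₂ with hk
  obtain ⟨u, v, hv, hvh, hxu⟩ := hk₁ k (le_max_left _ _)
  obtain ⟨u', v', hv', hvh', hru⟩ := hk₂ k (le_max_right _ _)
  set δ : ℝ := ((tow κ (q k) : ℕ) : ℝ)⁻¹ with hδ
  have htow : (κ : ℝ) ≤ ((tow κ (q k) : ℕ) : ℝ) := by
    have := le_tow κ (q k)
    exact_mod_cast (by omega : κ ≤ tow κ (q k))
  have hκ0 : (0 : ℝ) < κ := by
    have : 0 < κ := by omega
    exact_mod_cast this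
  have hδ0 : 0 < δ := inv_pos.2 (lt_of_lt_of_le hκ0 htow)
  have hδκ : δ ≤ (κ : ℝ)⁻¹ := inv_anti₀ hκ0 htow
  have hδ1 := hδκ.trans hκ.2
  have e1 : δ ≤ ε := hδ1.trans (min_le_left _ _)
  have e2 : δ ≤ ε₀ := hδ1.trans ((min_le_right _ _).trans (min_le_left _ _))
  have e3 : δ ≤ x / 2 := hδ1.trans ((min_le_right _ _).trans ((min_le_right _ _).trans (min_le_left _ _)))
  have e4 : δ ≤ r / 2 := hδ1.trans ((min_le_right _ _).trans ((min_le_right _ _).trans ((min_le_right _ _).trans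
    (min_le_left _ _))))
  have e5 : δ ≤ 1 := hδ1.trans ((min_le_right _ _).trans ((min_le_right _ _).trans ((min_le_right _ _).trans
    (min_le_right _ _))))
  have hv0 : (0 : ℝ) < v := by exact_mod_cast hv
  have hv0' : (0 : ℝ) < v' := by exact_mod_cast hv'
  -- positivity of the numerators
  have hu0 : 0 < u := by
    have h1 := (abs_le.1 hxu).2
    have h2 : 0 < (u : ℝ) / v := by linarith
    have h3 : (0 : ℝ) < u := by
      rcases (div_pos_iff.1 h2) with h | h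
      · exact h.1
      · linarith [h.2]
    exact_mod_cast h3
  have hu0' : 0 < u' := by
    have h1 := (abs_le.1 hru).2
    have h2 : 0 < (u' : ℝ) / v' := by linarith
    have h3 : (0 : ℝ) < u' := by
      rcases (div_pos_iff.1 h2) with h | h
      · exact h.1
      · linarith [h.2]
    exact_mod_cast h3
  obtain ⟨m, rfl⟩ : ∃ m : ℕ, u = m := ⟨u.toNat, (Int.toNat_of_nonneg hu0.le).symm⟩
  obtain ⟨m', rfl⟩ : ∃ m : ℕ, u' = m := ⟨u'.toNat, (Int.toNat_of_nonneg hu0'.le).symm⟩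
  have hm : 1 ≤ m := by exact_mod_cast hu0
  have hm' : 1 ≤ m' := by exact_mod_cast hu0'
  simp only [Int.cast_natCast] at hxu hru
  have cx := Nat.le_ceil x
  have cr := Nat.le_ceil r
  have cC := Nat.le_ceil C
  have hX₀r : (X₀ : ℝ) = ⌈x⌉₊ + ⌈r⌉₊ + ⌈C⌉₊ + 2 := by rw [hX₀]; push_cast; ring
  have p1 : (0 : ℝ) ≤ ⌈x⌉₊ := by positivity
  have p2 : (0 : ℝ) ≤ ⌈r⌉₊ := by positivity
  have p3 : (0 : ℝ) ≤ ⌈C⌉₊ := by positivity
  have bm : (m : ℝ) ≤ X₀ * v := by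
    have h1 : (m : ℝ) / v ≤ X₀ := by
      have := (abs_le.1 hxu).1
      linarith
    rwa [div_le_iff₀ hv0] at h1
  have bm' : (m' : ℝ) ≤ X₀ * v' := by
    have h1 : (m' : ℝ) / v' ≤ X₀ := by
      have := (abs_le.1 hru).1
      linarith
    rwa [div_le_iff₀ hv0'] at h1
  have nm : m ≤ X₀ * v := by exact_mod_cast bm
  have nm' : m' ≤ X₀ * v' := by exact_mod_cast bm'
  have hX1 : 1 ≤ X₀ := by omega
  have hN := hh k
  have q1 : m ≤ tow h (q k) := nm.trans ((Nat.mul_le_mul_left _ (hvh.trans (Nat.le_add_right _ _))).trans hN)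
  have q2 : v ≤ tow h (q k) :=
    hvh.trans ((Nat.le_add_right _ (tow h₂ (q k))).trans ((Nat.le_mul_of_pos_left _ hX1).trans hN))
  have q3 : m' ≤ tow h (q k) := nm'.trans ((Nat.mul_le_mul_left _ (hvh'.trans (Nat.le_add_left _ _))).trans hN)
  have q4 : v' ≤ tow h (q k) :=
    hvh'.trans ((Nat.le_add_left _ (tow h₁ (q k))).trans ((Nat.le_mul_of_pos_left _ hX1).trans hN))
  -- the power
  obtain ⟨hbbpos, hf⟩ := hlip (bb m v) ((m : ℝ) / v) δ ((hbb m v).trans hxu) hxu e2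
  set f : ℝ := bb m v ^ ((m : ℝ) / v) with hfd
  have hfpos : 0 < f := Real.rpow_pos_of_pos hbbpos _
  set ρ : ℝ := (m' : ℝ) / v' with hρ
  have hρpos : 0 < ρ := by positivity
  have hfv : f ^ v = bb m v ^ m := by
    rw [hfd, ← Real.rpow_natCast, ← Real.rpow_mul hbbpos.le, div_mul_cancel₀ _ hv0.ne', Real.rpow_natCast]
  have hdiff : |f - ρ| ≤ (C + 1) * δ := by
    have h1 : |f - ρ| ≤ |f - r| + |r - ρ| := abs_sub_le _ _ _
    linarith
  have hfX : f ≤ X₀ := by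
    have h1 := (abs_le.1 hf).2
    have h2 : C * δ ≤ C := by nlinarith
    linarith
  have hρX : ρ ≤ X₀ := by
    have h1 := (abs_le.1 hru).1
    linarith
  have heq : f ^ v = ρ ^ v := by
    by_contra hne
    rw [hfv] at hne
    have h1 := hc₀ k m v m' v' q1 q2 q3 q4 hv hv' hbbpos hne
    rw [← hfv] at h1
    have hX1r : (1 : ℝ) ≤ X₀ := by exact_mod_cast hX1
    have h2 : |f ^ v - ρ ^ v| ≤ X₀ * (tow h (q k) * X₀ ^ tow h (q k)) * δ := by
      calc |f ^ v - ρ ^ v| ≤ |f - ρ| * v * max |f| |ρ| ^ (v - 1) := abs_pow_sub_pow_le _ _ _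
        _ ≤ ((C + 1) * δ) * v * (X₀ : ℝ) ^ (v - 1) := by
          rw [abs_of_pos hfpos, abs_of_pos hρpos]
          gcongr
          exact max_le hfX hρX
        _ ≤ (X₀ * δ) * (tow h (q k) : ℕ) * (X₀ : ℝ) ^ tow h (q k) := by
          gcongr
          · linarith
          · omega
        _ = _ := by ring
    have h3 : ((tow κ (q k) : ℕ) : ℝ) ≤ ((tow c₁ (q k) : ℕ) : ℝ) := by
      have hT : (0 : ℝ) < ((tow κ (q k) : ℕ) : ℝ) := lt_of_lt_of_le hκ0 htow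
      have hT0 : (0 : ℝ) < ((tow c₀ (q k) : ℕ) : ℝ) := by
        have := le_tow c₀ (q k)
        have := hq k
        exact_mod_cast (by omega : 0 < tow c₀ (q k))
      have h4 := h1.trans h2
      have h5 : ((tow κ (q k) : ℕ) : ℝ) ≤ (tow c₀ (q k) : ℕ) * (X₀ * (tow h (q k) * X₀ ^ tow h (q k))) :=
        aux_le hT hT0 h4
      refine h5.trans ?_
      exact_mod_cast hc₁ k
    have h6 : tow c₁ (q k) < tow κ (q k) := lt_of_lt_of_le (tow_lt_succ _ _) (tow_mono_left hκ.1 _)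
    have h7 : ((tow c₁ (q k) : ℕ) : ℝ) < ((tow κ (q k) : ℕ) : ℝ) := by exact_mod_cast h6
    linarith
  have hfρ : f = ρ := by
    have hv1 : v ≠ 0 := by omega
    exact (pow_left_inj₀ hfpos.le hρpos.le hv1).1 heq
  refine ⟨m, v, (m' : ℚ) / v', hm, hv, hxu.trans e1, ?_⟩
  rw [← hfd, hfρ, hρ]
  push_cast
  rfl

end Pool.Agent.NH23.Tw
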