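import Pool.Agent.NH23.TwB

/-!
# Powers with well approximable exponents which are not well approximable by rational numbers, III
-/

set_option autoImplicit false

open Filter Topology Polynomial

noncomputable section

namespace Pool.Agent.NH23.Tw

open Pool.Agent.R347.LW (tow tow_mono_left le_tow tow_lt_succ RAppr Appr)
open Pool.Agent.R347.GS (NE NE.const NE.mul NE.add NE.pow)
open Pool.Agent.NH23.CM (liou_val)

variable {q : ℕ → ℕ} (hq : ∀ k, 2 ≤ q k)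

include hq

theorem pow_le_pow_nat {a b N M : ℕ} (ha : a ≤ N) (hb : b ≤ M) (hN : 1 ≤ N) : a ^ b ≤ N ^ M :=
  (Nat.pow_le_pow_left ha b).trans (Nat.pow_le_pow_right hN hb)

/-- the lower bound for rational bases -/
theorem liou_self (h : ℕ) : ∃ c : ℕ, ∀ k, ∀ u v u' v' : ℕ, u ≤ tow h (q k) → v ≤ tow h (q k) → u' ≤ tow h (q k) →
      v' ≤ tow h (q k) → 1 ≤ v → 1 ≤ v' → 0 < (u : ℝ) / v → ((u : ℝ) / v) ^ u ≠ ((u' : ℝ) / v') ^ v →
      ((tow c (q k) : ℕ) : ℝ)⁻¹ ≤ |((u : ℝ) / v) ^ u - ((u' : ℝ) / v') ^ v| := by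
  obtain ⟨c, hc⟩ : NE q fun k => tow h (q k) ^ tow h (q k) * tow h (q k) ^ tow h (q k) :=
    NE.mul hq (NE.pow hq ⟨h, fun _ => le_rfl⟩ ⟨h, fun _ => le_rfl⟩) (NE.pow hq ⟨h, fun _ => le_rfl⟩ ⟨h, fun _ => le_rfl⟩)
  refine ⟨c, fun k u v u' v' hu hv hu' hv' h1 h1' _ hne => ?_⟩
  have hv0 : (0 : ℝ) < v := by exact_mod_cast h1
  have hv0' : (0 : ℝ) < v' := by exact_mod_cast h1'
  have hN : 1 ≤ tow h (q k) := h1.trans hv
  set A : ℤ := (u : ℤ) ^ u * (v' : ℤ) ^ v - (u' : ℤ) ^ v * (v : ℤ) ^ u with hA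
  have hd : ((u : ℝ) / v) ^ u - ((u' : ℝ) / v') ^ v = (A : ℝ) / ((v : ℝ) ^ u * (v' : ℝ) ^ v) := by
    rw [hA, div_pow, div_pow]
    push_cast
    field_simp
  have hA0 : A ≠ 0 := by
    intro h0
    apply hne
    rw [← sub_eq_zero, hd, h0]
    simp
  have hA1 : (1 : ℝ) ≤ |(A : ℝ)| := by exact_mod_cast Int.one_le_abs hA0
  rw [hd, abs_div, abs_of_pos (by positivity : (0 : ℝ) < (v : ℝ) ^ u * (v' : ℝ) ^ v)]
  have hb : v ^ u * v' ^ v ≤ tow c (q k) :=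
    (Nat.mul_le_mul (pow_le_pow_nat hq hv hu hN) (pow_le_pow_nat hq hv' hv hN)).trans (hc k)
  have hb' : (v : ℝ) ^ u * (v' : ℝ) ^ v ≤ ((tow c (q k) : ℕ) : ℝ) := by exact_mod_cast hb
  calc ((tow c (q k) : ℕ) : ℝ)⁻¹ ≤ ((v : ℝ) ^ u * (v' : ℝ) ^ v)⁻¹ := inv_anti₀ (by positivity) hb'
    _ = 1 / ((v : ℝ) ^ u * (v' : ℝ) ^ v) := (one_div _).symm
    _ ≤ _ := by gcongr

omit hq in
/-- the conjugates are bounded -/
theorem conj_bd {z : ℂ} (hz : IsAlgebraic ℚ z) : ∃ B : ℕ, 1 ≤ B ∧ ∀ σ : ℂ ≃+* ℂ, ‖σ z‖ ≤ B := by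
  classical
  set p := minpoly ℚ z with hp
  have hp0 : p ≠ 0 := minpoly.ne_zero hz.isIntegral
  set S : Finset ℂ := (p.map (algebraMap ℚ ℂ)).roots.toFinset with hS
  obtain ⟨B, hB⟩ := exists_nat_ge (∑ x ∈ S, ‖x‖)
  refine ⟨B + 1, by omega, fun σ => ?_⟩
  have h1 : σ z ∈ S := by
    rw [hS, Multiset.mem_toFinset, Polynomial.mem_roots (Polynomial.map_ne_zero hp0), Polynomial.IsRoot,
      Polynomial.eval_map_algebraMap]
    have h2 : Polynomial.aeval z p = 0 := minpoly.aeval ℚ z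
    have h3 := congrArg σ h2
    rw [map_zero] at h3
    rw [← h3, Polynomial.aeval_def, Polynomial.aeval_def]
    have h5 := Polynomial.hom_eval₂ p (algebraMap ℚ ℂ) (σ : ℂ →+* ℂ) z
    refine Eq.trans ?_ h5.symm
    congr 1
    exact Subsingleton.elim _ _
  have h4 : ‖σ z‖ ≤ ∑ x ∈ S, ‖x‖ := Finset.single_le_sum (f := fun x => ‖x‖) (fun _ _ => norm_nonneg _) h1
  push_cast
  linarith

/-- the lower bound for algebraic bases -/
theorem liou_alg {b : ℝ} (hb : IsAlgebraic ℚ b) (h : ℕ) : ∃ c : ℕ, ∀ k, ∀ u v u' v' : ℕ, u ≤ tow h (q k) →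
      v ≤ tow h (q k) → u' ≤ tow h (q k) → v' ≤ tow h (q k) → 1 ≤ v → 1 ≤ v' → 0 < b →
      b ^ u ≠ ((u' : ℝ) / v') ^ v → ((tow c (q k) : ℕ) : ℝ)⁻¹ ≤ |b ^ u - ((u' : ℝ) / v') ^ v| := by
  classical
  have hbC : IsAlgebraic ℚ (b : ℂ) := hb.algebraMap (A := ℂ)
  obtain ⟨B, hB1, hB⟩ := conj_bd hbC
  have hbZ : IsAlgebraic ℤ (b : ℂ) := (IsFractionRing.isAlgebraic_iff ℤ ℚ ℂ).2 hbC
  obtain ⟨D, hD0, hD⟩ := hbZ.exists_integral_multiple
  set n := (minpoly ℚ (b : ℂ)).natDegree with hn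
  set E : ℕ := D.natAbs with hE
  have hE1 : 1 ≤ E := Nat.one_le_iff_ne_zero.2 (Int.natAbs_ne_zero.2 hD0)
  have hGN : NE q fun k => E ^ tow h (q k) * (B ^ tow h (q k) * tow h (q k) ^ tow h (q k) + tow h (q k) ^ tow h (q k)) :=
    NE.mul hq (NE.pow hq (NE.const E) ⟨h, fun _ => le_rfl⟩) (NE.add hq (NE.mul hq
      (NE.pow hq (NE.const B) ⟨h, fun _ => le_rfl⟩) (NE.pow hq ⟨h, fun _ => le_rfl⟩ ⟨h, fun _ => le_rfl⟩))
      (NE.pow hq ⟨h, fun _ => le_rfl⟩ ⟨h, fun _ => le_rfl⟩))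
  obtain ⟨c, hc⟩ : NE q fun k => (E ^ tow h (q k) * tow h (q k) ^ tow h (q k)) *
      (E ^ tow h (q k) * (B ^ tow h (q k) * tow h (q k) ^ tow h (q k) + tow h (q k) ^ tow h (q k))) ^ n :=
    NE.mul hq (NE.mul hq (NE.pow hq (NE.const E) ⟨h, fun _ => le_rfl⟩)
      (NE.pow hq ⟨h, fun _ => le_rfl⟩ ⟨h, fun _ => le_rfl⟩)) (NE.pow hq hGN (NE.const n))
  refine ⟨c, fun k u v u' v' hu hv hu' hv' h1 h1' hb0 hne => ?_⟩
  set N := tow h (q k) with hN
  have hN1 : 1 ≤ N := h1.trans hv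
  have hv0 : (0 : ℝ) < v := by exact_mod_cast h1
  have hv0' : (0 : ℝ) < v' := by exact_mod_cast h1'
  set θ : ℂ := (D : ℂ) ^ u * ((b : ℂ) ^ u * (v' : ℂ) ^ v - (u' : ℂ) ^ v) with hθ
  have hθr : θ = (((D : ℝ) ^ u * (v' : ℝ) ^ v * (b ^ u - ((u' : ℝ) / v') ^ v) : ℝ) : ℂ) := by
    rw [hθ]
    push_cast
    have hvc : ((v' : ℕ) : ℂ) ≠ 0 := by exact_mod_cast (by omega : v' ≠ 0)
    rw [div_pow]
    field_simp
  have hDr : (D : ℝ) ≠ 0 := by exact_mod_cast hD0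
  have hθ0 : θ ≠ 0 := by
    rw [hθr]
    have : (D : ℝ) ^ u * (v' : ℝ) ^ v * (b ^ u - ((u' : ℝ) / v') ^ v) ≠ 0 :=
      mul_ne_zero (mul_ne_zero (pow_ne_zero _ hDr) (pow_ne_zero _ hv0'.ne')) (sub_ne_zero.2 hne)
    exact_mod_cast this
  have hint : IsIntegral ℤ θ := by
    have e1 : θ = ((D • (b : ℂ)) ^ u) * (v' : ℂ) ^ v - (D : ℂ) ^ u * (u' : ℂ) ^ v := by
      rw [hθ, zsmul_eq_mul, mul_pow]
      ring
    rw [e1]
    have i1 : ∀ m : ℕ, IsIntegral ℤ (m : ℂ) := fun m => isIntegral_natCast m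
    have i2 : IsIntegral ℤ (D : ℂ) := isIntegral_intCast D
    exact ((hD.pow u).mul ((i1 v').pow v)).sub ((i2.pow u).mul ((i1 u').pow v))
  have hEabs : |(D : ℝ)| = E := by
    rw [hE, Nat.cast_natAbs]
    push_cast
    rfl
  set G : ℝ := (E : ℝ) ^ N * ((B : ℝ) ^ N * (N : ℝ) ^ N + (N : ℝ) ^ N) with hG
  have hEr : (1 : ℝ) ≤ E := by exact_mod_cast hE1
  have hBr : (1 : ℝ) ≤ B := by exact_mod_cast hB1
  have hNr : (1 : ℝ) ≤ N := by exact_mod_cast hN1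
  have pw : ∀ (a : ℝ) (M : ℕ) (A : ℝ), 0 ≤ a → a ≤ A → 1 ≤ A → M ≤ N → a ^ M ≤ A ^ N := fun a M A h0 h2 h3 h4 =>
    (pow_le_pow_left₀ h0 h2 _).trans (pow_le_pow_right₀ h3 h4)
  have hur : (u' : ℝ) ≤ N := by exact_mod_cast hu'
  have hvr : (v' : ℝ) ≤ N := by exact_mod_cast hv'
  have hG1 : 1 ≤ G := by
    have e1 : (1 : ℝ) ≤ (E : ℝ) ^ N := one_le_pow₀ hEr
    have e2 : (1 : ℝ) ≤ (B : ℝ) ^ N * (N : ℝ) ^ N := one_le_mul_of_one_le_of_one_le (one_le_pow₀ hBr) (one_le_pow₀ hNr)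
    have e3 : (0 : ℝ) ≤ (N : ℝ) ^ N := by positivity
    rw [hG]
    nlinarith
  have hσ : ∀ σ : ℂ ≃+* ℂ, ‖σ θ‖ ≤ G := by
    intro σ
    rw [hθ, map_mul, map_pow, map_sub, map_mul, map_pow, map_pow, map_pow, map_intCast, map_natCast, map_natCast,
      norm_mul, norm_pow, Complex.norm_intCast, hEabs, hG]
    refine mul_le_mul (pw _ _ _ (by positivity) le_rfl hEr hu) ?_ (norm_nonneg _) (by positivity)
    refine (norm_sub_le _ _).trans (add_le_add ?_ ?_)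
    · rw [norm_mul, norm_pow, norm_pow, Complex.norm_natCast]
      exact mul_le_mul (pw _ _ _ (norm_nonneg _) (hB σ) hBr hu) (pw _ _ _ (by positivity) hvr hNr hv) (by positivity)
        (by positivity)
    · rw [norm_pow, Complex.norm_natCast]
      exact pw _ _ _ (by positivity) hur hNr hv
  have hdeg : (minpoly ℚ θ).natDegree ≤ n := by
    have hfd : FiniteDimensional ℚ (IntermediateField.adjoin ℚ {(b : ℂ)}) :=
      IntermediateField.adjoin.finiteDimensional hbC.isIntegral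
    have hmem : θ ∈ IntermediateField.adjoin ℚ {(b : ℂ)} := by
      have m0 : (b : ℂ) ∈ IntermediateField.adjoin ℚ {(b : ℂ)} := IntermediateField.mem_adjoin_simple_self ℚ _
      have m1 : ∀ m : ℕ, (m : ℂ) ∈ IntermediateField.adjoin ℚ {(b : ℂ)} := fun m => natCast_mem _ m
      have m2 : (D : ℂ) ∈ IntermediateField.adjoin ℚ {(b : ℂ)} := intCast_mem _ D
      rw [hθ]
      exact mul_mem (pow_mem m2 _) (sub_mem (mul_mem (pow_mem m0 _) (pow_mem (m1 _) _)) (pow_mem (m1 _) _))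
    have h2 := minpoly.natDegree_le (A := ℚ) (⟨θ, hmem⟩ : IntermediateField.adjoin ℚ {(b : ℂ)})
    rw [IntermediateField.adjoin.finrank hbC.isIntegral] at h2
    have h3 : minpoly ℚ (⟨θ, hmem⟩ : IntermediateField.adjoin ℚ {(b : ℂ)}) = minpoly ℚ θ :=
      (minpoly.algebraMap_eq (algebraMap (IntermediateField.adjoin ℚ {(b : ℂ)}) ℂ).injective
        (⟨θ, hmem⟩ : IntermediateField.adjoin ℚ {(b : ℂ)})).symm
    rwa [h3] at h2
  have hlow := liou_val hint hθ0 hG1 hσ hdeg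
  have hθn : ‖θ‖ = (E : ℝ) ^ u * (v' : ℝ) ^ v * |b ^ u - ((u' : ℝ) / v') ^ v| := by
    rw [hθr, Complex.norm_real, Real.norm_eq_abs, abs_mul, abs_mul, abs_pow, hEabs, abs_of_pos (pow_pos hv0' v)]
  set W : ℝ := |b ^ u - ((u' : ℝ) / v') ^ v| with hW
  have hW0 : 0 ≤ W := abs_nonneg _
  have hfin : (1 : ℝ) ≤ ((tow c (q k) : ℕ) : ℝ) * W := by
    calc (1 : ℝ) ≤ ‖θ‖ * G ^ n := hlow
      _ = ((E : ℝ) ^ u * (v' : ℝ) ^ v * G ^ n) * W := by rw [hθn]; ring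
      _ ≤ (((E : ℝ) ^ N * (N : ℝ) ^ N) * G ^ n) * W := by
        refine mul_le_mul_of_nonneg_right (mul_le_mul_of_nonneg_right ?_ (by positivity)) hW0
        exact mul_le_mul (pw _ _ _ (by positivity) le_rfl hEr hu) (pw _ _ _ (by positivity) hvr hNr hv) (by positivity)
          (by positivity)
      _ ≤ ((tow c (q k) : ℕ) : ℝ) * W := by
        refine mul_le_mul_of_nonneg_right ?_ hW0
        have := hc k
        rw [hG]
        exact_mod_cast this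
  have hT : (0 : ℝ) < ((tow c (q k) : ℕ) : ℝ) := by
    by_contra hle
    push Not at hle
    nlinarith
  rw [inv_le_iff_one_le_mul₀ hT, mul_comm]
  exact hfin

/-- **powers are not rationally approximable** -/
theorem pow_not {b x : ℝ} (hx : RAppr q x) (hirr : Irrational x) (hb0 : 0 < b)
    (hb : (IsAlgebraic ℚ b ∧ b ≠ 1) ∨ b = x) : ¬ RAppr q (b ^ x) := by
  rcases hb with ⟨halg, hb1⟩ | rfl
  · -- positive exponents
    have key : ∀ b x : ℝ, RAppr q x → Irrational x → 0 < b → IsAlgebraic ℚ b → b ≠ 1 → 0 < x → ¬ RAppr q (b ^ x) := by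
      intro b x hx hirr hb0 halg hb1 hx0 hr
      refine no_rat_pow hb0 hb1 hirr fun ε hε => ?_
      obtain ⟨u, v, ρ, hu, hv, h1, h2⟩ := main_pow hq hb0 hx0 hx hr (fun _ _ => b) (fun u v => by
        rw [sub_self, abs_zero]; exact abs_nonneg _) (fun h => by
        obtain ⟨c, hc⟩ := liou_alg hq halg h
        exact ⟨c, fun k u v u' v' a1 a2 a3 a4 a5 a6 a7 a8 => hc k u v u' v' a1 a2 a3 a4 a5 a6 a7 a8⟩) ε hε
      refine ⟨(u : ℚ) / v, ρ, ?_, ?_⟩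
      · push_cast
        exact h1
      · push_cast
        exact h2
    rcases lt_trichotomy x 0 with h0 | h0 | h0
    · intro hr
      refine key b⁻¹ (-x) (RAppr.neg hx) hirr.neg (inv_pos.2 hb0) halg.inv (by
        intro h1
        exact hb1 (inv_eq_one.1 h1)) (by linarith) ?_
      rw [Real.inv_rpow hb0.le, Real.rpow_neg hb0.le, inv_inv]
      exact hr
    · exact absurd h0 hirr.ne_zero
    · exact key b x hx hirr hb0 halg hb1 h0
  · intro hr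
    refine no_rat_self hirr hb0 fun ε hε => ?_
    obtain ⟨u, v, ρ, hu, hv, h1, h2⟩ := main_pow hq hb0 hb0 hx hr (fun u v => (u : ℝ) / v) (fun u v => le_refl _)
      (fun h => liou_self hq h) ε hε
    refine ⟨(u : ℚ) / v, ρ, ?_, ?_, ?_⟩
    · push_cast
      exact h1
    · have : (0 : ℚ) < u := by exact_mod_cast hu
      have : (0 : ℚ) < v := by exact_mod_cast hv
      positivity
    · push_cast
      exact h2

end Pool.Agent.NH23.Tw
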