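import Pool.Agent.NH23.TwC
import Pool.Agent.R347.LW.Ex2

/-!
# Towers with well approximable exponents
-/

set_option autoImplicit false

open Filter Topology

noncomputable section

namespace Pool.Agent.NH23.Tw

open Pool.Agent.R347.LW (tow tow_mono_left le_tow tow_lt_succ RAppr Appr UK UR UK_closed dich eT qT xiT trT eT_succ
  xiT_split tailT_le trT_nonneg trT_of_mem trT_of_notMem trT_summable' eT_pos)
open Pool.Agent.R347.GS (gs)

theorem Appr_alg {q : ℕ → ℕ} (hq : ∀ k, 2 ≤ q k) {z : ℂ} (hz : IsAlgebraic ℚ z) : Appr q z := by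
  have hbZ : IsAlgebraic ℤ z := (IsFractionRing.isAlgebraic_iff ℤ ℚ ℂ).2 hz
  obtain ⟨P, hP, h0⟩ := hbZ
  exact Appr.ofAlg hq P hP h0

theorem Appr_pow {q : ℕ → ℕ} (hq : ∀ k, 2 ≤ q k) {b x : ℝ} (hb0 : 0 < b) (hb : Appr q (b : ℂ)) (hx : RAppr q x) :
    Appr q ((b ^ x : ℝ) : ℂ) := by
  have h1 : Complex.exp ((Real.log b : ℝ) : ℂ) = (b : ℂ) := by
    rw [← Complex.ofReal_exp, Real.exp_log hb0]
  have h2 := Appr.rpow hq (l := ((Real.log b : ℝ) : ℂ)) (by rw [h1]; exact hb) hx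
  have h3 : ((b ^ x : ℝ) : ℂ) = Complex.exp (x * ((Real.log b : ℝ) : ℂ)) := by
    rw [← Complex.ofReal_mul, ← Complex.ofReal_exp, Real.rpow_def_of_pos hb0, mul_comm]
  rw [h3]
  exact h2

/-- **towers** -/
theorem towers {q : ℕ → ℕ} (hq : ∀ k, 2 ≤ q k) {b x : ℝ} (hb0 : 0 < b) (hx : RAppr q x) (hirr : Irrational x)
    (hb : (IsAlgebraic ℚ b ∧ b ≠ 1) ∨ b = x) {l : ℂ} (hl : l ≠ 0) (hel : Appr q (Complex.exp l)) {m : ℕ} {y : Fin m → ℝ}
    (hy : ∀ i, RAppr q (y i)) (hli : LinearIndependent ℚ y) :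
    AlgebraicIndependent (UK hq) (fun i => Complex.exp (y i * (b ^ x : ℝ) * l)) := by
  have hbA : Appr q (b : ℂ) := by
    rcases hb with h | rfl
    · exact Appr_alg hq (h.1.algebraMap (A := ℂ))
    · exact hx.appr hq
  have hz := Appr_pow hq hb0 hbA hx
  have hno : ¬ Appr q (Complex.exp (((b ^ x : ℝ) : ℂ) * l)) := by
    intro h1
    obtain ⟨w, hw, hwe⟩ := gs hq l _ hl hel hz h1
    have h2 : b ^ x = w := by exact_mod_cast hwe
    rw [← h2] at hw
    exact pow_not hq hx hirr hb0 hb hw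
  have h3 := dich hq _ hno m (fun i => (⟨y i, hy i⟩ : UR hq)) (by
    have h4 : LinearIndependent ℚ ((UR hq).val.toLinearMap ∘ fun i => (⟨y i, hy i⟩ : UR hq)) := hli
    exact LinearIndependent.of_comp _ h4)
  have h5 : (fun i => Complex.exp (y i * (b ^ x : ℝ) * l)) =
      fun i => Complex.exp ((((⟨y i, hy i⟩ : UR hq) : ℝ) : ℂ) * (((b ^ x : ℝ) : ℂ) * l)) := by
    funext i
    congr 1
    rw [mul_assoc]
  rw [h5]
  exact h3

/-- the numbers are irrational -/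
theorem xiT_irr {A : Set ℕ} (hA : A.Infinite) : Irrational (xiT A) := by
  rw [irrational_iff_ne_rational]
  intro a b hb h0
  set d : ℕ := b.natAbs with hd
  obtain ⟨k, hkA, hk⟩ : ∃ k ∈ A, d < k := by
    by_contra hcon
    push Not at hcon
    exact hA ((Set.finite_Iic d).subset fun k hk => hcon k hk)
  obtain ⟨j, rfl⟩ : ∃ j, k = j + 1 := ⟨k - 1, by omega⟩
  have hsp := xiT_split A (j + 1)
  set T : ℝ := ∑' i, trT A (i + (j + 1)) with hT
  have hTle : T ≤ 2 * (1 / 2 : ℝ) ^ eT (j + 1) := tailT_le A (j + 1)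
  have hTpos : 0 < T := by
    have h1 := (trT_summable' A (j + 1)).le_tsum 0 (fun i _ => trT_nonneg A _)
    rw [zero_add, trT_of_mem hkA] at h1
    exact lt_of_lt_of_le (by positivity) h1
  -- the head
  have hhead : ∃ p : ℤ, ∑ i ∈ Finset.range (j + 1), trT A i = (p : ℝ) / 2 ^ eT j := by
    classical
    refine ⟨∑ i ∈ Finset.range (j + 1), if i ∈ A then 2 ^ (eT j - eT i) else 0, ?_⟩
    push_cast
    rw [Finset.sum_div]
    refine Finset.sum_congr rfl fun i hi => ?_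
    have hij : i ≤ j := Nat.lt_succ_iff.1 (Finset.mem_range.1 hi)
    by_cases h : i ∈ A
    · rw [trT_of_mem h, if_pos h]
      have hle : eT i ≤ eT j := by
        obtain ⟨r, rfl⟩ := Nat.exists_eq_add_of_le hij
        exact (Nat.le_add_right _ r).trans (Pool.Agent.R347.LW.eT_add i r)
      push_cast
      rw [eq_div_iff (by positivity), one_div, inv_pow, inv_mul_eq_iff_eq_mul₀ (by positivity), ← pow_add]
      congr 1
      omega
    · rw [trT_of_notMem h, if_neg h]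
      simp
  obtain ⟨p, hp⟩ := hhead
  have hb0 : (b : ℝ) ≠ 0 := by exact_mod_cast hb
  have h2 : T = (a : ℝ) / b - (p : ℝ) / 2 ^ eT j := by
    rw [h0, hp] at hsp
    linarith
  have h3 : T * (b * 2 ^ eT j) = ((a * 2 ^ eT j - p * b : ℤ) : ℝ) := by
    rw [h2]
    push_cast
    field_simp
  have hne : (a * 2 ^ eT j - p * b : ℤ) ≠ 0 := by
    intro h4
    rw [h4, Int.cast_zero] at h3
    rcases mul_eq_zero.1 h3 with h5 | h5
    · exact hTpos.ne' h5
    · exact (mul_ne_zero hb0 (by positivity)) h5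
  have h5 : (1 : ℝ) ≤ |T * (b * 2 ^ eT j)| := by
    rw [h3]
    exact_mod_cast Int.one_le_abs hne
  rw [abs_mul, abs_of_pos hTpos, abs_mul, abs_of_pos (by positivity : (0 : ℝ) < 2 ^ eT j)] at h5
  have h6 : |(b : ℝ)| = d := by
    rw [hd, Nat.cast_natAbs]
    push_cast
    rfl
  rw [h6] at h5
  have h7 : d + eT j + 2 ≤ eT (j + 1) := by
    rw [eT_succ]
    have := le_tow (j + 2) (eT j)
    omega
  have h8 : (2 : ℝ) * (1 / 2 : ℝ) ^ eT (j + 1) * (d * 2 ^ eT j) < 1 := by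
    have h9 : (1 / 2 : ℝ) ^ eT (j + 1) ≤ (1 / 2 : ℝ) ^ (d + eT j + 2) :=
      pow_le_pow_of_le_one (by norm_num) (by norm_num) h7
    have h10 : (1 / 2 : ℝ) ^ (d + eT j + 2) * 2 ^ eT j = (1 / 2 : ℝ) ^ (d + 2) := by
      rw [show d + eT j + 2 = (d + 2) + eT j by ring, pow_add _ (d + 2), mul_assoc, ← mul_pow]
      norm_num
    have h11 : (d : ℝ) * (1 / 2 : ℝ) ^ d ≤ 1 := by
      have : (d : ℝ) ≤ 2 ^ d := by exact_mod_cast (Nat.lt_two_pow_self (n := d)).le
      rw [one_div, inv_pow, ← div_eq_mul_inv, div_le_one (by positivity)]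
      exact this
    calc (2 : ℝ) * (1 / 2 : ℝ) ^ eT (j + 1) * (d * 2 ^ eT j)
        ≤ 2 * (1 / 2 : ℝ) ^ (d + eT j + 2) * (d * 2 ^ eT j) := by
          have : (0 : ℝ) ≤ d * 2 ^ eT j := by positivity
          nlinarith
      _ = 2 * d * ((1 / 2 : ℝ) ^ (d + eT j + 2) * 2 ^ eT j) := by ring
      _ = (1 / 2) * (d * (1 / 2 : ℝ) ^ d) := by rw [h10, pow_add]; ring
      _ < 1 := by linarith
  have h12 : T * (d * 2 ^ eT j) ≤ 2 * (1 / 2 : ℝ) ^ eT (j + 1) * (d * 2 ^ eT j) :=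
    mul_le_mul_of_nonneg_right hTle (by positivity)
  linarith

end Pool.Agent.NH23.Tw
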